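import Pool.Agent.H311.BP.Defs

/-! (B1) approximation (helper120 for helper311). -/

set_option autoImplicit false

open MeasureTheory Metric Set Filter Topology AddCircle
open scoped ENNReal NNReal Real RealInnerProductSpace

namespace Pool.Agent.H311.BP

lemma ap_haar : (haarAddCircle : Measure UnitAddCircle) = volume := by
  rw [AddCircle.volume_eq_smul_haarAddCircle, ENNReal.ofReal_one, one_smul]

/-- choice of a sign -/
lemma ap_sign {ι : Type*} (A : Finset ι) (a b : ι → ℂ) : ∃ σ : ℝ, (σ = 1 ∨ σ = -1) ∧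
    ∑ j ∈ A, ‖a j + (σ : ℂ) * b j‖ ^ 2 ≤ ∑ j ∈ A, ‖a j‖ ^ 2 + ∑ j ∈ A, ‖b j‖ ^ 2 := by
  by_contra hc
  push Not at hc
  have h1 := hc 1 (Or.inl rfl)
  have h2 := hc (-1) (Or.inr rfl)
  have h3 : ∑ j ∈ A, ‖a j + ((1 : ℝ) : ℂ) * b j‖ ^ 2 + ∑ j ∈ A, ‖a j + ((-1 : ℝ) : ℂ) * b j‖ ^ 2 =
      2 * (∑ j ∈ A, ‖a j‖ ^ 2 + ∑ j ∈ A, ‖b j‖ ^ 2) := by
    rw [← Finset.sum_add_distrib, ← Finset.sum_add_distrib, Finset.mul_sum]
    refine Finset.sum_congr rfl fun j _ => ?_
    have h := parallelogram_law_with_norm ℝ (a j) (b j)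
    have e1 : a j + ((1 : ℝ) : ℂ) * b j = a j + b j := by simp
    have e2 : a j + ((-1 : ℝ) : ℂ) * b j = a j - b j := by
      push_cast
      ring
    rw [e1, e2, sq, sq, sq, sq]
    linarith
  linarith

lemma ap_ball {r : ℝ} (hr : 0 ≤ r) (x : UnitAddCircle) : volume.real (ball x r) ≤ 2 * r := by
  have h1 : volume (ball x r) ≤ ENNReal.ofReal (2 * r) := by
    refine (measure_mono ball_subset_closedBall).trans ?_
    rw [AddCircle.volume_closedBall]
    exact ENNReal.ofReal_le_ofReal (min_le_right _ _)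
  exact ENNReal.toReal_le_of_le_ofReal (by linarith) h1

lemma ap_int {s : UnitAddCircle → ℝ} (hs : Measurable s) (hs1 : ∀ t, s t = 1 ∨ s t = -1) (j : ℤ)
    (S : Set UnitAddCircle) : IntegrableOn (fun t => fourier (-j) t * (s t : ℂ)) S := by
  have h1 : Integrable (fun t : UnitAddCircle => fourier (-j) t * (s t : ℂ)) := by
    refine (integrable_const (1 : ℝ)).mono' ?_ (Eventually.of_forall fun t => ?_)
    · exact ((map_continuous (fourier (-j))).measurable.mul
        (Complex.measurable_ofReal.comp hs)).aestronglyMeasurable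
    · rw [norm_mul]
      have h2 : ‖fourier (-j) t‖ = 1 := by
        rw [fourier_apply]
        exact Circle.norm_coe _
      rw [h2, one_mul, Complex.norm_real]
      rcases hs1 t with h | h <;> rw [h] <;> simp
  exact h1.integrableOn

lemma ap_ind {D : Set UnitAddCircle} (hD : MeasurableSet D) (A : Finset ℤ) {r : ℝ} (hr : 0 ≤ r)
    (B : Finset UnitAddCircle) : ∃ s : UnitAddCircle → ℝ, Measurable s ∧
      (∀ t, s t = 1 ∨ s t = -1) ∧
      ∑ j ∈ A, ‖∫ t in D ∩ ⋃ x ∈ B, ball x r, fourier (-j) t * (s t : ℂ)‖ ^ 2 ≤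
        A.card * (2 * r) * volume.real (⋃ x ∈ B, ball x r) := by
  classical
  induction B using Finset.induction_on with
  | empty =>
    refine ⟨fun _ => 1, measurable_const, fun _ => Or.inl rfl, ?_⟩
    simp
  | insert a B ha ih =>
    obtain ⟨s', hs', hs1', hb⟩ := ih
    obtain ⟨U, hU⟩ : ∃ U : Set UnitAddCircle, U = ⋃ x ∈ B, ball x r := ⟨_, rfl⟩
    have hUm : MeasurableSet U := by
      rw [hU]
      exact (isOpen_biUnion fun x _ => isOpen_ball).measurableSet
    rw [← hU] at hb
    rw [Finset.set_biUnion_insert, ← hU]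
    obtain ⟨σ, hσ, hsum⟩ := ap_sign A (fun j => ∫ t in D ∩ U, fourier (-j) t * (s' t : ℂ))
      (fun j => ∫ t in D ∩ (ball a r \ U), fourier (-j) t)
    refine ⟨fun t => if t ∈ U then s' t else σ, Measurable.ite hUm hs' measurable_const, ?_, ?_⟩
    · intro t
      by_cases h : t ∈ U
      · simp only [h, if_true]
        exact hs1' t
      · simp only [h, if_false]
        exact hσ
    have hm : Measurable fun t => if t ∈ U then s' t else σ :=
      Measurable.ite hUm hs' measurable_const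
    have hm1 : ∀ t, (if t ∈ U then s' t else σ) = 1 ∨ (if t ∈ U then s' t else σ) = -1 := by
      intro t
      by_cases h : t ∈ U
      · simp only [h, if_true]
        exact hs1' t
      · simp only [h, if_false]
        exact hσ
    have e : ∀ j, ∫ t in D ∩ (ball a r ∪ U), fourier (-j) t *
        ((if t ∈ U then s' t else σ : ℝ) : ℂ) =
        (∫ t in D ∩ U, fourier (-j) t * (s' t : ℂ)) +
          (σ : ℂ) * ∫ t in D ∩ (ball a r \ U), fourier (-j) t := by
      intro j
      have e1 : D ∩ (ball a r ∪ U) = (D ∩ U) ∪ (D ∩ (ball a r \ U)) := by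
        rw [← inter_union_distrib_left]
        congr 1
        rw [union_sdiff_self, union_comm]
      rw [e1, setIntegral_union ?_ (hD.inter (measurableSet_ball.diff hUm))
        (ap_int hm hm1 j _) (ap_int hm hm1 j _), ← integral_const_mul]
      · congr 1
        · refine setIntegral_congr_fun (hD.inter hUm) fun t ht => ?_
          simp only [ht.2, if_true]
        · refine setIntegral_congr_fun (hD.inter (measurableSet_ball.diff hUm)) fun t ht => ?_
          simp only [ht.2.2, if_false]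
          rw [mul_comm]
      · refine Set.disjoint_left.2 fun t ht ht2 => ht2.2.2 ht.2
    simp_rw [e]
    refine hsum.trans ?_
    have hvb : ∀ j ∈ A, ‖∫ t in D ∩ (ball a r \ U), fourier (-j) t‖ ^ 2 ≤
        2 * r * volume.real (ball a r \ U) := by
      intro j _
      have h1 : ‖∫ t in D ∩ (ball a r \ U), fourier (-j) t‖ ≤ volume.real (ball a r \ U) := by
        have h2 := norm_setIntegral_le_of_norm_le_const (μ := volume) (s := D ∩ (ball a r \ U))
          (C := 1) (f := fun t => fourier (-j) t) (measure_lt_top _ _) (fun t _ => by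
            rw [fourier_apply]
            exact (Circle.norm_coe _).le)
        rw [one_mul] at h2
        exact h2.trans (measureReal_mono inter_subset_right)
      have h3 : volume.real (ball a r \ U) ≤ 2 * r :=
        (measureReal_mono sdiff_subset).trans (ap_ball hr a)
      have h4 : 0 ≤ volume.real (ball a r \ U) := measureReal_nonneg
      rw [sq]
      calc ‖∫ t in D ∩ (ball a r \ U), fourier (-j) t‖ * ‖∫ t in D ∩ (ball a r \ U), fourier (-j) t‖
          ≤ volume.real (ball a r \ U) * volume.real (ball a r \ U) :=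
            mul_le_mul h1 h1 (norm_nonneg _) h4
        _ ≤ 2 * r * volume.real (ball a r \ U) := mul_le_mul_of_nonneg_right h3 h4
    have hvs := Finset.sum_le_sum hvb
    rw [Finset.sum_const, nsmul_eq_mul] at hvs
    have hvol : volume.real (ball a r ∪ U) = volume.real (ball a r \ U) + volume.real U := by
      rw [← measureReal_union ?_ hUm]
      · rw [sdiff_union_self]
      · exact Set.disjoint_left.2 fun t ht ht2 => ht.2 ht2
    rw [hvol]
    calc ∑ j ∈ A, ‖∫ t in D ∩ U, fourier (-j) t * (s' t : ℂ)‖ ^ 2 +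
        ∑ j ∈ A, ‖∫ t in D ∩ (ball a r \ U), fourier (-j) t‖ ^ 2
        ≤ A.card * (2 * r) * volume.real U + A.card * (2 * r * volume.real (ball a r \ U)) :=
          add_le_add hb hvs
      _ = A.card * (2 * r) * (volume.real (ball a r \ U) + volume.real U) := by ring

lemma ap_signs {D : Set UnitAddCircle} (hD : MeasurableSet D) (A : Finset ℤ) {ε : ℝ} (hε : 0 < ε) :
    ∃ s : UnitAddCircle → ℝ, Measurable s ∧ (∀ t, s t = 1 ∨ s t = -1) ∧
      ∑ j ∈ A, ‖∫ t in D, fourier (-j) t * (s t : ℂ)‖ ^ 2 ≤ A.card * ε := by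
  obtain ⟨B, -, hBf, hB⟩ := (isCompact_univ (X := UnitAddCircle)).finite_cover_balls
    (e := ε / 2) (by linarith)
  obtain ⟨s, hs, hs1, hb⟩ := ap_ind hD A (r := ε / 2) (by linarith) hBf.toFinset
  refine ⟨s, hs, hs1, ?_⟩
  have h1 : (⋃ x ∈ hBf.toFinset, ball x (ε / 2)) = univ := by
    refine eq_univ_of_univ_subset ?_
    simpa using hB
  rw [h1, inter_univ] at hb
  refine hb.trans (le_of_eq ?_)
  have h2 : volume.real (univ : Set UnitAddCircle) = 1 := by
    rw [Measure.real, UnitAddCircle.measure_univ, ENNReal.toReal_one]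
  rw [h2]
  ring

theorem approx : S_approx := by
  classical
  intro D hD A η hη
  obtain ⟨ε, hε⟩ : ∃ ε : ℝ, ε = (η / 2) ^ 2 / ((A.card : ℝ) + 1) ^ 2 := ⟨_, rfl⟩
  have hA0 : (0 : ℝ) ≤ A.card := Nat.cast_nonneg _
  have hε0 : 0 < ε := by
    rw [hε]
    positivity
  obtain ⟨s, hs, hs1, hb⟩ := ap_signs hD A hε0
  obtain ⟨f, hf⟩ : ∃ f : UnitAddCircle → ℂ, f = D.indicator (fun t => (s t : ℂ)) := ⟨_, rfl⟩
  have hfm : Measurable f := by
    rw [hf]
    exact (Complex.measurable_ofReal.comp hs).indicator hD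
  have hfn : ∀ t, ‖f t‖ = D.indicator (fun _ => (1 : ℝ)) t := by
    intro t
    rw [hf]
    by_cases h : t ∈ D
    · rw [indicator_of_mem h, indicator_of_mem h, Complex.norm_real]
      rcases hs1 t with h | h <;> rw [h] <;> simp
    · rw [indicator_of_notMem h, indicator_of_notMem h, norm_zero]
  have hf1 : ∀ t, ‖f t‖ ≤ 1 := by
    intro t
    rw [hfn]
    by_cases h : t ∈ D
    · rw [indicator_of_mem h]
    · rw [indicator_of_notMem h]
      exact zero_le_one
  have hfL : MemLp f 2 (haarAddCircle : Measure UnitAddCircle) :=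
    MemLp.of_bound hfm.aestronglyMeasurable 1 (Eventually.of_forall hf1)
  obtain ⟨g, hg⟩ : ∃ g : Lp ℂ 2 (haarAddCircle : Measure UnitAddCircle), g = hfL.toLp f := ⟨_, rfl⟩
  have hgf : g =ᵐ[haarAddCircle] f := by
    rw [hg]
    exact hfL.coeFn_toLp
  obtain ⟨c, hc⟩ : ∃ c : ℤ → ℂ, c = fourierCoeff g := ⟨_, rfl⟩
  have hcj : ∀ j, c j = ∫ t in D, fourier (-j) t * (s t : ℂ) := by
    intro j
    rw [hc, fourierCoeff_congr_ae hgf]
    unfold fourierCoeff
    rw [ap_haar, ← integral_indicator hD]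
    congr 1
    funext t
    rw [hf, smul_eq_mul]
    by_cases h : t ∈ D
    · rw [indicator_of_mem h, indicator_of_mem h]
    · rw [indicator_of_notMem h, indicator_of_notMem h, mul_zero]
  -- Parseval
  have hpars := hasSum_sq_fourierCoeff g
  have hint : ∫ t : UnitAddCircle, ‖g t‖ ^ 2 ∂haarAddCircle = (volume D).toReal := by
    have h1 : ∫ t : UnitAddCircle, ‖g t‖ ^ 2 ∂haarAddCircle =
        ∫ t : UnitAddCircle, D.indicator (fun _ => (1 : ℝ)) t ∂haarAddCircle := by
      refine integral_congr_ae ?_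
      filter_upwards [hgf] with t ht
      rw [ht, hfn]
      by_cases h : t ∈ D
      · rw [indicator_of_mem h, one_pow]
      · rw [indicator_of_notMem h]
        norm_num
    rw [h1, ap_haar, integral_indicator hD, setIntegral_const, smul_eq_mul, mul_one]
    rfl
  rw [hint] at hpars
  -- convergence in measure
  have hL2 := hasSum_fourier_series_L2 g
  have hm0 := tendstoInMeasure_of_tendsto_Lp hL2
  rw [tendstoInMeasure_iff_norm] at hm0
  have hmeas := hm0 (η / 2) (by linarith)
  have hev := hmeas.eventually_le_const (show (0 : ℝ≥0∞) < ENNReal.ofReal η by simpa using hη)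
  rw [SummationFilter.unconditional_filter, Filter.eventually_atTop] at hev
  obtain ⟨B₁, hB₁⟩ := hev
  have hB := hB₁ (B₁ ∪ A) Finset.subset_union_left
  -- the small part
  have hsmall : ∑ j ∈ A, ‖c j‖ ≤ η / 2 := by
    have h1 : (∑ j ∈ A, ‖c j‖) ^ 2 ≤ (η / 2) ^ 2 := by
      refine (sq_sum_le_card_mul_sum_sq (s := A) (f := fun j => ‖c j‖)).trans ?_
      have h2 : ∑ j ∈ A, ‖c j‖ ^ 2 ≤ A.card * ε := by
        simp_rw [hcj]
        exact hb
      have h3 := mul_le_mul_of_nonneg_left h2 hA0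
      refine h3.trans ?_
      rw [hε]
      have h4 : (A.card : ℝ) * (A.card * ((η / 2) ^ 2 / ((A.card : ℝ) + 1) ^ 2)) =
          (η / 2) ^ 2 * ((A.card : ℝ) ^ 2 / ((A.card : ℝ) + 1) ^ 2) := by ring
      rw [h4]
      have h5 : (A.card : ℝ) ^ 2 / ((A.card : ℝ) + 1) ^ 2 ≤ 1 := by
        rw [div_le_one (by positivity)]
        exact pow_le_pow_left₀ hA0 (by linarith) 2
      have h6 : 0 ≤ (η / 2) ^ 2 := sq_nonneg _
      nlinarith
    exact abs_le_of_sq_le_sq' h1 (by linarith) |>.2
  refine ⟨s, (B₁ ∪ A) \ A, c, hs, hs1, Finset.sdiff_disjoint, ?_, ?_⟩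
  · rw [hc]
    exact sum_le_hasSum _ (fun i _ => sq_nonneg _) hpars
  · rw [← hf, ← ap_haar]
    have hae : ∀ᵐ t ∂(haarAddCircle : Measure UnitAddCircle),
        (∑ i ∈ B₁ ∪ A, fourierCoeff g i • fourierLp 2 i : Lp ℂ 2 haarAddCircle) t =
          ∑ i ∈ B₁ ∪ A, c i * fourier i t := by
      have e1 : (∑ i ∈ B₁ ∪ A, fourierCoeff g i • fourierLp 2 i : Lp ℂ 2 haarAddCircle) =
          ContinuousMap.toLp (E := ℂ) 2 (haarAddCircle : Measure UnitAddCircle) ℂ
            (∑ i ∈ B₁ ∪ A, c i • fourier i) := by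
        rw [map_sum]
        refine Finset.sum_congr rfl fun i _ => ?_
        rw [map_smul, hc]
      rw [e1]
      filter_upwards [ContinuousMap.coeFn_toLp (𝕜 := ℂ) (p := 2)
        (haarAddCircle : Measure UnitAddCircle) (∑ i ∈ B₁ ∪ A, c i • fourier i)] with t ht
      rw [ht, ContinuousMap.sum_apply]
      refine Finset.sum_congr rfl fun i _ => ?_
      rw [ContinuousMap.smul_apply, smul_eq_mul]
    refine le_trans (measure_mono_ae ?_) hB
    filter_upwards [hae, hgf] with t ht1 ht2 ht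
    have ht3 : η < ‖(∑ j ∈ (B₁ ∪ A) \ A, c j * fourier j t) - f t‖ := ht
    show η / 2 ≤ ‖_ - g t‖
    rw [ht1, ht2]
    have h1 : ∑ j ∈ (B₁ ∪ A) \ A, c j * fourier j t =
        (∑ i ∈ B₁ ∪ A, c i * fourier i t) - ∑ i ∈ A, c i * fourier i t :=
      eq_sub_of_add_eq (Finset.sum_sdiff Finset.subset_union_right)
    rw [h1] at ht3
    have h2 : ‖∑ i ∈ A, c i * fourier i t‖ ≤ η / 2 := by
      refine (norm_sum_le _ _).trans (le_trans (Finset.sum_le_sum fun i _ => ?_) hsmall)
      rw [norm_mul, fourier_apply, Circle.norm_coe, mul_one]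
    have h3 : ‖(∑ i ∈ B₁ ∪ A, c i * fourier i t) - (∑ i ∈ A, c i * fourier i t) - f t‖ ≤
        ‖(∑ i ∈ B₁ ∪ A, c i * fourier i t) - f t‖ + ‖∑ i ∈ A, c i * fourier i t‖ := by
      have e2 : (∑ i ∈ B₁ ∪ A, c i * fourier i t) - (∑ i ∈ A, c i * fourier i t) - f t =
          ((∑ i ∈ B₁ ∪ A, c i * fourier i t) - f t) - ∑ i ∈ A, c i * fourier i t := by ring
      rw [e2]
      exact norm_sub_le _ _
    linarith

end Pool.Agent.H311.BP
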