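import Pool.Agent.H311.BP.Main1

set_option autoImplicit false

open MeasureTheory Metric Set Filter Topology
open scoped ENNReal NNReal Real RealInnerProductSpace

namespace Pool.Agent.H311.BP

variable {n : ℕ}

theorem weighted_sq (c : ℝ≥0) (a b : ℝ≥0∞) :
    c * (a + b) ^ 2 ≤ (c + 1) * (c * a ^ 2 + b ^ 2) := by
  by_cases hb : b = ∞
  · subst hb
    have : (c + 1 : ℝ≥0∞) * (c * a ^ 2 + ∞ ^ 2) = ∞ := by
      rw [ENNReal.top_pow two_ne_zero, add_top, ENNReal.mul_top]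
      simp
    rw [this]
    exact le_top
  by_cases ha : a = ∞
  · subst ha
    by_cases hc : c = 0
    · subst hc
      simp
    · have : (c + 1 : ℝ≥0∞) * (c * ∞ ^ 2 + b ^ 2) = ∞ := by
        rw [ENNReal.top_pow two_ne_zero, ENNReal.mul_top (by simpa using hc), top_add,
          ENNReal.mul_top]
        simp
      rw [this]
      exact le_top
  lift a to ℝ≥0 using ha
  lift b to ℝ≥0 using hb
  norm_cast
  rw [← NNReal.coe_le_coe]
  push_cast
  have ha := a.2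
  have hb := b.2
  have hc := c.2
  nlinarith [mul_nonneg hc (sq_nonneg ((c : ℝ) * a - b)), sq_nonneg ((c : ℝ) * a - b)]

/-- the local `L²` estimate with a fixed constant -/
def Loc (n : ℕ) (ρ : ℝ) (K : ℝ≥0) : Prop :=
  ∀ (x₀ : E n) (A : Set (E n)) (G : E n → ℂ) (M : ℝ≥0∞),
    MeasurableSet A → Bornology.IsBounded A → MemLp G 2 volume →
    (∀ ζ, volume (A ∩ ball ζ 1) ≤ M) →
    ∫⁻ x in closedBall x₀ ρ, ‖I A G x‖ₑ ^ 2 ≤ K * M * ∫⁻ ξ in A, ‖G ξ‖ₑ ^ 2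

/-- Rademacher-Menshov for finite chains -/
theorem rm {ρ : ℝ} {K : ℝ≥0} (hloc : Loc n ρ K) (x₀ : E n) {G : E n → ℂ} (hG : MemLp G 2 volume)
    (M : ℝ≥0∞) (L : ℕ) :
    ∀ (A : ℕ → Set (E n)) (S : Set (E n)), Monotone A → (∀ i, MeasurableSet (A i)) →
      (∀ i, A i ⊆ S) → MeasurableSet S → Bornology.IsBounded S →
      (∀ ζ, volume (S ∩ ball ζ 1) ≤ M) →
      ∫⁻ x in closedBall x₀ ρ, (⨆ i : Fin (2 ^ L), ‖I (A i) G x‖ₑ) ^ 2 ≤
        ((L : ℝ≥0∞) + 1) ^ 2 * (K * M * ∫⁻ ξ in S, ‖G ξ‖ₑ ^ 2) := by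
  induction L with
  | zero =>
    intro A S hA hAm hAS hSm hSb hS
    have h1 : ∀ x, (⨆ i : Fin (2 ^ 0), ‖I (A i) G x‖ₑ) = ‖I (A 0) G x‖ₑ := by
      intro x
      refine le_antisymm (iSup_le fun i => ?_) (le_iSup_of_le ⟨0, by norm_num⟩ le_rfl)
      have : (i : ℕ) = 0 := by
        have := i.2
        omega
      rw [this]
    simp_rw [h1]
    have h2 := hloc x₀ (A 0) G M (hAm 0) (hSb.subset (hAS 0)) hG
      (fun ζ => (measure_mono (inter_subset_inter_left _ (hAS 0))).trans (hS ζ))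
    refine h2.trans ?_
    simp only [Nat.cast_zero, zero_add, one_pow, one_mul]
    gcongr
    exact hAS 0
  | succ L ih =>
    intro A S hA hAm hAS hSm hSb hS
    set s := A (2 ^ L) with hs
    have hsS : s ⊆ S := hAS _
    have hsm : MeasurableSet s := hAm _
    -- the first half
    have e1 := ih (fun i => A (min i (2 ^ L))) s (fun i j hij => hA (min_le_min_right _ hij))
      (fun i => hAm _) (fun i => hA (min_le_right _ _)) hsm (hSb.subset hsS)
      (fun ζ => (measure_mono (inter_subset_inter_left _ hsS)).trans (hS ζ))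
    -- the second half
    have e2 := ih (fun j => A (2 ^ L + j) \ s) (S \ s)
      (fun i j hij => sdiff_subset_sdiff_left (hA (by omega)))
      (fun i => (hAm _).diff hsm) (fun i => sdiff_subset_sdiff_left (hAS _)) (hSm.diff hsm)
      (hSb.subset sdiff_subset)
      (fun ζ => (measure_mono (inter_subset_inter_left _ sdiff_subset)).trans (hS ζ))
    have e0 := hloc x₀ s G M hsm (hSb.subset hsS) hG
      (fun ζ => (measure_mono (inter_subset_inter_left _ hsS)).trans (hS ζ))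
    set X1 : E n → ℝ≥0∞ := fun x => ⨆ i : Fin (2 ^ L), ‖I (A (min (i : ℕ) (2 ^ L))) G x‖ₑ with hX1
    set X2 : E n → ℝ≥0∞ := fun x => ⨆ i : Fin (2 ^ L), ‖I (A (2 ^ L + i) \ s) G x‖ₑ with hX2
    have hint : ∀ C : Set (E n), C ⊆ S → IntegrableOn G C volume := fun C hC =>
      integrableOn_of_memLp hG (hSb.subset hC)
    have hpt : ∀ x, ((L : ℝ≥0∞) + 1) * (⨆ i : Fin (2 ^ (L + 1)), ‖I (A i) G x‖ₑ) ^ 2 ≤
        ((L : ℝ≥0∞) + 2) * (((L : ℝ≥0∞) + 1) * ‖I s G x‖ₑ ^ 2 + (X1 x ^ 2 + X2 x ^ 2)) := by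
      intro x
      have h1 : (⨆ i : Fin (2 ^ (L + 1)), ‖I (A i) G x‖ₑ) ≤ ‖I s G x‖ₑ + max (X1 x) (X2 x) := by
        refine iSup_le fun i => ?_
        by_cases hi : (i : ℕ) < 2 ^ L
        · refine le_trans ?_ (le_add_self)
          refine le_trans ?_ (le_max_left _ _)
          have h2 : min (i : ℕ) (2 ^ L) = i := min_eq_left hi.le
          have h3 := le_iSup (fun i : Fin (2 ^ L) => ‖I (A (min (i : ℕ) (2 ^ L))) G x‖ₑ) ⟨i, hi⟩
          simp only [h2] at h3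
          exact h3
        · push Not at hi
          have hi2 : (i : ℕ) - 2 ^ L < 2 ^ L := by
            have h8 := i.2
            have h9 : 2 ^ (L + 1) = 2 * 2 ^ L := pow_succ' 2 L
            omega
          have h2 : 2 ^ L + ((i : ℕ) - 2 ^ L) = i := by omega
          have h4 : I (A i) G x = I s G x + I (A i \ s) G x := by
            rw [← I_union disjoint_sdiff_right ((hAm _).diff hsm) (hint _ hsS)
              (hint _ (sdiff_subset.trans (hAS _))), union_sdiff_cancel (hA hi)]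
          rw [h4]
          refine (enorm_add_le _ _).trans (add_le_add le_rfl ?_)
          refine le_trans ?_ (le_max_right _ _)
          have h3 := le_iSup (fun i : Fin (2 ^ L) => ‖I (A (2 ^ L + i) \ s) G x‖ₑ)
            ⟨(i : ℕ) - 2 ^ L, hi2⟩
          simp only [h2] at h3
          exact h3
      have h5 := weighted_sq ((L : ℝ≥0) + 1) (‖I s G x‖ₑ) (max (X1 x) (X2 x))
      push_cast at h5
      have h6 : (max (X1 x) (X2 x)) ^ 2 ≤ X1 x ^ 2 + X2 x ^ 2 := by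
        rcases le_total (X1 x) (X2 x) with h | h
        · rw [max_eq_right h]
          exact le_add_self
        · rw [max_eq_left h]
          exact le_self_add
      refine (mul_le_mul_right (pow_le_pow_left' h1 2) _).trans (h5.trans ?_)
      have h7 : (L : ℝ≥0∞) + 1 + 1 = L + 2 := by
        rw [add_assoc]
        norm_num
      rw [h7]
      gcongr
    have hmX : Measurable fun x => ‖I s G x‖ₑ ^ 2 :=
      ((continuous_I (hint _ hsS)).enorm.measurable).pow_const 2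
    have hmX1 : Measurable fun x => X1 x ^ 2 := by
      refine Measurable.pow_const ?_ 2
      refine Measurable.iSup fun i => ?_
      exact (continuous_I (hint _ (hAS _))).enorm.measurable
    have key : ((L : ℝ≥0∞) + 1) * ∫⁻ x in closedBall x₀ ρ,
        (⨆ i : Fin (2 ^ (L + 1)), ‖I (A i) G x‖ₑ) ^ 2 ≤
        ((L : ℝ≥0∞) + 1) * ((((L + 1 : ℕ) : ℝ≥0∞) + 1) ^ 2 *
          (K * M * ∫⁻ ξ in S, ‖G ξ‖ₑ ^ 2)) := by
      rw [← lintegral_const_mul' _ _ (by simp)]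
      refine (lintegral_mono hpt).trans ?_
      rw [lintegral_const_mul' _ _ (by simp), lintegral_add_left (hmX.const_mul _),
        lintegral_add_left hmX1, lintegral_const_mul' _ _ (by simp)]
      have hsplit : (∫⁻ ξ in s, ‖G ξ‖ₑ ^ 2) + (∫⁻ ξ in S \ s, ‖G ξ‖ₑ ^ 2) =
          ∫⁻ ξ in S, ‖G ξ‖ₑ ^ 2 := by
        rw [← lintegral_union (hSm.diff hsm) disjoint_sdiff_right, union_sdiff_cancel hsS]
      have hle : ∫⁻ ξ in s, ‖G ξ‖ₑ ^ 2 ≤ ∫⁻ ξ in S, ‖G ξ‖ₑ ^ 2 := lintegral_mono_set hsS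
      calc ((L : ℝ≥0∞) + 2) * (((L : ℝ≥0∞) + 1) * (∫⁻ x in closedBall x₀ ρ, ‖I s G x‖ₑ ^ 2) +
            ((∫⁻ x in closedBall x₀ ρ, X1 x ^ 2) + (∫⁻ x in closedBall x₀ ρ, X2 x ^ 2)))
          ≤ ((L : ℝ≥0∞) + 2) * (((L : ℝ≥0∞) + 1) * (K * M * ∫⁻ ξ in s, ‖G ξ‖ₑ ^ 2) +
            (((L : ℝ≥0∞) + 1) ^ 2 * (K * M * ∫⁻ ξ in s, ‖G ξ‖ₑ ^ 2) +
              ((L : ℝ≥0∞) + 1) ^ 2 * (K * M * ∫⁻ ξ in S \ s, ‖G ξ‖ₑ ^ 2))) := by
            gcongr
        _ = ((L : ℝ≥0∞) + 2) * (((L : ℝ≥0∞) + 1) * (K * M * ∫⁻ ξ in s, ‖G ξ‖ₑ ^ 2) +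
            ((L : ℝ≥0∞) + 1) ^ 2 * (K * M * ∫⁻ ξ in S, ‖G ξ‖ₑ ^ 2)) := by
            rw [← hsplit]
            ring
        _ ≤ ((L : ℝ≥0∞) + 2) * (((L : ℝ≥0∞) + 1) * (K * M * ∫⁻ ξ in S, ‖G ξ‖ₑ ^ 2) +
            ((L : ℝ≥0∞) + 1) ^ 2 * (K * M * ∫⁻ ξ in S, ‖G ξ‖ₑ ^ 2)) := by
            gcongr
        _ = ((L : ℝ≥0∞) + 1) * ((((L + 1 : ℕ) : ℝ≥0∞) + 1) ^ 2 *
          (K * M * ∫⁻ ξ in S, ‖G ξ‖ₑ ^ 2)) := by
            push_cast
            ring
    exact (ENNReal.mul_le_mul_iff_right (by simp) (by simp)).1 key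

end Pool.Agent.H311.BP
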