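import Pool.Agent.H311.BP.Chain

set_option autoImplicit false

open MeasureTheory Metric Set Filter Topology
open scoped ENNReal NNReal Real RealInnerProductSpace

namespace Pool.Agent.H311.BP

variable {n : ℕ}

theorem sq_lintegral_le' {G : E n → ℂ} (hG : MemLp G 2 volume) (B : Set (E n)) :
    (∫⁻ ξ in B, ‖G ξ‖ₑ) ^ 2 ≤ volume B * ∫⁻ ξ in B, ‖G ξ‖ₑ ^ 2 := by
  have h1 := eLpNorm_le_eLpNorm_mul_rpow_measure_univ (μ := volume.restrict B) (f := G)
    (p := 1) (q := 2) (by norm_num) (hG.restrict B).1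
  rw [Measure.restrict_apply_univ] at h1
  have h2 : eLpNorm G 1 (volume.restrict B) = ∫⁻ ξ in B, ‖G ξ‖ₑ := eLpNorm_one_eq_lintegral_enorm
  have h3 : eLpNorm G 2 (volume.restrict B) ^ 2 ≤ ∫⁻ ξ in B, ‖G ξ‖ₑ ^ 2 := by
    have h4 := eLpNorm_nnreal_pow_eq_lintegral (f := G) (μ := volume.restrict B) (p := 2)
      two_ne_zero
    have h5 : eLpNorm G 2 (volume.restrict B) ^ 2 = ∫⁻ ξ in B, ‖G ξ‖ₑ ^ 2 := by
      simpa using h4
    rw [h5]
  rw [← h2]
  refine (pow_le_pow_left' h1 2).trans ?_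
  rw [mul_pow, mul_comm]
  refine mul_le_mul' ?_ h3
  have h6 : (1 / (1 : ℝ≥0∞).toReal - 1 / (2 : ℝ≥0∞).toReal : ℝ) = 1 / 2 := by norm_num
  rw [h6, ← ENNReal.rpow_natCast, ← ENNReal.rpow_mul]
  norm_num

theorem energy_lt_top {G : E n → ℂ} (hG : MemLp G 2 volume) : ∫⁻ ξ, ‖G ξ‖ₑ ^ 2 < ∞ := by
  have h4 := eLpNorm_nnreal_pow_eq_lintegral (f := G) (μ := (volume : Measure (E n))) (p := 2)
    two_ne_zero
  have h5 : eLpNorm G 2 volume ^ 2 = ∫⁻ ξ, ‖G ξ‖ₑ ^ 2 := by simpa using h4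
  rw [← h5]
  exact ENNReal.pow_lt_top hG.2

/-- two members of the chain with nearly the same mass -/
theorem near {G : E n → ℂ} (hG : MemLp G 2 volume) {A B S : Set (E n)} (hA : MeasurableSet A)
    (hB : MeasurableSet B) (hAS : A ⊆ S) (hBS : B ⊆ S)
    (hSb : Bornology.IsBounded S) (hcomp : A ⊆ B ∨ B ⊆ A) (e : ℝ) (he : 0 ≤ e)
    (hmass : |(∫⁻ ξ in A, ‖G ξ‖ₑ ^ 2).toReal - (∫⁻ ξ in B, ‖G ξ‖ₑ ^ 2).toReal| ≤ e) (x : E n) :
    ‖I A G x‖ₑ ^ 2 ≤ 2 * ‖I B G x‖ₑ ^ 2 + 2 * (volume S * ENNReal.ofReal e) := by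
  have hfin : ∀ C : Set (E n), ∫⁻ ξ in C, ‖G ξ‖ₑ ^ 2 ≠ ∞ := fun C =>
    ((setLIntegral_le_lintegral _ _).trans_lt (energy_lt_top hG)).ne
  have hint : ∀ C : Set (E n), C ⊆ S → IntegrableOn G C volume := fun C hC =>
    integrableOn_of_memLp hG (hSb.subset hC)
  -- the estimate for the difference set
  have key : ∀ C D : Set (E n), MeasurableSet C → MeasurableSet D → C ⊆ D → D ⊆ S →
      |(∫⁻ ξ in D, ‖G ξ‖ₑ ^ 2).toReal - (∫⁻ ξ in C, ‖G ξ‖ₑ ^ 2).toReal| ≤ e →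
      ‖I (D \ C) G x‖ₑ ^ 2 ≤ volume S * ENNReal.ofReal e ∧
        I D G x = I C G x + I (D \ C) G x := by
    intro C D hC hD hCD hDS hm
    constructor
    · refine (pow_le_pow_left' (enorm_I_le (G := G) Subset.rfl x) 2).trans
        ((sq_lintegral_le' hG _).trans ?_)
      refine mul_le_mul' (measure_mono (sdiff_subset.trans hDS)) ?_
      have h1 : (∫⁻ ξ in C, ‖G ξ‖ₑ ^ 2) + (∫⁻ ξ in D \ C, ‖G ξ‖ₑ ^ 2) = ∫⁻ ξ in D, ‖G ξ‖ₑ ^ 2 := by
        rw [← lintegral_union (hD.diff hC) disjoint_sdiff_right, union_sdiff_cancel hCD]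
      rw [← ENNReal.ofReal_toReal (hfin (D \ C))]
      refine ENNReal.ofReal_le_ofReal ?_
      rw [← h1, ENNReal.toReal_add (hfin _) (hfin _)] at hm
      rw [add_sub_cancel_left] at hm
      exact (le_abs_self _).trans hm
    · rw [← I_union disjoint_sdiff_right (hD.diff hC) (hint _ (hCD.trans hDS))
        (hint _ (sdiff_subset.trans hDS)), union_sdiff_cancel hCD]
  rcases hcomp with h | h
  · obtain ⟨h1, h2⟩ := key A B hA hB h hBS (by rwa [abs_sub_comm])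
    have h3 : I A G x = I B G x - I (B \ A) G x := by
      rw [h2]
      ring
    rw [h3]
    refine (pow_le_pow_left' (enorm_sub_le) 2).trans ((add_sq_le' _ _).trans ?_)
    rw [mul_add]
    gcongr
  · obtain ⟨h1, h2⟩ := key B A hB hA h hAS hmass
    rw [h2]
    refine (pow_le_pow_left' (enorm_add_le _ _) 2).trans ((add_sq_le' _ _).trans ?_)
    rw [mul_add]
    gcongr

/-- the maximal function of an arbitrary chain of sets -/
theorem chain_gen {ρ : ℝ} {K : ℝ≥0} (hloc : Loc n ρ K) (x₀ : E n) {G : E n → ℂ}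
    (hG : MemLp G 2 volume) (M : ℝ≥0∞) (L : ℕ) (J : Set ℝ) (A : ℝ → Set (E n)) (S : Set (E n))
    (hA : ∀ s ∈ J, ∀ t ∈ J, s ≤ t → A s ⊆ A t) (hAm : ∀ t ∈ J, MeasurableSet (A t))
    (hAS : ∀ t ∈ J, A t ⊆ S) (hSm : MeasurableSet S) (hSb : Bornology.IsBounded S)
    (hS : ∀ ζ, volume (S ∩ ball ζ 1) ≤ M) :
    ∫⁻ x in closedBall x₀ ρ, (⨆ t ∈ J, ‖I (A t) G x‖ₑ) ^ 2 ≤
      (2 * (((L : ℝ≥0∞) + 2) ^ 2 * (K * M)) +
        2 * (volume (closedBall x₀ ρ) * (volume S * (2 ^ L)⁻¹))) * ∫⁻ ξ in S, ‖G ξ‖ₑ ^ 2 := by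
  classical
  have hfin : ∀ C : Set (E n), ∫⁻ ξ in C, ‖G ξ‖ₑ ^ 2 ≠ ∞ := fun C =>
    ((setLIntegral_le_lintegral _ _).trans_lt (energy_lt_top hG)).ne
  set μ : ℝ → ℝ := fun t => (∫⁻ ξ in A t, ‖G ξ‖ₑ ^ 2).toReal with hμ
  set mS : ℝ := (∫⁻ ξ in S, ‖G ξ‖ₑ ^ 2).toReal with hmS
  have hmS0 : 0 ≤ mS := ENNReal.toReal_nonneg
  have hμ0 : ∀ t, 0 ≤ μ t := fun t => ENNReal.toReal_nonneg
  have hμS : ∀ t ∈ J, μ t ≤ mS := fun t ht =>
    ENNReal.toReal_mono (hfin S) (lintegral_mono_set (hAS t ht))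
  have hμm : ∀ s ∈ J, ∀ t ∈ J, s ≤ t → μ s ≤ μ t := fun s hs t ht hst =>
    ENNReal.toReal_mono (hfin _) (lintegral_mono_set (hA s hs t ht hst))
  set idx : ℝ → ℕ := fun t => ⌊2 ^ L * μ t / mS⌋₊ with hidx
  have hidx_le : ∀ t ∈ J, idx t ≤ 2 ^ L := by
    intro t ht
    simp only [hidx]
    refine Nat.floor_le_of_le ?_
    push_cast
    refine div_le_of_le_mul₀ hmS0 (by positivity) ?_
    exact mul_le_mul_of_nonneg_left (hμS t ht) (by positivity)
  have hidx_mono : ∀ s ∈ J, ∀ t ∈ J, s ≤ t → idx s ≤ idx t := by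
    intro s hs t ht hst
    simp only [hidx]
    refine Nat.floor_mono ?_
    exact div_le_div_of_nonneg_right (mul_le_mul_of_nonneg_left (hμm s hs t ht hst)
      (by positivity)) hmS0
  have hnear : ∀ s ∈ J, ∀ t ∈ J, idx s = idx t → |μ s - μ t| ≤ mS / 2 ^ L := by
    intro s hs t ht hst
    rcases hmS0.eq_or_lt with h0 | h0
    · have h1 : μ s = 0 := le_antisymm (h0 ▸ hμS s hs) (hμ0 s)
      have h2 : μ t = 0 := le_antisymm (h0 ▸ hμS t ht) (hμ0 t)
      rw [h1, h2, ← h0]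
      simp
    · have e1 : ∀ r, (idx r : ℝ) ≤ 2 ^ L * μ r / mS := fun r =>
        Nat.floor_le (by have := hμ0 r; positivity)
      have e2 : ∀ r, 2 ^ L * μ r / mS < idx r + 1 := fun r => Nat.lt_floor_add_one _
      have hst' : (idx s : ℝ) = idx t := by exact_mod_cast hst
      have h2L : (0 : ℝ) < 2 ^ L := by positivity
      have e3 : ∀ r, 2 ^ L * μ r / mS = μ r / (mS / 2 ^ L) := fun r => by field_simp
      have hq : 0 < mS / 2 ^ L := by positivity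
      have e4 : |μ s / (mS / 2 ^ L) - μ t / (mS / 2 ^ L)| ≤ 1 := by
        rw [← e3, ← e3, abs_le]
        constructor <;> linarith [e1 s, e1 t, e2 s, e2 t]
      rw [← sub_div, abs_div, abs_of_pos hq, div_le_one hq] at e4
      exact e4
  -- the finite chain
  set P : ℕ → Set (E n) := fun v => if h : ∃ t ∈ J, idx t = v then A h.choose else ∅ with hP
  set B : ℕ → Set (E n) := fun v => {ξ | ∃ v' ≤ v, ξ ∈ P v'} with hB
  have hPsub : ∀ v, P v ⊆ S := by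
    intro v
    simp only [hP]
    split_ifs with h
    · exact hAS _ h.choose_spec.1
    · exact empty_subset _
  have hPm : ∀ v, MeasurableSet (P v) := by
    intro v
    simp only [hP]
    split_ifs with h
    · exact hAm _ h.choose_spec.1
    · exact MeasurableSet.empty
  have hBmono : Monotone B := by
    intro v w hvw ξ hξ
    obtain ⟨v', h1, h2⟩ := hξ
    exact ⟨v', h1.trans hvw, h2⟩
  have hBm : ∀ v, MeasurableSet (B v) := by
    intro v
    have : B v = ⋃ v' ∈ Iic v, P v' := by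
      ext ξ
      simp [hB]
    rw [this]
    exact MeasurableSet.biUnion (to_countable _) fun i _ => hPm i
  have hBS : ∀ v, B v ⊆ S := by
    rintro v ξ ⟨v', _, h⟩
    exact hPsub v' h
  have hrep : ∀ t ∈ J, ∃ r ∈ J, idx r = idx t ∧ B (idx t) = A r := by
    intro t ht
    have h : ∃ s ∈ J, idx s = idx t := ⟨t, ht, rfl⟩
    refine ⟨h.choose, h.choose_spec.1, h.choose_spec.2, ?_⟩
    have hPt : P (idx t) = A h.choose := by
      simp only [hP]
      exact dif_pos h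
    ext ξ
    constructor
    · rintro ⟨v', hv', hξ⟩
      by_cases h' : ∃ s ∈ J, idx s = v'
      · have h1 : P v' = A h'.choose := by
          simp only [hP]
          exact dif_pos h'
        rw [h1] at hξ
        rcases hv'.eq_or_lt with h2 | h2
        · subst h2
          exact hξ
        · refine hA _ h'.choose_spec.1 _ h.choose_spec.1 ?_ hξ
          by_contra h3
          push Not at h3
          have h4 := hidx_mono _ h.choose_spec.1 _ h'.choose_spec.1 h3.le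
          rw [h.choose_spec.2, h'.choose_spec.2] at h4
          omega
      · have h1 : P v' = ∅ := by
          simp only [hP]
          exact dif_neg h'
        rw [h1] at hξ
        exact absurd hξ (notMem_empty _)
    · intro hξ
      exact ⟨idx t, le_rfl, hPt ▸ hξ⟩
  have hpt : ∀ x, (⨆ t ∈ J, ‖I (A t) G x‖ₑ) ^ 2 ≤
      2 * (⨆ i : Fin (2 ^ (L + 1)), ‖I (B i) G x‖ₑ) ^ 2 +
        2 * (volume S * ENNReal.ofReal (mS / 2 ^ L)) := by
    intro x
    have h2 : (⨆ t ∈ J, ‖I (A t) G x‖ₑ) ^ 2 = ⨆ t : J, ‖I (A t) G x‖ₑ ^ 2 := by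
      rw [iSup_subtype']
      refine Monotone.map_iSup_of_continuousAt (f := fun z : ℝ≥0∞ => z ^ 2) ?_ ?_ ?_
      · exact (ENNReal.continuous_pow 2).continuousAt
      · exact fun a b hab => pow_le_pow_left' hab 2
      · simp
    rw [h2]
    refine iSup_le fun t => ?_
    obtain ⟨t, ht⟩ := t
    obtain ⟨r, hr, hrt, hBr⟩ := hrep t ht
    have hcomp : A t ⊆ A r ∨ A r ⊆ A t := by
      rcases le_total t r with h | h
      · exact Or.inl (hA t ht r hr h)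
      · exact Or.inr (hA r hr t ht h)
    refine (near hG (hAm t ht) (hAm r hr) (hAS t ht) (hAS r hr) hSb hcomp (mS / 2 ^ L)
      (by positivity) (hnear t ht r hr hrt.symm) x).trans ?_
    have hlt : idx t < 2 ^ (L + 1) := by
      have h8 := hidx_le t ht
      have h9 : 2 ^ (L + 1) = 2 * 2 ^ L := pow_succ' 2 L
      have h10 : 0 < 2 ^ L := by positivity
      omega
    gcongr
    rw [← hBr]
    exact le_iSup (fun i : Fin (2 ^ (L + 1)) => ‖I (B i) G x‖ₑ) ⟨idx t, hlt⟩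
  refine (lintegral_mono hpt).trans ?_
  rw [lintegral_add_right _ measurable_const, lintegral_const_mul' _ _ (by simp), lintegral_const,
    Measure.restrict_apply_univ]
  have hrm := rm hloc x₀ hG M (L + 1) B S hBmono hBm hBS hSm hSb hS
  have hofr : ENNReal.ofReal (mS / 2 ^ L) = (2 ^ L)⁻¹ * ∫⁻ ξ in S, ‖G ξ‖ₑ ^ 2 := by
    rw [div_eq_mul_inv, ENNReal.ofReal_mul hmS0, ENNReal.ofReal_toReal (hfin S), mul_comm]
    congr 1
    rw [ENNReal.ofReal_inv_of_pos (by positivity), ENNReal.ofReal_pow (by norm_num)]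
    norm_num
  rw [hofr]
  have hL2 : ((L + 1 : ℕ) : ℝ≥0∞) + 1 = L + 2 := by
    push_cast
    rw [add_assoc]
    norm_num
  rw [hL2] at hrm
  calc 2 * (∫⁻ x in closedBall x₀ ρ, (⨆ i : Fin (2 ^ (L + 1)), ‖I (B i) G x‖ₑ) ^ 2) +
        2 * (volume S * ((2 ^ L)⁻¹ * ∫⁻ ξ in S, ‖G ξ‖ₑ ^ 2)) * volume (closedBall x₀ ρ)
      ≤ 2 * (((L : ℝ≥0∞) + 2) ^ 2 * (K * M * ∫⁻ ξ in S, ‖G ξ‖ₑ ^ 2)) +
        2 * (volume S * ((2 ^ L)⁻¹ * ∫⁻ ξ in S, ‖G ξ‖ₑ ^ 2)) * volume (closedBall x₀ ρ) := by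
        gcongr
    _ = _ := by ring

end Pool.Agent.H311.BP
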