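import Pool.Agent.H311.BP.Defs

set_option autoImplicit false

open MeasureTheory Metric Set Filter Topology
open scoped ENNReal NNReal Real RealInnerProductSpace

namespace Pool.Agent.H311.BP

variable {n : ℕ}

theorem add_sq_le' (a b : ℝ≥0∞) : (a + b) ^ 2 ≤ 2 * (a ^ 2 + b ^ 2) := by
  have h := ENNReal.rpow_add_le_mul_rpow_add_rpow a b (p := 2) (by norm_num)
  have h2 : (2 : ℝ≥0∞) ^ ((2 : ℝ) - 1) = 2 := by norm_num
  rw [h2] at h
  have h3 : ∀ z : ℝ≥0∞, z ^ (2 : ℝ) = z ^ 2 := by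
    intro z
    exact_mod_cast ENNReal.rpow_natCast z 2
  simpa [h3] using h

theorem norm_char (x ξ : E n) :
    ‖Complex.exp (2 * Real.pi * Complex.I * ((⟪x, ξ⟫ : ℝ) : ℂ))‖ = 1 := by
  have : (2 * Real.pi * Complex.I * ((⟪x, ξ⟫ : ℝ) : ℂ)) =
      ((2 * Real.pi * ⟪x, ξ⟫ : ℝ) : ℂ) * Complex.I := by push_cast; ring
  rw [this, Complex.norm_exp_ofReal_mul_I]

theorem integrableOn_of_memLp {G : E n → ℂ} (hG : MemLp G 2 volume) {A : Set (E n)}
    (hA : Bornology.IsBounded A) : IntegrableOn G A volume := by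
  obtain ⟨r, hr⟩ := hA.subset_closedBall 0
  have h1 : IsFiniteMeasure (volume.restrict (closedBall (0 : E n) r)) :=
    ⟨by rw [Measure.restrict_apply_univ]; exact measure_closedBall_lt_top⟩
  have h2 : IntegrableOn G (closedBall 0 r) volume :=
    (hG.restrict _).integrable (by norm_num)
  exact h2.mono_set hr

theorem continuous_char (x : E n) :
    Continuous fun ξ : E n => Complex.exp (2 * Real.pi * Complex.I * ((⟪x, ξ⟫ : ℝ) : ℂ)) := by
  fun_prop

theorem integrableOn_char {G : E n → ℂ} {A : Set (E n)} (hG : IntegrableOn G A volume) (x : E n) :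
    IntegrableOn (fun ξ => Complex.exp (2 * Real.pi * Complex.I * ((⟪x, ξ⟫ : ℝ) : ℂ)) * G ξ) A
      volume := by
  refine Integrable.bdd_mul (c := 1) hG (continuous_char x).aestronglyMeasurable ?_
  exact Eventually.of_forall fun ξ => (norm_char x ξ).le

theorem continuous_I {G : E n → ℂ} {A : Set (E n)} (hG : IntegrableOn G A volume) :
    Continuous (I A G) := by
  unfold I
  refine continuous_of_dominated (bound := fun ξ => ‖G ξ‖) ?_ ?_ hG.norm ?_
  · intro x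
    exact (integrableOn_char hG x).aestronglyMeasurable
  · intro x
    refine Eventually.of_forall fun ξ => ?_
    rw [norm_mul, norm_char, one_mul]
  · refine Eventually.of_forall fun ξ => ?_
    fun_prop

theorem norm_I_le {G : E n → ℂ} {A B : Set (E n)} (hAB : A ⊆ B) (hG : IntegrableOn G B volume)
    (x : E n) : ‖I A G x‖ ≤ ∫ ξ in B, ‖G ξ‖ := by
  unfold I
  refine (norm_integral_le_integral_norm _).trans ?_
  have h1 : ∀ ξ, ‖Complex.exp (2 * Real.pi * Complex.I * ((⟪x, ξ⟫ : ℝ) : ℂ)) * G ξ‖ = ‖G ξ‖ := by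
    intro ξ
    rw [norm_mul, norm_char, one_mul]
  simp_rw [h1]
  exact setIntegral_mono_set hG.norm (Eventually.of_forall fun ξ => norm_nonneg _)
    hAB.eventuallyLE

theorem I_union {G : E n → ℂ} {A B : Set (E n)} (hd : Disjoint A B) (hB : MeasurableSet B)
    (hGA : IntegrableOn G A volume) (hGB : IntegrableOn G B volume) (x : E n) :
    I (A ∪ B) G x = I A G x + I B G x := by
  unfold I
  exact setIntegral_union hd hB (integrableOn_char hGA x) (integrableOn_char hGB x)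

/-- the supremum over a window of radii -/
noncomputable def win (P : E n → ℝ) (A : Set (E n)) (G : E n → ℂ) (k : ℝ) (x : E n) : ℝ≥0∞ :=
  ⨆ R ∈ Icc k (k + 1), ‖I (A ∩ {ξ | P ξ ≤ R}) G x‖ₑ

theorem measurable_win {P : E n → ℝ} {A : Set (E n)} {G : E n → ℂ} {k : ℝ}
    (hG : IntegrableOn G A volume) : Measurable (win P A G k) := by
  unfold win
  refine LowerSemicontinuous.measurable ?_
  refine lowerSemicontinuous_iSup fun R => lowerSemicontinuous_iSup fun _ => ?_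
  refine Continuous.lowerSemicontinuous ?_
  exact (continuous_I (hG.mono_set inter_subset_left)).enorm

/-- the shell for the window `[k, k+1]` -/
def shell (n : ℕ) (c k : ℕ) : Set (E n) := {ξ | (k : ℝ) - c ≤ ‖ξ‖ ∧ ‖ξ‖ ≤ k + 1 + c}

theorem measurableSet_shell (c k : ℕ) : MeasurableSet (shell n c k) := by
  unfold shell
  exact (measurableSet_le measurable_const measurable_norm).inter
    (measurableSet_le measurable_norm measurable_const)

theorem bounded_shell (c k : ℕ) : Bornology.IsBounded (shell n c k) := by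
  refine (isBounded_closedBall (x := (0 : E n)) (r := (k : ℝ) + 1 + c)).subset ?_
  intro ξ hξ
  simpa using hξ.2

theorem tsum_shell_le (c : ℕ) (ξ : E n) :
    ∑' k : ℕ, (shell n c k).indicator (fun _ => (1 : ℝ≥0∞)) ξ ≤ (2 * c + 2 : ℕ) := by
  classical
  set F : Finset ℕ := Finset.Icc ⌈‖ξ‖ - 1 - c⌉₊ ⌊‖ξ‖ + c⌋₊ with hF
  have hsub : ∀ k ∉ F, (shell n c k).indicator (fun _ => (1 : ℝ≥0∞)) ξ = 0 := by
    intro k hk
    refine indicator_of_notMem (fun h => hk ?_) _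
    rw [hF, Finset.mem_Icc]
    obtain ⟨h1, h2⟩ := h
    constructor
    · exact Nat.ceil_le.2 (by linarith)
    · exact Nat.le_floor (by linarith)
  rw [tsum_eq_sum hsub]
  have h1 : ∑ k ∈ F, (shell n c k).indicator (fun _ => (1 : ℝ≥0∞)) ξ ≤ ∑ k ∈ F, 1 := by
    refine Finset.sum_le_sum fun k _ => ?_
    exact indicator_le_self _ _ _
  refine h1.trans ?_
  rw [Finset.sum_const, nsmul_eq_mul, mul_one]
  have h2 : F.card ≤ 2 * c + 2 := by
    rw [hF, Nat.card_Icc]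
    have h3 : ⌊‖ξ‖ + c⌋₊ ≤ ⌊‖ξ‖⌋₊ + c := by
      rw [Nat.floor_add_natCast (norm_nonneg _)]
    have h4 : ⌊‖ξ‖⌋₊ ≤ ⌈‖ξ‖ - 1 - c⌉₊ + 1 + c := by
      have h5 : ‖ξ‖ - 1 - c ≤ ⌈‖ξ‖ - 1 - c⌉₊ := Nat.le_ceil _
      have h6 : (⌊‖ξ‖⌋₊ : ℝ) ≤ ‖ξ‖ := Nat.floor_le (norm_nonneg _)
      have h7 : (⌊‖ξ‖⌋₊ : ℝ) ≤ ((⌈‖ξ‖ - 1 - c⌉₊ + 1 + c : ℕ) : ℝ) := by
        push_cast
        linarith
      exact_mod_cast h7
    omega
  exact_mod_cast h2

/-- the two families in one window -/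
noncomputable def V (q : E n → ℝ) (c : ℕ) (G : E n → ℂ) (k : ℕ) (x : E n) : ℝ≥0∞ :=
  win (fun ξ => ‖ξ‖ + q ξ) (shell n c k) G k x ^ 2 + win (fun ξ => ‖ξ‖) (shell n c k) G k x ^ 2

theorem measurable_V {q : E n → ℝ} {c : ℕ} {G : E n → ℂ} (hG : MemLp G 2 volume) (k : ℕ) :
    Measurable (V q c G k) := by
  have h := integrableOn_of_memLp hG (bounded_shell c k)
  exact ((measurable_win h).pow_const 2).add ((measurable_win h).pow_const 2)

/-- the difference of the two families for radii in a window -/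
theorem diff_eq {q : E n → ℝ} {c : ℕ} (hq : Continuous q) (hc : ∀ ξ, |q ξ| ≤ c) {G : E n → ℂ}
    (hG : MemLp G 2 volume) {k : ℕ} {R : ℝ} (hR : R ∈ Icc (k : ℝ) (k + 1)) (x : E n) :
    I {ξ | ‖ξ‖ + q ξ ≤ R} G x - I (closedBall 0 R) G x =
      I (shell n c k ∩ {ξ | ‖ξ‖ + q ξ ≤ R}) G x - I (shell n c k ∩ {ξ | ‖ξ‖ ≤ R}) G x := by
  have key : ∀ g : E n → ℝ, Continuous g → (∀ ξ, |g ξ| ≤ c) →
      I {ξ | ‖ξ‖ + g ξ ≤ R} G x = I {ξ | ‖ξ‖ < (k : ℝ) - c} G x +
        I (shell n c k ∩ {ξ | ‖ξ‖ + g ξ ≤ R}) G x := by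
    intro g hg hgc
    rw [← I_union]
    · congr 1
      ext ξ
      have h1 := abs_le.1 (hgc ξ)
      simp only [mem_setOf_eq, mem_union, mem_inter_iff, shell]
      constructor
      · intro h
        by_cases h2 : ‖ξ‖ < (k : ℝ) - c
        · exact Or.inl h2
        · push Not at h2
          exact Or.inr ⟨⟨h2, by linarith [hR.2]⟩, h⟩
      · rintro (h | h)
        · have := hR.1
          linarith
        · exact h.2
    · rw [Set.disjoint_left]
      rintro ξ h1 ⟨⟨h2, _⟩, _⟩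
      exact absurd h2 (not_le.2 h1)
    · exact (measurableSet_shell c k).inter
        (measurableSet_le (by fun_prop) measurable_const)
    · refine integrableOn_of_memLp hG ?_
      refine (isBounded_closedBall (x := (0 : E n)) (r := (k : ℝ))).subset ?_
      intro ξ hξ
      have h1 : ‖ξ‖ < (k : ℝ) - c := hξ
      have h2 : (0 : ℝ) ≤ c := Nat.cast_nonneg c
      simp only [mem_closedBall, dist_zero_right]
      linarith
    · exact integrableOn_of_memLp hG ((bounded_shell c k).subset inter_subset_left)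
  have h1 := key q hq hc
  have h2 := key (fun _ => 0) continuous_const (fun _ => by simp)
  simp only [add_zero] at h2
  have h3 : closedBall (0 : E n) R = {ξ | ‖ξ‖ ≤ R} := by
    ext ξ
    simp
  rw [h3, h1, h2]
  ring

theorem diff_le_V {q : E n → ℝ} {c : ℕ} (hq : Continuous q) (hc : ∀ ξ, |q ξ| ≤ c) {G : E n → ℂ}
    (hG : MemLp G 2 volume) {k : ℕ} {R : ℝ} (hR : R ∈ Icc (k : ℝ) (k + 1)) (x : E n) :
    ‖I {ξ | ‖ξ‖ + q ξ ≤ R} G x - I (closedBall 0 R) G x‖ₑ ^ 2 ≤ 2 * V q c G k x := by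
  rw [diff_eq hq hc hG hR x]
  have h1 : ‖I (shell n c k ∩ {ξ | ‖ξ‖ + q ξ ≤ R}) G x‖ₑ ≤
      win (fun ξ => ‖ξ‖ + q ξ) (shell n c k) G k x := by
    unfold win
    exact le_iSup₂_of_le R hR le_rfl
  have h2 : ‖I (shell n c k ∩ {ξ | ‖ξ‖ ≤ R}) G x‖ₑ ≤
      win (fun ξ => ‖ξ‖) (shell n c k) G k x := by
    unfold win
    exact le_iSup₂_of_le R hR le_rfl
  have h3 := (enorm_sub_le (a := I (shell n c k ∩ {ξ | ‖ξ‖ + q ξ ≤ R}) G x)
    (b := I (shell n c k ∩ {ξ | ‖ξ‖ ≤ R}) G x)).trans (add_le_add h1 h2)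
  exact (pow_le_pow_left' h3 2).trans (add_sq_le' _ _)

end Pool.Agent.H311.BP
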