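import Mathlib

/-!
# Bounded perturbations of balls: definitions and interfaces
-/

set_option autoImplicit false

open MeasureTheory Metric Set Filter Topology
open scoped ENNReal NNReal Real RealInnerProductSpace

namespace Pool.Agent.H311.BP

/-- Euclidean space -/
abbrev E (n : ℕ) := EuclideanSpace ℝ (Fin n)

/-- `∫_A G(ξ) e^{2πi x·ξ} dξ` -/
noncomputable def I {n : ℕ} (A : Set (E n)) (G : E n → ℂ) (x : E n) : ℂ :=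
  ∫ ξ in A, Complex.exp (2 * Real.pi * Complex.I * ((⟪x, ξ⟫ : ℝ) : ℂ)) * G ξ

/-- (A1) STRIPS ARE THIN.  Let `p ξ = ‖ξ‖ + q ξ` with `q` `lam`-Lipschitz, `lam < 1`. Far from the
origin the part of the strip `{a < p ≤ a + h}` in a ball of radius one has measure at most `K h`.

Paper proof. `c = (1 - lam)/2`, `R0 = 2 + 1/(1-lam)`, `u = ζ/‖ζ‖`. If `η ∈ ball ζ 1`, then
`⟪η, ζ⟫ = (‖η‖²+‖ζ‖²-‖η-ζ‖²)/2 ≥ ‖η‖‖ζ‖ - 1/2`, so `⟪η,u⟫/‖η‖ ≥ 1 - 1/(2‖η‖‖ζ‖) ≥ (1+lam)/2`. Hence for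
`η ∈ ball ζ 1` and `t ≥ 0`: `‖η + t u‖ ≥ ⟪η + t u, η/‖η‖⟫ ≥ ‖η‖ + t (1+lam)/2` and so
`p (η + t u) ≥ p η + c t`.
Let `A` be the set in question and `t₀ = h / c`. The translates `A + m t₀ u`, `m = 0, …, M := ⌊1/t₀⌋₊`,
are pairwise disjoint (if `η' = η + (m - m') t₀ u` with `m > m'` and `η, η' ∈ A`, then
`p η' ≥ p η + c t₀ > a + h`) and contained in `ball ζ 2`. So `(M+1) |A| ≤ |ball ζ 2| = |ball 0 2|` and
`M + 1 ≥ 1/t₀`, hence `|A| ≤ t₀ |ball 0 2|`, `K = |ball 0 2| / c`. -/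
def S_strip : Prop :=
  ∀ (n : ℕ) (lam : ℝ), 0 ≤ lam → lam < 1 → ∃ R0 K : ℝ, 0 < R0 ∧ 0 < K ∧
    ∀ q : E n → ℝ, (∀ ξ η, |q ξ - q η| ≤ lam * ‖ξ - η‖) →
    ∀ ζ : E n, R0 ≤ ‖ζ‖ → ∀ a h : ℝ, 0 < h → h ≤ 1 →
      volume ({ξ | a < ‖ξ‖ + q ξ ∧ ‖ξ‖ + q ξ ≤ a + h} ∩ ball ζ 1) ≤ ENNReal.ofReal (K * h)

/-- (A2) LOCAL `L²` BOUND.  If `A` is bounded and meets every unit ball in measure at most `M`, then
`∫_{B(x₀,ρ)} |∫_A G e|² ≤ K M ∫_A |G|²`, `K = K(n, ρ)`.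

Paper proof. `g = G 1_A` is in `L¹ ∩ L²`. With the weight `e^{-π‖x-x₀‖²} ≥ e^{-πρ²}` on the ball,
`∫ |∫ g e^{2πi x·ξ}|² e^{-π‖x-x₀‖²} dx = ∫∫ g(ξ) conj g(η) e^{2πi x₀·(ξ-η)} e^{-π‖ξ-η‖²} dξ dη`
(Fubini; Fourier transform of the Gaussian, `fourierIntegral_gaussian_pi'` /
`fourier_gaussian_innerProductSpace'`), which is at most (Schur, `|ab| ≤ (a²+b²)/2`)
`∫ |g(ξ)|² (∫_A e^{-π‖ξ-η‖²} dη) dξ`. Finally `e^{-π‖z‖²} ≤ (e^{π}/|B₁|) ∫ 1_{‖z-y‖<1} e^{-π‖y‖²/2} dy`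
(on `‖z-y‖<1` one has `‖y‖²/2 ≤ (‖z‖+1)²/2 ≤ ‖z‖²+1`), so by Tonelli
`∫_A e^{-π‖ξ-η‖²} dη ≤ (e^{π}/|B₁|) ∫ e^{-π‖y‖²/2} |A ∩ ball (ξ-y) 1| dy ≤ C(n) M`. -/
def S_local : Prop :=
  ∀ (n : ℕ) (ρ : ℝ), ∃ K : ℝ≥0, ∀ (x₀ : E n) (A : Set (E n)) (G : E n → ℂ) (M : ℝ≥0∞),
    MeasurableSet A → Bornology.IsBounded A → MemLp G 2 volume →
    (∀ ζ, volume (A ∩ ball ζ 1) ≤ M) →
    ∫⁻ x in closedBall x₀ ρ, ‖I A G x‖ₑ ^ 2 ≤ K * M * ∫⁻ ξ in A, ‖G ξ‖ₑ ^ 2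

/-- (A3) CHAINING IN A UNIT WINDOW (from A2).

Paper proof. Fix `x`; `φ(R) = I (A ∩ {P ≤ R}) G x`. It is right-continuous (dominated convergence:
`G 1_A` is integrable, `{P ≤ R'} ↓ {P ≤ R}` as `R' ↓ R`), so the supremum over `R ∈ [k, k+1]` is the
supremum over the dyadic points `R = k + i 2^{-j}`, `0 ≤ i ≤ 2^j`. For such `R`, by binary expansion,
`|φ(R)| ≤ |φ(k)| + ∑_{j ≥ 0} max_{i < 2^j} |D j i|`, `D j i = I (A ∩ {k + i 2^{-j} < P ≤ k + (i+1) 2^{-j}}) G x`.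
By the Cauchy-Schwarz inequality `|φ(R)|² ≤ 2|φ(k)|² + 2 (∑ 2^{-j/2}) ∑_j 2^{j/2} ∑_{i<2^j} |D j i|²`.
Integrate over the ball: by (A2) `∫ |D j i|² ≤ K K1 2^{-j} ∫_{A ∩ strip j i} |G|²` and the strips for fixed
`j` are disjoint, so the sum is at most `∑_j 2^{-j/2} K K1 ∫_A |G|²`. The first term is bounded with (A2)
and `M = |ball 0 1|`. -/
def S_window : Prop :=
  ∀ (n : ℕ) (ρ K1 : ℝ), ∃ K2 : ℝ≥0, ∀ (x₀ : E n) (P : E n → ℝ) (A : Set (E n)) (G : E n → ℂ) (k : ℝ),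
    Measurable P → MeasurableSet A → Bornology.IsBounded A → MemLp G 2 volume →
    (∀ (ζ : E n) (a h : ℝ), 0 < h → h ≤ 1 →
      volume ({ξ | a < P ξ ∧ P ξ ≤ a + h} ∩ A ∩ ball ζ 1) ≤ ENNReal.ofReal (K1 * h)) →
    ∫⁻ x in closedBall x₀ ρ, (⨆ R ∈ Icc k (k + 1), ‖I (A ∩ {ξ | P ξ ≤ R}) G x‖ₑ) ^ 2 ≤
      K2 * ∫⁻ ξ in A, ‖G ξ‖ₑ ^ 2

/-- (B1) APPROXIMATION.  For every measurable subset `D` of the circle, every finite set `A` of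
frequencies and `η > 0` there is a function `s` with values `±1` such that `1_D s` is, up to `η`, a
trigonometric polynomial with frequencies in a finite set `F` disjoint from `A`.

Paper proof. `N` large. The circle is a finite disjoint union of measurable sets `J_i` of measure at
most `ε` (finite cover by closed balls, `AddCircle.volume_closedBall`, then `disjointed`). For each
choice of signs `ε_i` let `s = ∑ ε_i 1_{J_i}`. The vector `(fourierCoeff (1_D s) j)_{j ∈ A}` is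
`∑ ε_i v_i` with `‖v_i‖² ≤ |A| μ(J_i)² ≤ |A| ε μ(J_i)`; choosing the signs one by one (sign such that
the real inner product with the sum so far is `≤ 0`) one gets `‖∑ ε_i v_i‖² ≤ ∑ ‖v_i‖² ≤ |A| ε`. Then
`F = B \ A` with a finite set `B ⊇ A` such that `∑_{j ∉ B} |fourierCoeff (1_D s) j|²` is small
(`hasSum_fourier_series_L2`, `tsum_sq_fourierCoeff`), `c = fourierCoeff (1_D s)`. By Parseval
`∑_{j∈F} |c j|² ≤ ∫ |1_D s|² = μ(D)`, and `∫ |∑_{j∈F} c j e_j - 1_D s|² = ∑_{j ∉ F} |c j|² ≤ η³`; use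
Chebyshev. -/
def S_approx : Prop :=
  ∀ (D : Set UnitAddCircle), MeasurableSet D → ∀ (A : Finset ℤ) (η : ℝ), 0 < η →
    ∃ (s : UnitAddCircle → ℝ) (F : Finset ℤ) (c : ℤ → ℂ), Measurable s ∧
      (∀ t, s t = 1 ∨ s t = -1) ∧ Disjoint F A ∧
      ∑ j ∈ F, ‖c j‖ ^ 2 ≤ (volume D).toReal ∧
      volume {t | η < ‖(∑ j ∈ F, c j * fourier j t) - D.indicator (fun t => (s t : ℂ)) t‖} ≤
        ENNReal.ofReal η

/-- (B2) the tree (from B1) -/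
def S_tree : Prop :=
  ∀ (N : ℕ) (D : Set UnitAddCircle), MeasurableSet D → ∀ (A : Finset ℤ) (δ : ℝ), 0 < δ →
    ∃ (F : Finset ℤ) (c : ℤ → ℂ) (τ : ℤ → ℕ) (M : ℕ) (Bad : Set UnitAddCircle),
      Disjoint F A ∧ (∀ j ∈ F, τ j < M) ∧
      ∑ j ∈ F, ‖c j‖ ^ 2 ≤ N * (volume D).toReal ∧
      MeasurableSet Bad ∧ volume Bad ≤ ENNReal.ofReal δ ∧
      (∀ t, t ∉ D → t ∉ Bad → ∀ m : ℕ,
        ‖∑ j ∈ F.filter (fun j => τ j < m), c j * fourier j t‖ ≤ δ) ∧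
      (∀ t, t ∈ D → t ∉ Bad → ∃ m ≤ M, ∃ a b : ℕ, a + b = N ∧
        ‖(∑ j ∈ F.filter (fun j => τ j < m), c j * fourier j t) + (a : ℂ)‖ ≤ δ ∧
        ‖(∑ j ∈ F, c j * fourier j t) - ((b : ℂ) - (a : ℂ))‖ ≤ δ)

/-- (B3) rearranged trigonometric polynomials with large partial sums almost everywhere -/
def S_rearr : Prop :=
  ∀ (K ε : ℝ), 0 < ε →
    ∃ (F : Finset ℤ) (c : ℤ → ℂ) (τ : ℤ → ℕ) (M : ℕ) (Bad : Set UnitAddCircle),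
      (∀ j ∈ F, τ j < M) ∧ ∑ j ∈ F, ‖c j‖ ^ 2 ≤ 1 ∧
      MeasurableSet Bad ∧ volume Bad ≤ ENNReal.ofReal ε ∧
      ∀ t, t ∉ Bad → ∃ m ≤ M, K ≤ ‖∑ j ∈ F.filter (fun j => τ j < m), c j * fourier j t‖

end Pool.Agent.H311.BP
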