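import Pool.Agent.H311.BP.Coarse

set_option autoImplicit false

open MeasureTheory Metric Set Filter Topology
open scoped ENNReal NNReal Real RealInnerProductSpace

namespace Pool.Agent.H311.BP

variable {n : ℕ}

/-- the transform of the indicator of a ball at the origin -/
noncomputable def Phi (r : ℝ) (x : E n) : ℂ :=
  ∫ η in closedBall (0 : E n) r, Complex.exp (2 * Real.pi * Complex.I * ((⟪x, η⟫ : ℝ) : ℂ))

theorem integrable_char_ball (c x : E n) (r : ℝ) :
    IntegrableOn (fun η : E n => Complex.exp (2 * Real.pi * Complex.I * ((⟪x, η⟫ : ℝ) : ℂ)))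
      (closedBall c r) volume :=
  (continuous_char x).continuousOn.integrableOn_compact (isCompact_closedBall _ _)

theorem Phi_lower {r : ℝ} {x : E n} (hx : ‖x‖ * r ≤ 1 / 6) :
    (volume (closedBall (0 : E n) r)).toReal / 2 ≤ ‖Phi r x‖ := by
  have h1 : (Phi r x).re = ∫ η in closedBall (0 : E n) r,
      (Complex.exp (2 * Real.pi * Complex.I * ((⟪x, η⟫ : ℝ) : ℂ))).re := by
    have := Complex.reCLM.integral_comp_comm (integrable_char_ball 0 x r)
    simpa [Phi] using this.symm
  have h2 : ∫ _ in closedBall (0 : E n) r, (1 / 2 : ℝ) ≤ (Phi r x).re := by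
    rw [h1]
    refine setIntegral_mono_on ?_ ?_ measurableSet_closedBall ?_
    · exact (integrableOn_const measure_closedBall_lt_top.ne)
    · exact (integrable_char_ball 0 x r).re
    · intro η hη
      have h3 : (2 * Real.pi * Complex.I * ((⟪x, η⟫ : ℝ) : ℂ)) =
          ((2 * Real.pi * ⟪x, η⟫ : ℝ) : ℂ) * Complex.I := by push_cast; ring
      rw [h3, Complex.exp_ofReal_mul_I_re]
      have h4 : |(⟪x, η⟫ : ℝ)| ≤ 1 / 6 := by
        refine (abs_real_inner_le_norm x η).trans ?_
        refine le_trans ?_ hx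
        refine mul_le_mul_of_nonneg_left ?_ (norm_nonneg _)
        simpa using hη
      rw [← Real.cos_abs, ← Real.cos_pi_div_three]
      refine Real.cos_le_cos_of_nonneg_of_le_pi (abs_nonneg _) ?_ ?_
      · have := Real.pi_pos
        linarith
      · rw [abs_mul, abs_of_pos (by positivity : 0 < 2 * Real.pi)]
        have := Real.pi_pos
        nlinarith
  have h3 : ∫ _ in closedBall (0 : E n) r, (1 / 2 : ℝ) =
      (volume (closedBall (0 : E n) r)).toReal / 2 := by
    rw [setIntegral_const]
    simp [Measure.real]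
    ring
  rw [h3] at h2
  exact h2.trans (Complex.re_le_norm _)

theorem int_ball (c x : E n) (r : ℝ) :
    ∫ ξ in closedBall c r, Complex.exp (2 * Real.pi * Complex.I * ((⟪x, ξ⟫ : ℝ) : ℂ)) =
      Complex.exp (2 * Real.pi * Complex.I * ((⟪x, c⟫ : ℝ) : ℂ)) * Phi r x := by
  have h1 := (measurePreserving_add_right (volume : Measure (E n)) c).setIntegral_preimage_emb
    (measurableEmbedding_addRight c)
    (fun ξ => Complex.exp (2 * Real.pi * Complex.I * ((⟪x, ξ⟫ : ℝ) : ℂ))) (closedBall c r)
  rw [← h1]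
  have h2 : (fun y : E n => y + c) ⁻¹' closedBall c r = closedBall 0 r := by
    ext y
    simp [dist_eq_norm]
  rw [h2]
  unfold Phi
  rw [← integral_const_mul]
  refine setIntegral_congr_fun measurableSet_closedBall fun y _ => ?_
  rw [← Complex.exp_add, inner_add_right]
  congr 1
  push_cast
  ring

theorem layer_diff {A B : Set (E n)} (hA : MeasurableSet A) (hB : MeasurableSet B)
    (hAb : Bornology.IsBounded A) (hBb : Bornology.IsBounded B) {G : E n → ℂ}
    (hG : MemLp G 2 volume) (F' : Finset ℤ) (c : ℤ → E n) (r : ℝ) (a : ℤ → ℂ)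
    (key : ∀ ξ, A.indicator G ξ - B.indicator G ξ =
      ∑ j ∈ F', (closedBall (c j) r).indicator (fun _ => a j) ξ) (x : E n) :
    I A G x - I B G x =
      (∑ j ∈ F', a j * Complex.exp (2 * Real.pi * Complex.I * ((⟪x, c j⟫ : ℝ) : ℂ))) * Phi r x := by
  have hiA := integrableOn_char (integrableOn_of_memLp hG hAb) x
  have hiB := integrableOn_char (integrableOn_of_memLp hG hBb) x
  unfold I
  rw [← integral_indicator hA, ← integral_indicator hB, ← integral_sub]
  · have h1 : ∀ ξ, A.indicator (fun ξ => Complex.exp (2 * Real.pi * Complex.I *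
          ((⟪x, ξ⟫ : ℝ) : ℂ)) * G ξ) ξ - B.indicator (fun ξ => Complex.exp (2 * Real.pi * Complex.I *
          ((⟪x, ξ⟫ : ℝ) : ℂ)) * G ξ) ξ =
        ∑ j ∈ F', (closedBall (c j) r).indicator (fun ξ => a j * Complex.exp (2 * Real.pi *
          Complex.I * ((⟪x, ξ⟫ : ℝ) : ℂ))) ξ := by
      intro ξ
      have h2 : ∀ C : Set (E n), C.indicator (fun ξ => Complex.exp (2 * Real.pi * Complex.I *
          ((⟪x, ξ⟫ : ℝ) : ℂ)) * G ξ) ξ = Complex.exp (2 * Real.pi * Complex.I *
          ((⟪x, ξ⟫ : ℝ) : ℂ)) * C.indicator G ξ := by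
        intro C
        by_cases h : ξ ∈ C <;> simp [h]
      rw [h2, h2, ← mul_sub, key, Finset.mul_sum]
      refine Finset.sum_congr rfl fun j _ => ?_
      by_cases h : ξ ∈ closedBall (c j) r
      · simp only [indicator_of_mem h]
        ring
      · simp only [indicator_of_notMem h]
        ring
    simp_rw [h1]
    rw [integral_finsetSum]
    · rw [Finset.sum_mul]
      refine Finset.sum_congr rfl fun j _ => ?_
      rw [integral_indicator measurableSet_closedBall, integral_const_mul, int_ball]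
      ring
    · intro j _
      rw [integrable_indicator_iff measurableSet_closedBall]
      exact (integrable_char_ball (c j) x r).const_mul _
  · rwa [integrable_indicator_iff hA]
  · rwa [integrable_indicator_iff hB]

/-- null sets of the circle give null sets of the space -/
theorem pull (i : Fin n) {N : Set UnitAddCircle} (hN : volume N = 0) :
    ∀ᵐ x : E n, ((8 * x i : ℝ) : UnitAddCircle) ∉ N := by
  have h1 : ∀ᵐ t : ℝ, (t : UnitAddCircle) ∉ N := by
    have hj : ∀ j : ℤ, ∀ᵐ t : ℝ ∂((volume : Measure ℝ).restrict (Ioc (j : ℝ) (j + 1))),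
        ((t : ℝ) : UnitAddCircle) ∉ N := by
      intro j
      have h4 : ∀ᵐ t : UnitAddCircle ∂volume, t ∉ N := by
        rw [ae_iff]
        simpa using hN
      exact (UnitAddCircle.measurePreserving_mk (j : ℝ)).quasiMeasurePreserving.ae h4
    have := (ae_restrict_iUnion_iff (μ := (volume : Measure ℝ)) (fun j : ℤ => Ioc (j : ℝ) (j + 1))
      (fun t : ℝ => (t : UnitAddCircle) ∉ N)).2 hj
    rwa [iUnion_Ioc_intCast, Measure.restrict_univ] at this
  have h2 : ∀ᵐ t : ℝ, ((8 * t : ℝ) : UnitAddCircle) ∉ N := by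
    rw [ae_iff] at h1 ⊢
    have h3 := Real.volume_preimage_mul_left (a := 8) (by norm_num)
      {a : ℝ | ¬ (a : UnitAddCircle) ∉ N}
    rw [h1, mul_zero] at h3
    exact h3
  have h3 : ∀ᵐ y : (Fin n → ℝ), ((8 * y i : ℝ) : UnitAddCircle) ∉ N := by
    have := (Measure.quasiMeasurePreserving_eval (fun _ : Fin n => (volume : Measure ℝ)) i).ae h2
    exact this
  exact (PiLp.volume_preserving_ofLp (Fin n)).quasiMeasurePreserving.ae h3

end Pool.Agent.H311.BP
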