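import Pool.Agent.H311.BP.Glue
import Pool.Agent.H311.BP.Layer

set_option autoImplicit false

open MeasureTheory Metric Set Filter Topology
open scoped ENNReal NNReal Real RealInnerProductSpace

namespace Pool.Agent.H311.BP

variable {n : ℕ}

/-- being one-Lipschitz, unfolded -/
def L1 (f : E n → ℝ) : Prop := ∀ ξ η, |f ξ - f η| ≤ dist ξ η

theorem L1.max {f g : E n → ℝ} (hf : L1 f) (hg : L1 g) : L1 fun ξ => max (f ξ) (g ξ) :=
  fun ξ η => (abs_max_sub_max_le_max _ _ _ _).trans (max_le (hf ξ η) (hg ξ η))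

theorem L1.min {f g : E n → ℝ} (hf : L1 f) (hg : L1 g) : L1 fun ξ => min (f ξ) (g ξ) :=
  fun ξ η => (abs_min_sub_min_le_max _ _ _ _).trans (max_le (hf ξ η) (hg ξ η))

theorem L1.neg {f : E n → ℝ} (hf : L1 f) : L1 fun ξ => -f ξ := fun ξ η => by
  have := hf ξ η
  rw [abs_le] at this ⊢
  constructor <;> linarith [this.1, this.2]

theorem L1.const (a : ℝ) : L1 fun _ : E n => a := fun ξ η => by simp

theorem L1.csub {f : E n → ℝ} (hf : L1 f) (a : ℝ) : L1 fun ξ => a - f ξ := fun ξ η => by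
  have := hf ξ η
  rw [abs_le] at this ⊢
  constructor <;> linarith [this.1, this.2]

theorem L1.norm : L1 fun ξ : E n => ‖ξ‖ := fun ξ η => by
  rw [dist_eq_norm]
  exact abs_norm_sub_norm_le ξ η

theorem L1.dist (c : E n) : L1 fun ξ : E n => dist ξ c := fun ξ η => by
  exact abs_dist_sub_le ξ η c

theorem L1.lip {f : E n → ℝ} (hf : L1 f) : LipschitzWith 1 f := by
  refine LipschitzWith.of_dist_le_mul fun ξ η => ?_
  rw [Real.dist_eq, NNReal.coe_one, one_mul]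
  exact hf ξ η

/-- the cut-off -/
noncomputable def cut (r δ : ℝ) (c ξ : E n) : ℝ := max 0 (min δ (r + δ - dist ξ c))

theorem cut_L1 (r δ : ℝ) (c : E n) : L1 (cut r δ c) :=
  (L1.const 0).max ((L1.const δ).min ((L1.dist c).csub _))

theorem cut_nonneg (r δ : ℝ) (c ξ : E n) : 0 ≤ cut r δ c ξ := le_max_left _ _

theorem cut_le {r δ : ℝ} (hδ : 0 ≤ δ) (c ξ : E n) : cut r δ c ξ ≤ δ :=
  max_le hδ (min_le_left _ _)

theorem cut_eq {r δ : ℝ} (hδ : 0 ≤ δ) {c ξ : E n} (h : dist ξ c ≤ r) : cut r δ c ξ = δ := by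
  unfold cut
  rw [min_eq_left (by linarith), max_eq_right hδ]

theorem cut_zero {r δ : ℝ} {c ξ : E n} (h : r + δ ≤ dist ξ c) : cut r δ c ξ = 0 := by
  unfold cut
  exact max_eq_left ((min_le_right _ _).trans (by linarith))

/-- the local perturbation -/
noncomputable def bump (r δ v : ℝ) (c ξ : E n) : ℝ :=
  max (-cut r δ c ξ) (min (cut r δ c ξ) (v - ‖ξ‖))

theorem bump_L1 (r δ v : ℝ) (c : E n) : L1 (bump r δ v c) :=
  (cut_L1 r δ c).neg.max ((cut_L1 r δ c).min (L1.norm.csub v))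

theorem abs_bump_le (r δ v : ℝ) (c ξ : E n) : |bump r δ v c ξ| ≤ cut r δ c ξ := by
  have h0 := cut_nonneg r δ c ξ
  unfold bump
  rw [abs_le]
  exact ⟨le_max_left _ _, max_le (by linarith) (min_le_left _ _)⟩

theorem bump_eq {r δ v : ℝ} (hδ : 0 ≤ δ) {c ξ : E n} (h : dist ξ c ≤ r) (hv : |v - ‖ξ‖| ≤ δ) :
    bump r δ v c ξ = v - ‖ξ‖ := by
  have h1 := abs_le.1 hv
  unfold bump
  rw [cut_eq hδ h, min_eq_right h1.2, max_eq_right h1.1]

theorem bump_zero {r δ v : ℝ} {c ξ : E n} (h : r + δ ≤ dist ξ c) : bump r δ v c ξ = 0 := by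
  have := abs_bump_le r δ v c ξ
  rw [cut_zero h] at this
  exact abs_eq_zero.1 (le_antisymm this (abs_nonneg _))

/-- the sequence of radii -/
noncomputable def kk (δ : ℕ → ℝ) (F : ℕ → Finset ℤ) (m : ℕ) : ℝ :=
  ∑ i ∈ Finset.range (m + 1), (100 + 128 / δ i * ∑ j ∈ F i, (j : ℝ) ^ 2)

theorem kk_succ (δ : ℕ → ℝ) (F : ℕ → Finset ℤ) (m : ℕ) :
    kk δ F (m + 1) = kk δ F m + (100 + 128 / δ (m + 1) * ∑ j ∈ F (m + 1), (j : ℝ) ^ 2) := by
  unfold kk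
  rw [Finset.sum_range_succ]

theorem term_nonneg {δ : ℕ → ℝ} (hδ : ∀ m, 0 < δ m) (F : ℕ → Finset ℤ) (m : ℕ) :
    0 ≤ 128 / δ m * ∑ j ∈ F m, (j : ℝ) ^ 2 := by
  have := hδ m
  have h2 : 0 ≤ ∑ j ∈ F m, (j : ℝ) ^ 2 := Finset.sum_nonneg fun j _ => sq_nonneg _
  positivity

theorem kk_step {δ : ℕ → ℝ} (hδ : ∀ m, 0 < δ m) (F : ℕ → Finset ℤ) (m : ℕ) :
    kk δ F m + 100 ≤ kk δ F (m + 1) := by
  rw [kk_succ]
  have := term_nonneg hδ F (m + 1)
  linarith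

theorem kk_gap {δ : ℕ → ℝ} (hδ : ∀ m, 0 < δ m) (F : ℕ → Finset ℤ) {m m' : ℕ} (h : m < m') :
    kk δ F m + 100 ≤ kk δ F m' := by
  refine (kk_step hδ F m).trans ?_
  have hmono : Monotone (kk δ F) := monotone_nat_of_le_succ fun i => by
    have := kk_step hδ F i
    linarith
  exact hmono h

theorem kk_large {δ : ℕ → ℝ} (hδ : ∀ m, 0 < δ m) (F : ℕ → Finset ℤ) (m : ℕ) :
    100 * ((m : ℝ) + 1) ≤ kk δ F m := by
  induction m with
  | zero =>
    have h1 : kk δ F 0 = 100 + 128 / δ 0 * ∑ j ∈ F 0, (j : ℝ) ^ 2 := by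
      unfold kk
      simp
    have := term_nonneg hδ F 0
    rw [h1]
    push_cast
    linarith
  | succ m ih =>
    have := kk_step hδ F m
    push_cast
    linarith

theorem kk_sq {δ : ℕ → ℝ} (hδ : ∀ m, 0 < δ m) (F : ℕ → Finset ℤ) {m : ℕ} {j : ℤ} (hj : j ∈ F m) :
    128 / δ m * (j : ℝ) ^ 2 ≤ kk δ F m := by
  have hd := hδ m
  have h1 : (j : ℝ) ^ 2 ≤ ∑ j ∈ F m, (j : ℝ) ^ 2 :=
    Finset.single_le_sum (f := fun j : ℤ => (j : ℝ) ^ 2) (fun i _ => sq_nonneg _) hj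
  have h2 : 128 / δ m * (j : ℝ) ^ 2 ≤ 128 / δ m * ∑ j ∈ F m, (j : ℝ) ^ 2 :=
    mul_le_mul_of_nonneg_left h1 (by positivity)
  refine h2.trans ?_
  cases m with
  | zero =>
    unfold kk
    simp
  | succ m =>
    rw [kk_succ]
    have := kk_large hδ F m
    have h3 : (0 : ℝ) ≤ m := Nat.cast_nonneg m
    linarith

/-- the centres -/
noncomputable def cen (i0 i1 : Fin n) (j : ℤ) (k : ℝ) : E n :=
  EuclideanSpace.single i0 (8 * (j : ℝ)) + EuclideanSpace.single i1 k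

theorem cen_inner (i0 i1 : Fin n) (j : ℤ) (k : ℝ) (x : E n) :
    (⟪x, cen i0 i1 j k⟫ : ℝ) = 8 * j * x i0 + k * x i1 := by
  unfold cen
  rw [inner_add_right, EuclideanSpace.inner_single_right, EuclideanSpace.inner_single_right]
  simp

theorem cen_norm {i0 i1 : Fin n} (h : i0 ≠ i1) (j : ℤ) (k : ℝ) :
    ‖cen i0 i1 j k‖ ^ 2 = 64 * (j : ℝ) ^ 2 + k ^ 2 := by
  rw [← real_inner_self_eq_norm_sq, cen_inner]
  unfold cen
  simp [h, h.symm]
  ring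

theorem cen_bounds {i0 i1 : Fin n} (h : i0 ≠ i1) (j : ℤ) {k δ : ℝ} (hk : 0 < k) (hδ : 0 < δ)
    (hkj : 128 / δ * (j : ℝ) ^ 2 ≤ k) :
    k ≤ ‖cen i0 i1 j k‖ ∧ ‖cen i0 i1 j k‖ ≤ k + δ / 4 := by
  have h1 := cen_norm h j k
  constructor
  · refine (sq_le_sq₀ hk.le (norm_nonneg _)).1 ?_
    rw [h1]
    nlinarith [sq_nonneg (j : ℝ)]
  · refine (sq_le_sq₀ (norm_nonneg _) (by positivity)).1 ?_
    rw [h1]
    have h2 : 128 * (j : ℝ) ^ 2 ≤ k * δ := by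
      rw [div_mul_eq_mul_div, div_le_iff₀ hδ] at hkj
      exact hkj
    nlinarith

theorem cen_sep {i0 i1 : Fin n} (h : i0 ≠ i1) {j j' : ℤ} {k k' : ℝ}
    (hne : (j ≠ j') ∨ 8 ≤ |k - k'|) : 8 ≤ ‖cen i0 i1 j k - cen i0 i1 j' k'‖ := by
  rcases hne with h1 | h1
  · have h2 := PiLp.norm_apply_le (cen i0 i1 j k - cen i0 i1 j' k') i0
    refine le_trans ?_ h2
    have h3 : (cen i0 i1 j k - cen i0 i1 j' k') i0 = 8 * ((j - j' : ℤ) : ℝ) := by
      unfold cen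
      simp [h]
      ring
    rw [h3, Real.norm_eq_abs, abs_mul, abs_of_pos (by norm_num : (0 : ℝ) < 8)]
    have h4 : (1 : ℤ) ≤ |j - j'| := Int.one_le_abs (sub_ne_zero.2 h1)
    have h5 : (1 : ℝ) ≤ |((j - j' : ℤ) : ℝ)| := by exact_mod_cast h4
    linarith
  · have h2 := PiLp.norm_apply_le (cen i0 i1 j k - cen i0 i1 j' k') i1
    refine le_trans ?_ h2
    have h3 : (cen i0 i1 j k - cen i0 i1 j' k') i1 = k - k' := by
      unfold cen
      simp [h.symm]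
    rw [h3, Real.norm_eq_abs]
    exact h1

end Pool.Agent.H311.BP
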