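import Pool.Agent.H311.BP.Div

set_option autoImplicit false

open MeasureTheory Metric Set Filter Topology
open scoped ENNReal NNReal Real RealInnerProductSpace

namespace Pool.Agent.H311.BP

variable {n : ℕ}

/-- the data of the construction -/
structure Data where
  /-- the size of the perturbation in layer `m` -/
  δ : ℕ → ℝ
  /-- the frequencies -/
  F : ℕ → Finset ℤ
  /-- the order -/
  τ : ℕ → ℤ → ℕ
  /-- the length -/
  M : ℕ → ℕ
  hδ : ∀ m, 0 < δ m
  hδ1 : ∀ m, δ m ≤ 1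
  hτ : ∀ m, ∀ j ∈ F m, τ m j < M m

namespace Data

variable (D : Data) (i0 i1 : Fin n)

/-- the radii -/
noncomputable def k (m : ℕ) : ℝ := kk D.δ D.F m

/-- the centres -/
noncomputable def ctr (i : ℕ × ℤ) : E n := cen i0 i1 i.2 (D.k i.1)

/-- the radii of the small balls -/
noncomputable def r (m : ℕ) : ℝ := D.δ m / 6

/-- the values of the perturbed norm -/
noncomputable def v (i : ℕ × ℤ) : ℝ := D.k i.1 + D.δ i.1 / 4 * (D.τ i.1 i.2 / (D.M i.1 + 1))

/-- the cutting radii -/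
noncomputable def rad (m s : ℕ) : ℝ := D.k m + D.δ m / 4 * ((s - 1 / 2) / (D.M m + 1))

theorem k_pos (m : ℕ) : 100 * ((m : ℝ) + 1) ≤ D.k m := kk_large D.hδ D.F m

theorem k_gap {m m' : ℕ} (h : m < m') : D.k m + 100 ≤ D.k m' := kk_gap D.hδ D.F h

theorem sep (h : i0 ≠ i1) (i i' : ℕ × ℤ) (hne : i ≠ i') :
    8 ≤ ‖D.ctr i0 i1 i - D.ctr i0 i1 i'‖ := by
  refine cen_sep h ?_
  by_cases h1 : i.1 = i'.1
  · left
    intro h2
    exact hne (Prod.ext h1 h2)
  · right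
    rcases lt_or_gt_of_ne h1 with h2 | h2
    · have := D.k_gap h2
      rw [abs_sub_comm]
      exact le_trans (by linarith) (le_abs_self _)
    · have := D.k_gap h2
      exact le_trans (by linarith) (le_abs_self _)

theorem r_le (m : ℕ) : D.r m ≤ 1 / 6 := by
  have := D.hδ1 m
  unfold r
  linarith

theorem r_pos (m : ℕ) : 0 < D.r m := by
  have := D.hδ m
  unfold r
  linarith

theorem disj (h : i0 ≠ i1) (i i' : ℕ × ℤ) (hne : i ≠ i') :
    Disjoint (closedBall (D.ctr i0 i1 i) (D.r i.1)) (closedBall (D.ctr i0 i1 i') (D.r i'.1)) := by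
  refine closedBall_disjoint_closedBall ?_
  rw [dist_eq_norm]
  have h1 := D.sep i0 i1 h i i' hne
  have h2 := D.r_le i.1
  have h3 := D.r_le i'.1
  linarith

/-- the values are close to the norm -/
theorem v_close (h : i0 ≠ i1) {i : ℕ × ℤ} (hi : i.2 ∈ D.F i.1) {ξ : E n}
    (hξ : ξ ∈ closedBall (D.ctr i0 i1 i) (D.r i.1)) : |D.v i - ‖ξ‖| ≤ D.δ i.1 := by
  have hd := D.hδ i.1
  have hk := D.k_pos i.1
  have hk0 : 0 < D.k i.1 := by
    have : (0 : ℝ) ≤ i.1 := Nat.cast_nonneg _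
    linarith
  have h1 := cen_bounds h i.2 hk0 hd (kk_sq D.hδ D.F hi)
  have h2 : |‖ξ‖ - ‖D.ctr i0 i1 i‖| ≤ D.δ i.1 / 6 := by
    refine (abs_norm_sub_norm_le _ _).trans ?_
    rw [← dist_eq_norm]
    exact hξ
  have h3 := abs_le.1 h2
  have h1' : D.k i.1 ≤ ‖D.ctr i0 i1 i‖ ∧ ‖D.ctr i0 i1 i‖ ≤ D.k i.1 + D.δ i.1 / 4 := h1
  have h4 : D.k i.1 ≤ D.v i ∧ D.v i ≤ D.k i.1 + D.δ i.1 / 4 := by
    have h5 : (0 : ℝ) ≤ (D.τ i.1 i.2 : ℝ) / (D.M i.1 + 1) := by positivity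
    have h6 : (D.τ i.1 i.2 : ℝ) / (D.M i.1 + 1) ≤ 1 := by
      rw [div_le_one (by positivity)]
      have := D.hτ i.1 i.2 hi
      have h7 : (D.τ i.1 i.2 : ℝ) ≤ D.M i.1 := by exact_mod_cast this.le
      linarith
    unfold v
    constructor
    · have : 0 ≤ D.δ i.1 / 4 * ((D.τ i.1 i.2 : ℝ) / (D.M i.1 + 1)) := by positivity
      linarith
    · nlinarith
  rw [abs_le]
  constructor <;> linarith [h1'.1, h1'.2, h3.1, h3.2, h4.1, h4.2]

/-- comparison of the values with the cutting radii -/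
theorem v_le_rad {i : ℕ × ℤ} (hi : i.2 ∈ D.F i.1) {m s : ℕ} (hs : s ≤ D.M m) :
    D.v i ≤ D.rad m s ↔ i.1 < m ∨ (i.1 = m ∧ D.τ m i.2 < s) := by
  have hvk : D.k i.1 ≤ D.v i ∧ D.v i ≤ D.k i.1 + 1 := by
    have hd := D.hδ i.1
    have hd1 := D.hδ1 i.1
    have h5 : (0 : ℝ) ≤ (D.τ i.1 i.2 : ℝ) / (D.M i.1 + 1) := by positivity
    have h6 : (D.τ i.1 i.2 : ℝ) / (D.M i.1 + 1) ≤ 1 := by
      rw [div_le_one (by positivity)]
      have := D.hτ i.1 i.2 hi
      have h7 : (D.τ i.1 i.2 : ℝ) ≤ D.M i.1 := by exact_mod_cast this.le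
      linarith
    unfold v
    constructor
    · have : 0 ≤ D.δ i.1 / 4 * ((D.τ i.1 i.2 : ℝ) / (D.M i.1 + 1)) := by positivity
      linarith
    · nlinarith
  have hrk : D.k m - 1 ≤ D.rad m s ∧ D.rad m s ≤ D.k m + 1 := by
    have hd := D.hδ m
    have hd1 := D.hδ1 m
    have h5 : (-1 : ℝ) ≤ ((s : ℝ) - 1 / 2) / (D.M m + 1) := by
      rw [le_div_iff₀ (by positivity)]
      have h7 : (0 : ℝ) ≤ D.M m := Nat.cast_nonneg _
      have h8 : (0 : ℝ) ≤ s := Nat.cast_nonneg _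
      linarith
    have h6 : ((s : ℝ) - 1 / 2) / (D.M m + 1) ≤ 1 := by
      rw [div_le_one (by positivity)]
      have h7 : (s : ℝ) ≤ D.M m := by exact_mod_cast hs
      linarith
    unfold rad
    constructor
    · nlinarith
    · nlinarith
  rcases lt_trichotomy i.1 m with h | h | h
  · have := D.k_gap h
    constructor
    · intro _
      exact Or.inl h
    · intro _
      linarith [hvk.2, hrk.1]
  · constructor
    · intro h1
      right
      refine ⟨h, ?_⟩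
      unfold v rad at h1
      rw [h] at h1
      have hd := D.hδ m
      have h2 : (D.τ m i.2 : ℝ) / (D.M m + 1) ≤ ((s : ℝ) - 1 / 2) / (D.M m + 1) := by
        have h3 : D.δ m / 4 * ((D.τ m i.2 : ℝ) / (D.M m + 1)) ≤
            D.δ m / 4 * (((s : ℝ) - 1 / 2) / (D.M m + 1)) := by linarith
        exact le_of_mul_le_mul_left h3 (by positivity)
      have h4 : (D.τ m i.2 : ℝ) ≤ (s : ℝ) - 1 / 2 := by
        rwa [div_le_div_iff_of_pos_right (by positivity)] at h2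
      have h5 : (D.τ m i.2 : ℝ) < s := by linarith
      exact_mod_cast h5
    · rintro (h1 | ⟨_, h1⟩)
      · omega
      · unfold v rad
        rw [h]
        have hd := D.hδ m
        have h5 : (D.τ m i.2 : ℝ) + 1 ≤ s := by exact_mod_cast h1
        have h2 : (D.τ m i.2 : ℝ) / (D.M m + 1) ≤ ((s : ℝ) - 1 / 2) / (D.M m + 1) := by
          rw [div_le_div_iff_of_pos_right (by positivity)]
          linarith
        have h3 : D.δ m / 4 * ((D.τ m i.2 : ℝ) / (D.M m + 1)) ≤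
            D.δ m / 4 * (((s : ℝ) - 1 / 2) / (D.M m + 1)) :=
          mul_le_mul_of_nonneg_left h2 (by positivity)
        linarith
  · have := D.k_gap h
    constructor
    · intro h1
      linarith [hvk.1, hrk.2]
    · rintro (h1 | ⟨h1, _⟩)
      · omega
      · omega

theorem rad_ge (m s : ℕ) : (m : ℝ) ≤ D.rad m s := by
  have hd := D.hδ m
  have hd1 := D.hδ1 m
  have h5 : (-1 : ℝ) ≤ ((s : ℝ) - 1 / 2) / (D.M m + 1) := by
    rw [le_div_iff₀ (by positivity)]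
    have h7 : (0 : ℝ) ≤ D.M m := Nat.cast_nonneg _
    have h8 : (0 : ℝ) ≤ s := Nat.cast_nonneg _
    linarith
  have hk := D.k_pos m
  have hm : (0 : ℝ) ≤ m := Nat.cast_nonneg _
  unfold rad
  nlinarith

/-- the perturbation -/
theorem exists_q (h : i0 ≠ i1) {ε : ℝ} (hε : 0 ≤ ε) (hδε : ∀ m, D.δ m ≤ ε)
    (hδ0 : Tendsto D.δ atTop (𝓝 0)) :
    ∃ q : E n → ℝ, LipschitzWith 1 q ∧ (∀ ξ, |q ξ| ≤ ε) ∧ Tendsto q (cocompact (E n)) (𝓝 0) ∧
      ∀ i : ℕ × ℤ, i.2 ∈ D.F i.1 → ∀ ξ ∈ closedBall (D.ctr i0 i1 i) (D.r i.1),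
        ‖ξ‖ + q ξ = D.v i := by
  classical
  set H : ℕ × ℤ → E n → ℝ := fun i ξ =>
    if i.2 ∈ D.F i.1 then bump (D.r i.1) (D.δ i.1) (D.v i) (D.ctr i0 i1 i) ξ else 0 with hH
  have hHδ : ∀ i ξ, |H i ξ| ≤ D.δ i.1 := by
    intro i ξ
    simp only [hH]
    split_ifs
    · exact (abs_bump_le _ _ _ _ _).trans (cut_le (D.hδ _).le _ _)
    · simpa using (D.hδ _).le
  obtain ⟨q, hqL, hq1, hq0⟩ := glue_lip (D.ctr i0 i1) H (by
      intro i
      by_cases hi : i.2 ∈ D.F i.1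
      · have := (bump_L1 (D.r i.1) (D.δ i.1) (D.v i) (D.ctr i0 i1 i)).lip
        simpa only [hH, if_pos hi] using this
      · have := (L1.const (n := n) 0).lip
        simpa only [hH, if_neg hi] using this) (by
      intro i ξ hξ
      simp only [hH]
      split_ifs
      · refine bump_zero ?_
        rw [dist_eq_norm]
        have h1 := D.r_le i.1
        have h2 := D.hδ1 i.1
        linarith
      · rfl) (fun i ξ => (hHδ i ξ).trans (D.hδ1 _)) (D.sep i0 i1 h)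
  refine ⟨q, hqL, ?_, ?_, ?_⟩
  · intro ξ
    by_cases hξ : ∃ i, ‖ξ - D.ctr i0 i1 i‖ ≤ 2
    · obtain ⟨i, hi⟩ := hξ
      rw [hq1 i ξ hi]
      exact (hHδ i ξ).trans (hδε _)
    · push Not at hξ
      rw [hq0 ξ hξ]
      simpa using hε
  · rw [Metric.tendsto_nhds]
    intro η hη
    have h1 : ∀ᶠ m in atTop, D.δ m < η := hδ0.eventually (gt_mem_nhds hη)
    obtain ⟨m0, hm0⟩ := eventually_atTop.1 h1
    have h2 := (tendsto_norm_cocompact_atTop (E := E n)).eventually (eventually_gt_atTop (D.k m0 + 4))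
    filter_upwards [h2] with ξ hξ
    rw [Real.dist_eq, sub_zero]
    by_cases hx : ∃ i, ‖ξ - D.ctr i0 i1 i‖ ≤ 2
    · obtain ⟨i, hi⟩ := hx
      rw [hq1 i ξ hi]
      by_cases hF : i.2 ∈ D.F i.1
      · refine (hHδ i ξ).trans_lt (hm0 _ ?_)
        by_contra hlt
        push Not at hlt
        have h3 := D.k_gap hlt
        have hk0 : 0 < D.k i.1 := by
          have := D.k_pos i.1
          have h4 : (0 : ℝ) ≤ i.1 := Nat.cast_nonneg _
          linarith
        have h4 : ‖D.ctr i0 i1 i‖ ≤ D.k i.1 + D.δ i.1 / 4 :=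
          (cen_bounds h i.2 hk0 (D.hδ _) (kk_sq D.hδ D.F hF)).2
        have h5 : ‖ξ‖ ≤ ‖ξ - D.ctr i0 i1 i‖ + ‖D.ctr i0 i1 i‖ := by
          simpa using norm_add_le (ξ - D.ctr i0 i1 i) (D.ctr i0 i1 i)
        have h6 := D.hδ1 i.1
        linarith
      · simp only [hH, if_neg hF]
        simpa using hη
    · push Not at hx
      rw [hq0 ξ hx]
      simpa using hη
  · intro i hi ξ hξ
    have h1 : ‖ξ - D.ctr i0 i1 i‖ ≤ D.r i.1 := by
      rw [← dist_eq_norm]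
      exact hξ
    have h2 := D.r_le i.1
    rw [hq1 i ξ (by linarith)]
    simp only [hH, if_pos hi]
    rw [bump_eq (D.hδ _).le hξ (D.v_close i0 i1 h hi hξ)]
    ring

end Data

end Pool.Agent.H311.BP
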