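import Pool.Agent.H311.BP.Div2

set_option autoImplicit false

open MeasureTheory Metric Set Filter Topology
open scoped ENNReal NNReal Real RealInnerProductSpace

namespace Pool.Agent.H311.BP

variable {n : ℕ}

namespace Data

variable (D : Data) (i0 i1 : Fin n)

/-- the coefficients: supported on the frequencies -/
noncomputable def coef (c : ℕ → ℤ → ℂ) (w : ℕ → ℝ) (i : ℕ × ℤ) : ℂ :=
  if i.2 ∈ D.F i.1 then (w i.1 : ℂ) * c i.1 i.2 else 0

theorem sum_fin (c : ℕ → ℤ → ℂ) (w : ℕ → ℝ)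
    (hc : ∀ m, ∑ j ∈ D.F m, ‖c m j‖ ^ 2 ≤ 1)
    (hwv : ∀ m, w m ^ 2 * (volume (closedBall (0 : E n) (D.r m))).toReal ≤ (1 / 4) ^ m) :
    ∑' i, ‖D.coef c w i‖ₑ ^ 2 * volume (closedBall (D.ctr i0 i1 i) (D.r i.1)) < ∞ := by
  have h1 : ∀ i : ℕ × ℤ, ‖D.coef c w i‖ₑ ^ 2 * volume (closedBall (D.ctr i0 i1 i) (D.r i.1)) =
      if i.2 ∈ D.F i.1 then ENNReal.ofReal (‖c i.1 i.2‖ ^ 2 *
        (w i.1 ^ 2 * (volume (closedBall (0 : E n) (D.r i.1))).toReal)) else 0 := by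
    intro i
    unfold coef
    split_ifs with hi
    · rw [Measure.addHaar_closedBall_center volume (D.ctr i0 i1 i)]
      have h2 : volume (closedBall (0 : E n) (D.r i.1)) =
          ENNReal.ofReal (volume (closedBall (0 : E n) (D.r i.1))).toReal :=
        (ENNReal.ofReal_toReal measure_closedBall_lt_top.ne).symm
      have h3 : ‖(w i.1 : ℂ) * c i.1 i.2‖ₑ ^ 2 = ENNReal.ofReal (w i.1 ^ 2 * ‖c i.1 i.2‖ ^ 2) := by
        rw [← ofReal_norm, ← ENNReal.ofReal_pow (norm_nonneg _), norm_mul, mul_pow]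
        congr 2
        rw [Complex.norm_real, Real.norm_eq_abs, sq_abs]
      rw [h3]
      conv_lhs => rw [h2]
      rw [← ENNReal.ofReal_mul (by positivity)]
      congr 1
      ring
    · simp
  simp_rw [h1]
  rw [ENNReal.tsum_prod (f := fun m j => if j ∈ D.F m then ENNReal.ofReal (‖c m j‖ ^ 2 *
        (w m ^ 2 * (volume (closedBall (0 : E n) (D.r m))).toReal)) else 0)]
  have h2 : ∀ m, ∑' j, (if j ∈ D.F m then ENNReal.ofReal (‖c m j‖ ^ 2 *
        (w m ^ 2 * (volume (closedBall (0 : E n) (D.r m))).toReal)) else 0) ≤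
      ENNReal.ofReal (1 / 4) ^ m := by
    intro m
    rw [tsum_eq_sum (s := D.F m) (by
      intro j hj
      rw [if_neg hj])]
    have h3 : ∑ j ∈ D.F m, (if j ∈ D.F m then ENNReal.ofReal (‖c m j‖ ^ 2 *
        (w m ^ 2 * (volume (closedBall (0 : E n) (D.r m))).toReal)) else 0) =
        ∑ j ∈ D.F m, ENNReal.ofReal (‖c m j‖ ^ 2 *
        (w m ^ 2 * (volume (closedBall (0 : E n) (D.r m))).toReal)) :=
      Finset.sum_congr rfl fun j hj => if_pos hj
    rw [h3, ← ENNReal.ofReal_sum_of_nonneg (fun j _ => by positivity), ← Finset.sum_mul,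
      ← ENNReal.ofReal_pow (by norm_num)]
    refine ENNReal.ofReal_le_ofReal ?_
    calc (∑ j ∈ D.F m, ‖c m j‖ ^ 2) * (w m ^ 2 * (volume (closedBall (0 : E n) (D.r m))).toReal)
        ≤ 1 * (1 / 4) ^ m := mul_le_mul (hc m) (hwv m) (by positivity) (by norm_num)
      _ = (1 / 4) ^ m := one_mul _
  refine (ENNReal.tsum_le_tsum h2).trans_lt ?_
  rw [ENNReal.tsum_geometric]
  refine ENNReal.inv_lt_top.2 ?_
  rw [tsub_pos_iff_lt]
  exact ENNReal.ofReal_lt_one.2 (by norm_num)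

/-- the difference of two partial integrals -/
theorem diff_formula (h : i0 ≠ i1) {q : E n → ℝ} (hqc : Continuous q) {ε : ℝ}
    (hqε : ∀ ξ, |q ξ| ≤ ε)
    (hqv : ∀ i : ℕ × ℤ, i.2 ∈ D.F i.1 → ∀ ξ ∈ closedBall (D.ctr i0 i1 i) (D.r i.1),
        ‖ξ‖ + q ξ = D.v i)
    (c : ℕ → ℤ → ℂ) (w : ℕ → ℝ) {G : E n → ℂ} (hG : MemLp G 2 volume)
    (hG1 : ∀ i, ∀ ξ ∈ closedBall (D.ctr i0 i1 i) (D.r i.1), G ξ = D.coef c w i)
    (hG0 : ∀ ξ, (∀ i : ℕ × ℤ, ξ ∉ closedBall (D.ctr i0 i1 i) (D.r i.1)) → G ξ = 0)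
    {m s : ℕ} (hs : s ≤ D.M m) (x : E n) :
    I {ξ | ‖ξ‖ + q ξ ≤ D.rad m s} G x - I {ξ | ‖ξ‖ + q ξ ≤ D.rad m 0} G x =
      (w m : ℂ) * Complex.exp (2 * Real.pi * Complex.I * ((D.k m * x i1 : ℝ) : ℂ)) *
        (∑ j ∈ (D.F m).filter (fun j => D.τ m j < s),
          c m j * fourier j ((8 * x i0 : ℝ) : UnitAddCircle)) * Phi (D.r m) x := by
  classical
  have hms : ∀ R : ℝ, MeasurableSet {ξ : E n | ‖ξ‖ + q ξ ≤ R} := fun R =>
    measurableSet_le (by fun_prop) measurable_const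
  have hbd : ∀ R : ℝ, Bornology.IsBounded {ξ : E n | ‖ξ‖ + q ξ ≤ R} := by
    intro R
    refine (isBounded_closedBall (x := (0 : E n)) (r := R + ε)).subset ?_
    intro ξ hξ
    have h1 := abs_le.1 (hqε ξ)
    have h2 : ‖ξ‖ + q ξ ≤ R := hξ
    simp only [mem_closedBall, dist_zero_right]
    linarith
  -- balls do not meet
  have huniq : ∀ (i i' : ℕ × ℤ) (ξ : E n), ξ ∈ closedBall (D.ctr i0 i1 i) (D.r i.1) →
      ξ ∈ closedBall (D.ctr i0 i1 i') (D.r i'.1) → i = i' := by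
    intro i i' ξ h1 h2
    by_contra hne
    exact Set.disjoint_left.1 (D.disj i0 i1 h i i' hne) h1 h2
  have key : ∀ ξ, ({ξ | ‖ξ‖ + q ξ ≤ D.rad m s} : Set (E n)).indicator G ξ -
      ({ξ | ‖ξ‖ + q ξ ≤ D.rad m 0} : Set (E n)).indicator G ξ =
      ∑ j ∈ (D.F m).filter (fun j => D.τ m j < s),
        (closedBall (D.ctr i0 i1 (m, j)) (D.r m)).indicator (fun _ => D.coef c w (m, j)) ξ := by
    intro ξ
    by_cases hξ : ∃ i : ℕ × ℤ, i.2 ∈ D.F i.1 ∧ ξ ∈ closedBall (D.ctr i0 i1 i) (D.r i.1)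
    · obtain ⟨i, hiF, hi⟩ := hξ
      have hp := hqv i hiF ξ hi
      have hms' : ∀ s', s' ≤ D.M m → (ξ ∈ ({ξ | ‖ξ‖ + q ξ ≤ D.rad m s'} : Set (E n)) ↔
          (i.1 < m ∨ (i.1 = m ∧ D.τ m i.2 < s'))) := by
        intro s' hs'
        rw [← D.v_le_rad hiF hs', ← hp]
        rfl
      by_cases him : i.1 = m
      · obtain ⟨m', j'⟩ := i
        simp only at him hiF hi hp hms'
        subst him
        have h0 : ξ ∉ ({ξ | ‖ξ‖ + q ξ ≤ D.rad m' 0} : Set (E n)) := by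
          rw [hms' 0 (Nat.zero_le _)]
          omega
        rw [indicator_of_notMem h0, sub_zero]
        by_cases hτ : D.τ m' j' < s
        · have h1 : ξ ∈ ({ξ | ‖ξ‖ + q ξ ≤ D.rad m' s} : Set (E n)) := by
            rw [hms' s hs]
            exact Or.inr ⟨rfl, hτ⟩
          rw [indicator_of_mem h1, hG1 _ ξ hi, Finset.sum_eq_single j']
          · rw [indicator_of_mem hi]
          · intro j hj hne
            refine indicator_of_notMem (fun h2 => hne ?_) _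
            have := huniq (m', j) (m', j') ξ h2 hi
            exact (Prod.mk.inj this).2
          · intro h2
            exact absurd (Finset.mem_filter.2 ⟨hiF, hτ⟩) h2
        · have h1 : ξ ∉ ({ξ | ‖ξ‖ + q ξ ≤ D.rad m' s} : Set (E n)) := by
            rw [hms' s hs]
            omega
          rw [indicator_of_notMem h1]
          symm
          refine Finset.sum_eq_zero fun j hj => ?_
          refine indicator_of_notMem (fun h2 => hτ ?_) _
          have := huniq (m', j) (m', j') ξ h2 hi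
          rw [← (Prod.mk.inj this).2]
          exact (Finset.mem_filter.1 hj).2
      · have h1 : (ξ ∈ ({ξ | ‖ξ‖ + q ξ ≤ D.rad m s} : Set (E n)) ↔
            ξ ∈ ({ξ | ‖ξ‖ + q ξ ≤ D.rad m 0} : Set (E n))) := by
          rw [hms' s hs, hms' 0 (Nat.zero_le _)]
          constructor
          · rintro (h2 | h2)
            · exact Or.inl h2
            · exact absurd h2.1 him
          · rintro (h2 | h2)
            · exact Or.inl h2
            · exact absurd h2.1 him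
        have h2 : ({ξ | ‖ξ‖ + q ξ ≤ D.rad m s} : Set (E n)).indicator G ξ =
            ({ξ | ‖ξ‖ + q ξ ≤ D.rad m 0} : Set (E n)).indicator G ξ := by
          by_cases h3 : ξ ∈ ({ξ | ‖ξ‖ + q ξ ≤ D.rad m 0} : Set (E n))
          · rw [indicator_of_mem h3, indicator_of_mem (h1.2 h3)]
          · rw [indicator_of_notMem h3, indicator_of_notMem (fun h4 => h3 (h1.1 h4))]
        rw [h2, sub_self]
        symm
        refine Finset.sum_eq_zero fun j _ => ?_
        refine indicator_of_notMem (fun h3 => him ?_) _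
        have := huniq (m, j) i ξ h3 hi
        rw [← this]
    · have hGz : G ξ = 0 := by
        by_cases h1 : ∃ i : ℕ × ℤ, ξ ∈ closedBall (D.ctr i0 i1 i) (D.r i.1)
        · obtain ⟨i, hi⟩ := h1
          rw [hG1 i ξ hi]
          unfold coef
          rw [if_neg (fun h2 => hξ ⟨i, h2, hi⟩)]
        · push Not at h1
          exact hG0 ξ h1
      have h2 : ∀ S : Set (E n), S.indicator G ξ = 0 := by
        intro S
        by_cases h3 : ξ ∈ S
        · rw [indicator_of_mem h3, hGz]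
        · rw [indicator_of_notMem h3]
      rw [h2, h2, sub_zero]
      symm
      refine Finset.sum_eq_zero fun j hj => ?_
      refine indicator_of_notMem (fun h3 => hξ ⟨(m, j), ?_, h3⟩) _
      exact (Finset.mem_filter.1 hj).1
  rw [layer_diff (hms _) (hms _) (hbd _) (hbd _) hG _ (fun j => D.ctr i0 i1 (m, j)) (D.r m)
    (fun j => D.coef c w (m, j)) key x]
  congr 1
  rw [Finset.mul_sum]
  refine Finset.sum_congr rfl fun j hj => ?_
  have hjF := (Finset.mem_filter.1 hj).1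
  have h1 : D.coef c w (m, j) = (w m : ℂ) * c m j := by
    unfold coef
    exact if_pos hjF
  have h2 : (⟪x, D.ctr i0 i1 (m, j)⟫ : ℝ) = 8 * j * x i0 + D.k m * x i1 := cen_inner _ _ _ _ _
  rw [h1, h2, fourier_coe_apply]
  have h3 : Complex.exp (2 * Real.pi * Complex.I * ((8 * j * x i0 + D.k m * x i1 : ℝ) : ℂ)) =
      Complex.exp (2 * Real.pi * Complex.I * ((D.k m * x i1 : ℝ) : ℂ)) *
      Complex.exp (2 * Real.pi * Complex.I * j * ((8 * x i0 : ℝ) : ℂ) / ((1 : ℝ) : ℂ)) := by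
    rw [← Complex.exp_add]
    congr 1
    push_cast
    ring
  rw [h3]
  ring

end Data

theorem norm_exp_two_pi (t : ℝ) : ‖Complex.exp (2 * Real.pi * Complex.I * ((t : ℝ) : ℂ))‖ = 1 := by
  have : (2 * Real.pi * Complex.I * ((t : ℝ) : ℂ)) = ((2 * Real.pi * t : ℝ) : ℂ) * Complex.I := by
    push_cast
    ring
  rw [this, Complex.norm_exp_ofReal_mul_I]

/-- DIVERGENCE -/
theorem diverge (hr : S_rearr) (hn : 2 ≤ n) {ε : ℝ} (hε : 0 < ε) (hε1 : ε ≤ 1) :
    ∃ q : E n → ℝ, LipschitzWith 1 q ∧ (∀ ξ, |q ξ| ≤ ε) ∧ Tendsto q (cocompact (E n)) (𝓝 0) ∧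
      ∃ G : E n → ℂ, MemLp G 2 volume ∧ ∀ᵐ x : E n, ∀ B : ℝ, ∃ R : ℝ, B ≤ R ∧
        B ≤ ‖I {ξ | ‖ξ‖ + q ξ ≤ R} G x‖ := by
  classical
  set i0 : Fin n := ⟨0, by omega⟩ with hi0
  set i1 : Fin n := ⟨1, by omega⟩ with hi1
  have hne : i0 ≠ i1 := by
    intro h
    have := congrArg Fin.val h
    simp [hi0, hi1] at this
  set δ : ℕ → ℝ := fun m => ε / (m + 1) with hδdef
  have hδpos : ∀ m, 0 < δ m := fun m => by
    simp only [hδdef]
    positivity
  have hδε : ∀ m, δ m ≤ ε := fun m => by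
    simp only [hδdef]
    rw [div_le_iff₀ (by positivity)]
    have : (0 : ℝ) ≤ m := Nat.cast_nonneg m
    nlinarith
  set b : ℕ → ℝ := fun m => (volume (closedBall (0 : E n) (δ m / 6))).toReal with hbdef
  have hb : ∀ m, 0 < b m := fun m => by
    simp only [hbdef]
    refine ENNReal.toReal_pos ?_ measure_closedBall_lt_top.ne
    have := hδpos m
    exact (measure_closedBall_pos volume _ (by positivity)).ne'
  choose F c τ M Bad h1 h2 h3 h4 h5 using fun m : ℕ =>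
    hr (4 * ((m : ℝ) + 1) * 2 ^ m / √(b m)) ((1 / 2) ^ m) (by positivity)
  set D : Data := ⟨δ, F, τ, M, hδpos, fun m => (hδε m).trans hε1, h1⟩ with hD
  obtain ⟨q, hqL, hqε, hq0, hqv⟩ := D.exists_q i0 i1 hne hε.le hδε (by
    have h6 : Tendsto (fun m : ℕ => ε / ((m : ℝ) + 1)) atTop (𝓝 0) :=
      tendsto_const_nhds.div_atTop (tendsto_atTop_add_const_right _ _ tendsto_natCast_atTop_atTop)
    exact h6)
  refine ⟨q, hqL, hqε, hq0, ?_⟩
  set w : ℕ → ℝ := fun m => (1 / 2) ^ m / √(b m) with hw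
  have hwpos : ∀ m, 0 < w m := fun m => by
    simp only [hw]
    have := hb m
    positivity
  have hwv : ∀ m, w m ^ 2 * (volume (closedBall (0 : E n) (D.r m))).toReal ≤ (1 / 4) ^ m := by
    intro m
    have h6 : (volume (closedBall (0 : E n) (D.r m))).toReal = b m := rfl
    have h7 := hb m
    rw [h6]
    simp only [hw]
    rw [div_pow, Real.sq_sqrt h7.le, div_mul_cancel₀ _ h7.ne', ← pow_mul, mul_comm m 2, pow_mul]
    norm_num
  obtain ⟨G, hG, hG1, hG0⟩ := glue_G (fun i : ℕ × ℤ => closedBall (D.ctr i0 i1 i) (D.r i.1))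
    (fun i => measurableSet_closedBall) (D.disj i0 i1 hne) (D.coef c w)
    (D.sum_fin i0 i1 c w h2 hwv)
  refine ⟨G, hG, ?_⟩
  have hBC : volume {t | ∃ᶠ m in atTop, t ∈ Bad m} = 0 := by
    refine measure_setOfPred_frequently_eq_zero (p := fun m t => t ∈ Bad m) ?_
    have h6 : ∑' m, (volume {t | t ∈ Bad m}) ≤ ∑' m : ℕ, ENNReal.ofReal (1 / 2) ^ m := by
      refine ENNReal.tsum_le_tsum fun m => ?_
      rw [← ENNReal.ofReal_pow (by norm_num)]
      exact h4 m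
    refine (h6.trans_lt ?_).ne
    rw [ENNReal.tsum_geometric]
    refine ENNReal.inv_lt_top.2 ?_
    rw [tsub_pos_iff_lt]
    exact ENNReal.ofReal_lt_one.2 (by norm_num)
  filter_upwards [pull i0 hBC] with x hx
  intro B
  have hx' : ∀ᶠ m in atTop, ((8 * x i0 : ℝ) : UnitAddCircle) ∉ Bad m := by
    simpa using hx
  have hbig : ∀ᶠ m : ℕ in atTop, max B ‖x‖ ≤ m :=
    (tendsto_natCast_atTop_atTop (R := ℝ)).eventually (eventually_ge_atTop _)
  obtain ⟨m, hmB, hmx⟩ := (hx'.and hbig).exists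
  obtain ⟨s, hs, hK⟩ := h5 m _ hmB
  have hform := D.diff_formula i0 i1 hne hqL.continuous hqε hqv c w hG hG1 hG0 (m := m) hs x
  have hPhi : b m / 2 ≤ ‖Phi (D.r m) x‖ := by
    refine Phi_lower ?_
    have h6 : ‖x‖ ≤ m := (le_max_right _ _).trans hmx
    change ‖x‖ * (ε / (m + 1) / 6) ≤ 1 / 6
    have h8 : ‖x‖ * (ε / (m + 1) / 6) = (‖x‖ / (m + 1)) * ε / 6 := by ring
    rw [h8]
    have h9 : ‖x‖ / (m + 1) ≤ 1 := by
      rw [div_le_one (by positivity)]
      linarith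
    have h10 : 0 ≤ ‖x‖ / (m + 1) := by positivity
    have h11 : ‖x‖ / (m + 1) * ε ≤ 1 * 1 := mul_le_mul h9 hε1 hε.le (by norm_num)
    linarith
  have hlow : 2 * ((m : ℝ) + 1) ≤
      ‖I {ξ | ‖ξ‖ + q ξ ≤ D.rad m s} G x - I {ξ | ‖ξ‖ + q ξ ≤ D.rad m 0} G x‖ := by
    rw [hform, norm_mul, norm_mul, norm_mul, norm_exp_two_pi, mul_one, Complex.norm_real,
      Real.norm_eq_abs, abs_of_pos (hwpos m)]
    have hbm := hb m
    have hsq : √(b m) * √(b m) = b m := Real.mul_self_sqrt hbm.le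
    have hspos : 0 < √(b m) := Real.sqrt_pos.2 hbm
    calc 2 * ((m : ℝ) + 1) = w m * (4 * ((m : ℝ) + 1) * 2 ^ m / √(b m)) * (b m / 2) := by
          simp only [hw]
          have h2m : (1 / 2 : ℝ) ^ m * 2 ^ m = 1 := by
            rw [← mul_pow]
            norm_num
          have h12 : (1 / 2 : ℝ) ^ m / √(b m) * (4 * ((m : ℝ) + 1) * 2 ^ m / √(b m)) * (b m / 2) =
              ((1 / 2 : ℝ) ^ m * 2 ^ m) * (4 * ((m : ℝ) + 1)) * (b m / (√(b m) * √(b m))) / 2 := by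
            field_simp
          rw [h12, h2m, hsq, div_self hbm.ne']
          ring
      _ ≤ w m * ‖∑ j ∈ (F m).filter (fun j => τ m j < s),
          c m j * fourier j ((8 * x i0 : ℝ) : UnitAddCircle)‖ * ‖Phi (D.r m) x‖ := by
          have := hwpos m
          gcongr
  have htri : ‖I {ξ | ‖ξ‖ + q ξ ≤ D.rad m s} G x - I {ξ | ‖ξ‖ + q ξ ≤ D.rad m 0} G x‖ ≤
      ‖I {ξ | ‖ξ‖ + q ξ ≤ D.rad m s} G x‖ + ‖I {ξ | ‖ξ‖ + q ξ ≤ D.rad m 0} G x‖ := norm_sub_le _ _
  have hBm : B ≤ m := (le_max_left _ _).trans hmx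
  rcases le_total ((m : ℝ) + 1) ‖I {ξ | ‖ξ‖ + q ξ ≤ D.rad m s} G x‖ with h6 | h6
  · exact ⟨D.rad m s, hBm.trans (D.rad_ge m s), by linarith⟩
  · exact ⟨D.rad m 0, hBm.trans (D.rad_ge m 0), by linarith⟩

end Pool.Agent.H311.BP
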