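import Pool.Agent.H311.BP.Coarse

set_option autoImplicit false

open MeasureTheory Metric Set Filter Topology
open scoped ENNReal NNReal Real RealInnerProductSpace

namespace Pool.Agent.H311.BP

variable {n : ℕ}

/-- gluing Lipschitz functions with far apart supports -/
theorem glue_lip {ι : Type*} (ctr : ι → E n) (h : ι → E n → ℝ)
    (hL : ∀ i, LipschitzWith 1 (h i)) (h0 : ∀ i ξ, 2 < ‖ξ - ctr i‖ → h i ξ = 0)
    (hb : ∀ i ξ, |h i ξ| ≤ 1) (hsep : ∀ i i', i ≠ i' → 8 ≤ ‖ctr i - ctr i'‖) :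
    ∃ q : E n → ℝ, LipschitzWith 1 q ∧ (∀ i ξ, ‖ξ - ctr i‖ ≤ 2 → q ξ = h i ξ) ∧
      (∀ ξ, (∀ i, 2 < ‖ξ - ctr i‖) → q ξ = 0) := by
  classical
  have huniq : ∀ ξ i i', ‖ξ - ctr i‖ ≤ 2 → ‖ξ - ctr i'‖ ≤ 2 → i = i' := by
    intro ξ i i' h1 h2
    by_contra hne
    have h3 := hsep i i' hne
    have h4 : ‖ctr i - ctr i'‖ ≤ ‖ξ - ctr i'‖ + ‖ξ - ctr i‖ := by
      have : ctr i - ctr i' = (ξ - ctr i') - (ξ - ctr i) := by abel
      rw [this]
      exact norm_sub_le _ _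
    linarith
  set q : E n → ℝ := fun ξ => if hx : ∃ i, ‖ξ - ctr i‖ ≤ 2 then h hx.choose ξ else 0 with hq
  have q1 : ∀ i ξ, ‖ξ - ctr i‖ ≤ 2 → q ξ = h i ξ := by
    intro i ξ hi
    have hx : ∃ i, ‖ξ - ctr i‖ ≤ 2 := ⟨i, hi⟩
    simp only [hq]
    rw [dif_pos hx, huniq ξ _ _ hx.choose_spec hi]
  have q0 : ∀ ξ, (∀ i, 2 < ‖ξ - ctr i‖) → q ξ = 0 := by
    intro ξ hi
    have hx : ¬ ∃ i, ‖ξ - ctr i‖ ≤ 2 := by
      rintro ⟨i, h1⟩
      exact absurd h1 (not_le.2 (hi i))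
    simp only [hq]
    rw [dif_neg hx]
  refine ⟨q, ?_, q1, q0⟩
  -- at every point the function is one of the functions
  have hval : ∀ i ξ, (∀ i', ‖ξ - ctr i'‖ ≤ 2 → i' = i) → q ξ = h i ξ := by
    intro i ξ hi
    by_cases h1 : ‖ξ - ctr i‖ ≤ 2
    · exact q1 i ξ h1
    · rw [h0 i ξ (not_le.1 h1)]
      refine q0 ξ fun i' => ?_
      by_contra h2
      push Not at h2
      exact h1 ((hi i' h2) ▸ h2)
  refine LipschitzWith.of_dist_le_mul fun ξ η => ?_
  rw [Real.dist_eq, NNReal.coe_one, one_mul]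
  have hlip : ∀ i, |h i ξ - h i η| ≤ dist ξ η := by
    intro i
    have := (hL i).dist_le_mul ξ η
    rwa [Real.dist_eq, NNReal.coe_one, one_mul] at this
  by_cases hξ : ∃ i, ‖ξ - ctr i‖ ≤ 2
  · obtain ⟨i, hi⟩ := hξ
    by_cases hη : ∃ i', ‖η - ctr i'‖ ≤ 2
    · obtain ⟨i', hi'⟩ := hη
      by_cases hii : i = i'
      · subst hii
        rw [q1 i ξ hi, q1 i η hi']
        exact hlip i
      · have h3 := hsep i i' hii
        have h4 : ‖ctr i - ctr i'‖ ≤ ‖ξ - ctr i‖ + ‖ξ - η‖ + ‖η - ctr i'‖ := by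
          have : ctr i - ctr i' = -(ξ - ctr i) + (ξ - η) + (η - ctr i') := by abel
          rw [this]
          refine (norm_add_le _ _).trans (add_le_add ((norm_add_le _ _).trans ?_) le_rfl)
          rw [norm_neg]
        rw [q1 i ξ hi, q1 i' η hi', dist_eq_norm]
        have h5 := abs_le.1 (hb i ξ)
        have h6 := abs_le.1 (hb i' η)
        rw [abs_le]
        constructor <;> linarith
    · push Not at hη
      rw [q1 i ξ hi, q0 η hη, ← h0 i η (hη i)]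
      exact hlip i
  · push Not at hξ
    rw [q0 ξ hξ]
    by_cases hη : ∃ i', ‖η - ctr i'‖ ≤ 2
    · obtain ⟨i', hi'⟩ := hη
      rw [q1 i' η hi', ← h0 i' ξ (hξ i')]
      exact hlip i'
    · push Not at hη
      rw [q0 η hη]
      simp

/-- gluing constants on disjoint balls -/
theorem glue_G {ι : Type*} [Countable ι] (Q : ι → Set (E n)) (hQ : ∀ i, MeasurableSet (Q i))
    (hd : ∀ i i', i ≠ i' → Disjoint (Q i) (Q i')) (a : ι → ℂ)
    (hfin : ∑' i, ‖a i‖ₑ ^ 2 * volume (Q i) < ∞) :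
    ∃ G : E n → ℂ, MemLp G 2 volume ∧ (∀ i, ∀ ξ ∈ Q i, G ξ = a i) ∧
      (∀ ξ, (∀ i, ξ ∉ Q i) → G ξ = 0) := by
  classical
  set G : E n → ℂ := fun ξ => if hx : ∃ i, ξ ∈ Q i then a hx.choose else 0 with hG
  have G1 : ∀ i, ∀ ξ ∈ Q i, G ξ = a i := by
    intro i ξ hi
    have hx : ∃ i, ξ ∈ Q i := ⟨i, hi⟩
    simp only [hG]
    rw [dif_pos hx]
    by_cases h : hx.choose = i
    · rw [h]
    · exact absurd hi (Set.disjoint_left.1 (hd _ _ h) hx.choose_spec)
  have G0 : ∀ ξ, (∀ i, ξ ∉ Q i) → G ξ = 0 := by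
    intro ξ hi
    have hx : ¬ ∃ i, ξ ∈ Q i := by
      rintro ⟨i, h1⟩
      exact hi i h1
    simp only [hG]
    rw [dif_neg hx]
  have hmeas : Measurable G := by
    intro s hs
    have : G ⁻¹' s = (⋃ i ∈ {i | a i ∈ s}, Q i) ∪ (if (0 : ℂ) ∈ s then (⋃ i, Q i)ᶜ else ∅) := by
      ext ξ
      simp only [mem_preimage, mem_union, mem_iUnion, exists_prop]
      by_cases hx : ∃ i, ξ ∈ Q i
      · obtain ⟨i, hi⟩ := hx
        rw [G1 i ξ hi]
        constructor
        · intro h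
          exact Or.inl ⟨i, h, hi⟩
        · rintro (⟨i', h, hi'⟩ | h)
          · rw [← G1 i ξ hi, G1 i' ξ hi']
            exact h
          · exfalso
            split_ifs at h
            · exact h (mem_iUnion.2 ⟨i, hi⟩)
            · exact h
      · push Not at hx
        rw [G0 ξ hx]
        constructor
        · intro h
          right
          rw [if_pos h]
          intro h2
          obtain ⟨i, hi⟩ := mem_iUnion.1 h2
          exact hx i hi
        · rintro (⟨i', h, hi'⟩ | h)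
          · exact absurd hi' (hx i')
          · by_contra h2
            rw [if_neg h2] at h
            exact h
    rw [this]
    refine MeasurableSet.union (MeasurableSet.biUnion (Set.to_countable _) fun i _ => hQ i) ?_
    split_ifs
    · exact (MeasurableSet.iUnion hQ).compl
    · exact MeasurableSet.empty
  refine ⟨G, ⟨hmeas.aestronglyMeasurable, ?_⟩, G1, G0⟩
  have h4 := eLpNorm_nnreal_pow_eq_lintegral (f := G) (μ := (volume : Measure (E n))) (p := 2)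
    two_ne_zero
  have h5 : eLpNorm G 2 volume ^ 2 = ∫⁻ ξ, ‖G ξ‖ₑ ^ 2 := by simpa using h4
  have h6 : ∫⁻ ξ, ‖G ξ‖ₑ ^ 2 < ∞ := by
    have h7 : ∫⁻ ξ, ‖G ξ‖ₑ ^ 2 = ∫⁻ ξ in ⋃ i, Q i, ‖G ξ‖ₑ ^ 2 := by
      rw [← lintegral_indicator (MeasurableSet.iUnion hQ)]
      refine lintegral_congr fun ξ => ?_
      by_cases hx : ξ ∈ ⋃ i, Q i
      · rw [indicator_of_mem hx]
      · rw [indicator_of_notMem hx, G0 ξ (fun i hi => hx (mem_iUnion.2 ⟨i, hi⟩))]
        simp
    rw [h7, lintegral_iUnion hQ (fun i j hij => hd i j hij)]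
    refine lt_of_eq_of_lt (tsum_congr fun i => ?_) hfin
    rw [setLIntegral_congr_fun (g := fun _ => ‖a i‖ₑ ^ 2) (hQ i)]
    · simp
    · intro ξ hξ
      simp only [G1 i ξ hξ]
  rw [← h5] at h6
  by_contra h8
  have h9 : eLpNorm G 2 volume = ∞ := not_lt_top_iff.1 h8
  rw [h9] at h6
  simp at h6

end Pool.Agent.H311.BP
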