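import Pool.Agent.H311.BP.Defs
import Pool.Graph.R_pool_sql_team_seeded_2aa45f1a.Q302.BS.Local

/-!
# (A2) The local `L²` bound
-/

set_option autoImplicit false

open MeasureTheory Metric Set Filter Topology
open scoped ENNReal NNReal Real RealInnerProductSpace

namespace Pool.Agent.H311.BP

namespace LocalAux

open Pool.Agent.Q302.BS (gw ex IF measurable_gw norm_ex continuous_ex)

/-- a wider Gaussian -/
noncomputable def gh {n : ℕ} (x : E n) : ℝ≥0∞ := ENNReal.ofReal (Real.exp (-(π / 2) * ‖x‖ ^ 2))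

lemma measurable_gh {n : ℕ} : Measurable (gh (n := n)) := by
  unfold gh
  fun_prop

lemma gh_fin {n : ℕ} : ∫⁻ x : E n, gh x ≠ ∞ := by
  have hint : Integrable fun x : E n => Real.exp (-(π / 2) * ‖x‖ ^ 2) := by
    by_contra h
    have hp : (0 : ℝ) < π / 2 := by positivity
    have h1 := GaussianFourier.integral_rexp_neg_mul_sq_norm (V := E n) hp
    rw [integral_undef h] at h1
    have h2 : (0 : ℝ) < (π / (π / 2)) ^ ((Module.finrank ℝ (E n) : ℝ) / 2) := by positivity
    exact h2.ne h1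
  unfold gh
  rw [← ofReal_integral_eq_lintegral_ofReal hint (Eventually.of_forall fun x => (Real.exp_pos _).le)]
  exact ENNReal.ofReal_ne_top

/-- the normalising constant -/
noncomputable def c1 (n : ℕ) : ℝ≥0∞ := ENNReal.ofReal (Real.exp (-π)) * volume (ball (0 : E n) 1)

lemma c1_ne_zero (n : ℕ) : c1 n ≠ 0 := by
  unfold c1
  refine mul_ne_zero ?_ ?_
  · rw [Ne, ENNReal.ofReal_eq_zero, not_le]
    exact Real.exp_pos _
  · exact (measure_ball_pos volume _ one_pos).ne'

lemma c1_ne_top (n : ℕ) : c1 n ≠ ∞ :=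
  ENNReal.mul_ne_top ENNReal.ofReal_ne_top measure_ball_lt_top.ne

lemma gw_le {n : ℕ} (z : E n) : c1 n * gw z ≤ ∫⁻ y in ball z 1, gh y := by
  have h1 : ∫⁻ _ in ball z 1, ENNReal.ofReal (Real.exp (-π)) * gw z = c1 n * gw z := by
    rw [setLIntegral_const, Measure.addHaar_ball_center volume z 1]
    unfold c1
    ring
  rw [← h1]
  refine setLIntegral_mono measurable_gh fun y hy => ?_
  unfold gw gh
  rw [← ENNReal.ofReal_mul (Real.exp_pos _).le, ← Real.exp_add]
  refine ENNReal.ofReal_le_ofReal (Real.exp_le_exp.2 ?_)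
  have h2 : ‖y‖ ≤ ‖z‖ + 1 := by
    rw [mem_ball, dist_eq_norm] at hy
    have := norm_le_norm_add_norm_sub' y z
    linarith
  have h3 : ‖y‖ ^ 2 ≤ (‖z‖ + 1) ^ 2 := pow_le_pow_left₀ (norm_nonneg _) h2 2
  have h4 : ‖y‖ ^ 2 / 2 ≤ ‖z‖ ^ 2 + 1 := by nlinarith [sq_nonneg (‖z‖ - 1)]
  have h5 := mul_le_mul_of_nonneg_left h4 Real.pi_pos.le
  nlinarith

lemma mass_le {n : ℕ} (A : Set (E n)) (hA : MeasurableSet A) (M : ℝ≥0∞)
    (hM : ∀ ζ, volume (A ∩ ball ζ 1) ≤ M) (ξ : E n) :
    c1 n * ∫⁻ η in A, gw (ξ - η) ≤ M * ∫⁻ y : E n, gh y := by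
  have hmg : Measurable fun η : E n => gw (ξ - η) :=
    measurable_gw.comp (measurable_const.sub measurable_id)
  rw [← lintegral_const_mul _ hmg]
  have hS : MeasurableSet {p : E n × E n | dist p.2 (ξ - p.1) < 1} := by
    refine (isOpen_lt ?_ continuous_const).measurableSet
    exact continuous_snd.dist (continuous_const.sub continuous_fst)
  have hF : Measurable (fun p : E n × E n =>
      {p : E n × E n | dist p.2 (ξ - p.1) < 1}.indicator (fun p => gh p.2) p) :=
    (measurable_gh.comp measurable_snd).indicator hS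
  calc ∫⁻ η in A, c1 n * gw (ξ - η) ≤ ∫⁻ η in A, ∫⁻ y in ball (ξ - η) 1, gh y :=
        lintegral_mono fun η => gw_le (ξ - η)
    _ = ∫⁻ η in A, ∫⁻ y, {p : E n × E n | dist p.2 (ξ - p.1) < 1}.indicator
          (fun p => gh p.2) (η, y) := by
        refine lintegral_congr fun η => ?_
        rw [← lintegral_indicator measurableSet_ball]
        refine lintegral_congr fun y => ?_
        rfl
    _ = ∫⁻ y, ∫⁻ η in A, {p : E n × E n | dist p.2 (ξ - p.1) < 1}.indicator
          (fun p => gh p.2) (η, y) := by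
        rw [lintegral_lintegral_swap]
        exact hF.aemeasurable
    _ ≤ ∫⁻ y, M * gh y := by
        refine lintegral_mono fun y => ?_
        have h1 : ∀ η : E n, {p : E n × E n | dist p.2 (ξ - p.1) < 1}.indicator
            (fun p => gh p.2) (η, y) = (ball (ξ - y) 1).indicator (fun _ => gh y) η := by
          intro η
          have h2 : ((η, y) ∈ {p : E n × E n | dist p.2 (ξ - p.1) < 1}) ↔ η ∈ ball (ξ - y) 1 := by
            rw [mem_ball]
            show dist y (ξ - η) < 1 ↔ _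
            rw [dist_eq_norm, dist_eq_norm]
            have : y - (ξ - η) = η - (ξ - y) := by abel
            rw [this]
          by_cases h : η ∈ ball (ξ - y) 1
          · rw [indicator_of_mem h, indicator_of_mem (h2.2 h)]
          · rw [indicator_of_notMem h, indicator_of_notMem (fun h' => h (h2.1 h'))]
        simp only [h1]
        rw [lintegral_indicator measurableSet_ball, Measure.restrict_restrict measurableSet_ball,
          setLIntegral_const, inter_comm, mul_comm]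
        exact mul_le_mul_left (hM _) _
    _ = M * ∫⁻ y : E n, gh y := lintegral_const_mul _ measurable_gh

end LocalAux

open LocalAux
open Pool.Agent.Q302.BS (gw ex IF measurable_gw norm_ex continuous_ex)

theorem local_bound : S_local := by
  intro n ρ
  have hfin : (c1 n)⁻¹ * ∫⁻ y : E n, gh y ≠ ∞ :=
    ENNReal.mul_ne_top (ENNReal.inv_ne_top.2 (c1_ne_zero n)) gh_fin
  set C : ℝ≥0 := ((c1 n)⁻¹ * ∫⁻ y : E n, gh y).toNNReal with hC
  have hC' : (C : ℝ≥0∞) = (c1 n)⁻¹ * ∫⁻ y : E n, gh y := ENNReal.coe_toNNReal hfin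
  set C' : ℝ≥0 := (Real.exp (π * ρ ^ 2)).toNNReal with hC'd
  refine ⟨C' * C, fun x₀ A G M hA hAb hG hM => ?_⟩
  -- a finite bound
  have hAfin : volume A ≠ ∞ := hAb.measure_lt_top.ne
  set M' : ℝ≥0∞ := min M (volume A) with hM'
  have hM'fin : M' ≠ ∞ := ((min_le_right _ _).trans_lt hAfin.lt_top).ne
  have hM2 : ∀ ζ, volume (A ∩ ball ζ 1) ≤ M' := fun ζ =>
    le_min (hM ζ) (measure_mono inter_subset_left)
  set Mn : ℝ≥0 := M'.toNNReal with hMn
  have hMn' : (Mn : ℝ≥0∞) = M' := ENNReal.coe_toNNReal hM'fin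
  have hK : ∀ ξ : E n, ∫⁻ η in A, gw (ξ - η) ≤ ((C * Mn : ℝ≥0) : ℝ≥0∞) := by
    intro ξ
    have h1 := mass_le A hA M' hM2 ξ
    have h2 : ∫⁻ η in A, gw (ξ - η) = (c1 n)⁻¹ * (c1 n * ∫⁻ η in A, gw (ξ - η)) := by
      rw [← mul_assoc, ENNReal.inv_mul_cancel (c1_ne_zero n) (c1_ne_top n), one_mul]
    rw [h2, ENNReal.coe_mul, hC', hMn']
    calc (c1 n)⁻¹ * (c1 n * ∫⁻ η in A, gw (ξ - η)) ≤ (c1 n)⁻¹ * (M' * ∫⁻ y : E n, gh y) :=
          mul_le_mul_right h1 _
      _ = (c1 n)⁻¹ * (∫⁻ y : E n, gh y) * M' := by ring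
  -- the function
  set g : E n → ℂ := A.indicator (fun ξ => ex x₀ ξ * G ξ) with hg
  have hGA : IntegrableOn G A := by
    have : IsFiniteMeasure (volume.restrict A) := ⟨by
      rw [Measure.restrict_apply_univ]
      exact hAfin.lt_top⟩
    exact (hG.restrict A).integrable one_le_two
  have hcx : Continuous fun ξ : E n => ex x₀ ξ :=
    continuous_ex.comp (Continuous.prodMk continuous_const continuous_id)
  have hgi : Integrable g := by
    rw [hg, integrable_indicator_iff hA]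
    refine Integrable.bdd_mul (c := 1) hGA hcx.aestronglyMeasurable ?_
    exact Eventually.of_forall fun ξ => (norm_ex _ _).le
  have hgA : ∀ ξ ∉ A, g ξ = 0 := fun ξ hξ => indicator_of_notMem hξ _
  have hIF : ∀ x : E n, IF g (x - x₀) = I A G x := by
    intro x
    unfold IF I
    rw [← integral_indicator hA]
    refine integral_congr_ae (Eventually.of_forall fun ξ => ?_)
    by_cases hξ : ξ ∈ A
    · simp only [hg, indicator_of_mem hξ]
      have h1 : ex x₀ ξ * ex (x - x₀) ξ =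
          Complex.exp (2 * Real.pi * Complex.I * ((⟪x, ξ⟫ : ℝ) : ℂ)) := by
        unfold ex
        rw [← Complex.exp_add, inner_sub_left]
        congr 1
        push_cast
        ring
      rw [← h1]
      ring
    · simp only [hg, indicator_of_notMem hξ, zero_mul]
  have hmain := Pool.Agent.Q302.BS.local_bound g hgi A hA hgA (C * Mn) hK
  have hgG : ∫⁻ ξ, ‖g ξ‖ₑ ^ 2 = ∫⁻ ξ in A, ‖G ξ‖ₑ ^ 2 := by
    rw [← lintegral_indicator hA]
    refine lintegral_congr fun ξ => ?_
    by_cases hξ : ξ ∈ A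
    · simp only [hg, indicator_of_mem hξ]
      rw [enorm_mul]
      have : ‖ex x₀ ξ‖ₑ = 1 := by
        rw [← ofReal_norm, norm_ex, ENNReal.ofReal_one]
      rw [this, one_mul]
    · simp only [hg, indicator_of_notMem hξ]
      simp
  rw [hgG] at hmain
  have htr : ∫⁻ x : E n, gw (x - x₀) * ‖IF g (x - x₀)‖ₑ ^ 2 = ∫⁻ x, gw x * ‖IF g x‖ₑ ^ 2 :=
    lintegral_sub_right_eq_self (fun x => gw x * ‖IF g x‖ₑ ^ 2) x₀
  have hCne : (C' : ℝ≥0∞) ≠ ∞ := ENNReal.coe_ne_top
  calc ∫⁻ x in closedBall x₀ ρ, ‖I A G x‖ₑ ^ 2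
      = ∫⁻ x, (closedBall x₀ ρ).indicator (fun x => ‖I A G x‖ₑ ^ 2) x :=
        (lintegral_indicator measurableSet_closedBall _).symm
    _ ≤ ∫⁻ x, (C' : ℝ≥0∞) * (gw (x - x₀) * ‖IF g (x - x₀)‖ₑ ^ 2) := by
        refine lintegral_mono fun x => ?_
        by_cases hx : x ∈ closedBall x₀ ρ
        · rw [indicator_of_mem hx, hIF, ← mul_assoc]
          have h1 : 1 ≤ (C' : ℝ≥0∞) * gw (x - x₀) := by
            have h2 : (C' : ℝ≥0∞) = ENNReal.ofReal (Real.exp (π * ρ ^ 2)) := rfl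
            rw [h2]
            unfold gw
            rw [← ENNReal.ofReal_mul (Real.exp_pos _).le, ← Real.exp_add, ENNReal.one_le_ofReal,
              Real.one_le_exp_iff]
            rw [mem_closedBall, dist_eq_norm] at hx
            have h3 : ‖x - x₀‖ ^ 2 ≤ ρ ^ 2 := pow_le_pow_left₀ (norm_nonneg _) hx 2
            nlinarith [Real.pi_pos]
          calc ‖I A G x‖ₑ ^ 2 = 1 * ‖I A G x‖ₑ ^ 2 := (one_mul _).symm
            _ ≤ _ := mul_le_mul_left h1 _
        · rw [indicator_of_notMem hx]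
          exact zero_le
    _ = (C' : ℝ≥0∞) * ∫⁻ x, gw (x - x₀) * ‖IF g (x - x₀)‖ₑ ^ 2 :=
        lintegral_const_mul' _ _ hCne
    _ ≤ (C' : ℝ≥0∞) * (((C * Mn : ℝ≥0) : ℝ≥0∞) * ∫⁻ ξ in A, ‖G ξ‖ₑ ^ 2) := by
        rw [htr]
        exact mul_le_mul_right hmain _
    _ ≤ ((C' * C : ℝ≥0) : ℝ≥0∞) * M * ∫⁻ ξ in A, ‖G ξ‖ₑ ^ 2 := by
        rw [ENNReal.coe_mul, ENNReal.coe_mul, hMn', ← mul_assoc, ← mul_assoc]
        exact mul_le_mul_left (mul_le_mul_right (min_le_left _ _) _) _

end Pool.Agent.H311.BP
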