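import Pool.Agent.H311.BP.Coarse

set_option autoImplicit false

open MeasureTheory Metric Set Filter Topology
open scoped ENNReal NNReal Real RealInnerProductSpace

namespace Pool.Agent.H311.BP

variable {n : ℕ}

theorem enorm_I_le {G : E n → ℂ} {A B : Set (E n)} (hAB : A ⊆ B) (x : E n) :
    ‖I A G x‖ₑ ≤ ∫⁻ ξ in B, ‖G ξ‖ₑ := by
  unfold I
  refine (enorm_integral_le_lintegral_enorm _).trans ?_
  refine (lintegral_mono_set hAB).trans ?_
  refine lintegral_mono fun ξ => ?_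
  rw [enorm_mul]
  have : ‖Complex.exp (2 * Real.pi * Complex.I * ((⟪x, ξ⟫ : ℝ) : ℂ))‖ₑ = 1 := by
    rw [← ofReal_norm, norm_char]
    simp
  rw [this, one_mul]

theorem sq_lintegral_le {G : E n → ℂ} (hG : MemLp G 2 volume) (B : Set (E n)) :
    (∫⁻ ξ in B, ‖G ξ‖ₑ) ^ 2 ≤ volume B * ∫⁻ ξ, ‖G ξ‖ₑ ^ 2 := by
  have h1 := eLpNorm_le_eLpNorm_mul_rpow_measure_univ (μ := volume.restrict B) (f := G)
    (p := 1) (q := 2) (by norm_num) (hG.restrict B).1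
  rw [Measure.restrict_apply_univ] at h1
  have h2 : eLpNorm G 1 (volume.restrict B) = ∫⁻ ξ in B, ‖G ξ‖ₑ := eLpNorm_one_eq_lintegral_enorm
  have h3 : eLpNorm G 2 (volume.restrict B) ^ 2 ≤ ∫⁻ ξ, ‖G ξ‖ₑ ^ 2 := by
    have h4 := eLpNorm_nnreal_pow_eq_lintegral (f := G) (μ := volume.restrict B) (p := 2)
      two_ne_zero
    have h5 : eLpNorm G 2 (volume.restrict B) ^ 2 = ∫⁻ ξ in B, ‖G ξ‖ₑ ^ 2 := by
      simpa using h4
    rw [h5]
    exact setLIntegral_le_lintegral _ _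
  rw [← h2]
  refine (pow_le_pow_left' h1 2).trans ?_
  rw [mul_pow, mul_comm]
  refine mul_le_mul' ?_ h3
  have h6 : (1 / (1 : ℝ≥0∞).toReal - 1 / (2 : ℝ≥0∞).toReal : ℝ) = 1 / 2 := by norm_num
  rw [h6, ← ENNReal.rpow_natCast, ← ENNReal.rpow_mul]
  norm_num

/-- the difference of the two families -/
noncomputable def dif (q : E n → ℝ) (G : E n → ℂ) (R : ℝ) (x : E n) : ℂ :=
  I {ξ | ‖ξ‖ + q ξ ≤ R} G x - I (closedBall 0 R) G x

theorem dif_low {q : E n → ℝ} {c : ℕ} (hc : ∀ ξ, |q ξ| ≤ c) {G : E n → ℂ}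
    (hG : MemLp G 2 volume) {k0 : ℕ} {R : ℝ} (hR : R ≤ k0) (x : E n) :
    ‖dif q G R x‖ₑ ^ 2 ≤ 4 * (volume (closedBall (0 : E n) (k0 + c)) * ∫⁻ ξ, ‖G ξ‖ₑ ^ 2) := by
  have h1 : ‖I {ξ | ‖ξ‖ + q ξ ≤ R} G x‖ₑ ≤ ∫⁻ ξ in closedBall (0 : E n) (k0 + c), ‖G ξ‖ₑ := by
    refine enorm_I_le (fun ξ hξ => ?_) x
    have h1 := abs_le.1 (hc ξ)
    have h2 : ‖ξ‖ + q ξ ≤ R := hξ
    simp only [mem_closedBall, dist_zero_right]
    linarith
  have h2 : ‖I (closedBall 0 R) G x‖ₑ ≤ ∫⁻ ξ in closedBall (0 : E n) (k0 + c), ‖G ξ‖ₑ := by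
    refine enorm_I_le (closedBall_subset_closedBall ?_) x
    have : (0 : ℝ) ≤ c := Nat.cast_nonneg c
    linarith
  have h3 : ‖dif q G R x‖ₑ ≤ 2 * ∫⁻ ξ in closedBall (0 : E n) (k0 + c), ‖G ξ‖ₑ := by
    unfold dif
    refine (enorm_sub_le).trans ?_
    rw [two_mul]
    exact add_le_add h1 h2
  refine (pow_le_pow_left' h3 2).trans ?_
  rw [mul_pow]
  refine mul_le_mul' (by norm_num) (sq_lintegral_le hG _)

theorem dif_high {q : E n → ℝ} {c : ℕ} (hq : Continuous q) (hc : ∀ ξ, |q ξ| ≤ c) {G : E n → ℂ}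
    (hG : MemLp G 2 volume) {k0 : ℕ} {R : ℝ} (hR : (k0 : ℝ) ≤ R) (x : E n) :
    ∃ j : ℕ, j = ⌊R⌋₊ - k0 ∧ ‖dif q G R x‖ₑ ^ 2 ≤ 2 * V q c G (k0 + j) x := by
  refine ⟨⌊R⌋₊ - k0, rfl, ?_⟩
  have h1 : k0 ≤ ⌊R⌋₊ := Nat.le_floor hR
  have h2 : k0 + (⌊R⌋₊ - k0) = ⌊R⌋₊ := by omega
  rw [h2]
  have h0 : (0 : ℝ) ≤ R := le_trans (Nat.cast_nonneg _) hR
  exact diff_le_V hq hc hG ⟨Nat.floor_le h0, (Nat.lt_floor_add_one R).le⟩ x

/-- the window estimates for the two families -/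
theorem window_V (hs : S_strip) (hw : S_window) (n : ℕ) (lam C ρ : ℝ) (h0 : 0 ≤ lam)
    (h1 : lam < 1) :
    ∃ (c k0 : ℕ) (K : ℝ≥0), C ≤ c ∧ ∀ q : E n → ℝ, (∀ ξ η, |q ξ - q η| ≤ lam * ‖ξ - η‖) →
      ∀ G : E n → ℂ, MemLp G 2 volume → ∀ (x₀ : E n) (k : ℕ), k0 ≤ k →
      ∫⁻ x in closedBall x₀ ρ, V q c G k x ≤ K * ∫⁻ ξ in shell n c k, ‖G ξ‖ₑ ^ 2 := by
  obtain ⟨R0, K1, hR0, hK1, hst⟩ := hs n lam h0 h1
  obtain ⟨R0', K1', hR0', hK1', hst'⟩ := hs n 0 le_rfl one_pos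
  obtain ⟨K2, hK2⟩ := hw n ρ (max K1 K1')
  set c := ⌈C⌉₊ with hcdef
  refine ⟨c, ⌈max R0 R0' + 1 + c⌉₊, K2 + K2, Nat.le_ceil C, ?_⟩
  intro q hq G hG x₀ k hk
  have hqc : Continuous q := by
    have : LipschitzWith (Real.toNNReal lam) q := by
      refine LipschitzWith.of_dist_le_mul fun ξ η => ?_
      rw [Real.coe_toNNReal _ h0, Real.dist_eq, dist_eq_norm]
      exact hq ξ η
    exact this.continuous
  have hkr : max R0 R0' + 1 + c ≤ k := (Nat.le_ceil _).trans (by exact_mod_cast hk)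
  -- the strip condition
  have key : ∀ (g : E n → ℝ) (r κ : ℝ), r ≤ max R0 R0' → κ ≤ max K1 K1' →
      (∀ ζ : E n, r ≤ ‖ζ‖ → ∀ a h : ℝ, 0 < h → h ≤ 1 →
      volume ({ξ | a < ‖ξ‖ + g ξ ∧ ‖ξ‖ + g ξ ≤ a + h} ∩ ball ζ 1) ≤ ENNReal.ofReal (κ * h)) →
      ∀ (ζ : E n) (a h : ℝ), 0 < h → h ≤ 1 →
      volume ({ξ | a < ‖ξ‖ + g ξ ∧ ‖ξ‖ + g ξ ≤ a + h} ∩ shell n c k ∩ ball ζ 1) ≤
        ENNReal.ofReal (max K1 K1' * h) := by
    intro g r κ hr hκ hst ζ a h hh hh1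
    by_cases hζ : r ≤ ‖ζ‖
    · refine (measure_mono ?_).trans ((hst ζ hζ a h hh hh1).trans ?_)
      · intro ξ hξ
        exact ⟨hξ.1.1, hξ.2⟩
      · exact ENNReal.ofReal_le_ofReal (mul_le_mul_of_nonneg_right hκ hh.le)
    · have : {ξ | a < ‖ξ‖ + g ξ ∧ ‖ξ‖ + g ξ ≤ a + h} ∩ shell n c k ∩ ball ζ 1 = ∅ := by
        refine eq_empty_of_forall_notMem fun ξ hξ => ?_
        have h2 := hξ.2
        have h3 := hξ.1.2.1
        rw [mem_ball, dist_eq_norm] at h2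
        have h4 : ‖ξ‖ ≤ ‖ξ - ζ‖ + ‖ζ‖ := by
          simpa using norm_add_le (ξ - ζ) ζ
        push Not at hζ
        linarith
      rw [this]
      simp
  have hA := measurableSet_shell (n := n) c k
  have hB := bounded_shell (n := n) c k
  have e1 := hK2 x₀ (fun ξ => ‖ξ‖ + q ξ) (shell n c k) G k (by fun_prop) hA hB hG
    (key q R0 K1 (le_max_left _ _) (le_max_left _ _) (hst q hq))
  have e2 := hK2 x₀ (fun ξ => ‖ξ‖) (shell n c k) G k (by fun_prop) hA hB hG (by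
    have := key (fun _ => 0) R0' K1' (le_max_right _ _) (le_max_right _ _)
      (hst' (fun _ => 0) (by simp))
    simpa using this)
  have hint := integrableOn_of_memLp hG hB
  unfold V
  rw [lintegral_add_left ((measurable_win hint).pow_const 2)]
  push_cast
  rw [add_mul]
  exact add_le_add e1 e2

/-- the sum over the windows -/
theorem sum_V (hs : S_strip) (hw : S_window) (n : ℕ) (lam C ρ : ℝ) (h0 : 0 ≤ lam)
    (h1 : lam < 1) :
    ∃ (c k0 : ℕ) (K : ℝ≥0), C ≤ c ∧ ∀ q : E n → ℝ, (∀ ξ η, |q ξ - q η| ≤ lam * ‖ξ - η‖) →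
      ∀ G : E n → ℂ, MemLp G 2 volume → ∀ (x₀ : E n),
      ∫⁻ x in closedBall x₀ ρ, ∑' j : ℕ, V q c G (k0 + j) x ≤ K * ∫⁻ ξ, ‖G ξ‖ₑ ^ 2 := by
  obtain ⟨c, k0, K, hC, hV⟩ := window_V hs hw n lam C ρ h0 h1
  refine ⟨c, k0, K * (2 * c + 2 : ℕ), hC, ?_⟩
  intro q hq G hG x₀
  rw [lintegral_tsum fun j => (measurable_V hG (k0 + j)).aemeasurable]
  calc ∑' j : ℕ, ∫⁻ x in closedBall x₀ ρ, V q c G (k0 + j) x
      ≤ ∑' j : ℕ, K * ∫⁻ ξ in shell n c (k0 + j), ‖G ξ‖ₑ ^ 2 :=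
        ENNReal.tsum_le_tsum fun j => hV q hq G hG x₀ (k0 + j) (by omega)
    _ = K * ∑' j : ℕ, ∫⁻ ξ in shell n c (k0 + j), ‖G ξ‖ₑ ^ 2 := ENNReal.tsum_mul_left
    _ ≤ K * ∑' k : ℕ, ∫⁻ ξ in shell n c k, ‖G ξ‖ₑ ^ 2 := by
        exact mul_le_mul_right (ENNReal.tsum_comp_le_tsum_of_injective (add_right_injective k0)
          (fun k => ∫⁻ ξ in shell n c k, ‖G ξ‖ₑ ^ 2)) _
    _ = K * ∑' k : ℕ, ∫⁻ ξ, (shell n c k).indicator (fun _ => (1 : ℝ≥0∞)) ξ * ‖G ξ‖ₑ ^ 2 := by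
        congr 1
        refine tsum_congr fun k => ?_
        rw [← lintegral_indicator (measurableSet_shell c k)]
        refine lintegral_congr fun ξ => ?_
        by_cases h : ξ ∈ shell n c k
        · simp [h]
        · simp [h]
    _ = K * ∫⁻ ξ, ∑' k : ℕ, (shell n c k).indicator (fun _ => (1 : ℝ≥0∞)) ξ * ‖G ξ‖ₑ ^ 2 := by
        rw [lintegral_tsum]
        intro k
        refine AEMeasurable.mul ?_ (hG.1.enorm.pow_const 2)
        exact (measurable_const.indicator (measurableSet_shell c k)).aemeasurable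
    _ ≤ K * ∫⁻ ξ, (2 * c + 2 : ℕ) * ‖G ξ‖ₑ ^ 2 := by
        gcongr with ξ
        rw [ENNReal.tsum_mul_right]
        gcongr
        exact tsum_shell_le c ξ
    _ = (K * (2 * c + 2 : ℕ) : ℝ≥0) * ∫⁻ ξ, ‖G ξ‖ₑ ^ 2 := by
        rw [lintegral_const_mul']
        · push_cast
          ring
        · exact ENNReal.natCast_ne_top _

/-- (b) -/
theorem sup_dif (hs : S_strip) (hw : S_window) (n : ℕ) (lam C ρ : ℝ) (h0 : 0 ≤ lam)
    (h1 : lam < 1) :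
    ∃ K : ℝ≥0, ∀ q : E n → ℝ, (∀ ξ, |q ξ| ≤ C) → (∀ ξ η, |q ξ - q η| ≤ lam * ‖ξ - η‖) →
      ∀ G : E n → ℂ, MemLp G 2 volume → ∀ (x₀ : E n),
      ∫⁻ x in closedBall x₀ ρ, (⨆ R : ℝ, ‖dif q G R x‖ₑ) ^ 2 ≤ K * ∫⁻ ξ, ‖G ξ‖ₑ ^ 2 := by
  obtain ⟨c, k0, K, hC, hV⟩ := sum_V hs hw n lam C ρ h0 h1
  have hfin : volume (closedBall (0 : E n) (k0 + c)) < ∞ := measure_closedBall_lt_top
  have hfin2 : volume (closedBall (0 : E n) ρ) < ∞ := measure_closedBall_lt_top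
  refine ⟨2 * K + 4 * (volume (closedBall (0 : E n) (k0 + c))).toNNReal *
    (volume (closedBall (0 : E n) ρ)).toNNReal, ?_⟩
  intro q hqC hq G hG x₀
  have hqc : Continuous q := by
    have : LipschitzWith (Real.toNNReal lam) q := by
      refine LipschitzWith.of_dist_le_mul fun ξ η => ?_
      rw [Real.coe_toNNReal _ h0, Real.dist_eq, dist_eq_norm]
      exact hq ξ η
    exact this.continuous
  have hc : ∀ ξ, |q ξ| ≤ c := fun ξ => (hqC ξ).trans hC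
  have hpt : ∀ x, (⨆ R : ℝ, ‖dif q G R x‖ₑ) ^ 2 ≤ 2 * (∑' j : ℕ, V q c G (k0 + j) x) +
      4 * (volume (closedBall (0 : E n) (k0 + c)) * ∫⁻ ξ, ‖G ξ‖ₑ ^ 2) := by
    intro x
    have h2 : (⨆ R : ℝ, ‖dif q G R x‖ₑ) ^ 2 = ⨆ R : ℝ, ‖dif q G R x‖ₑ ^ 2 := by
      refine Monotone.map_iSup_of_continuousAt (f := fun z : ℝ≥0∞ => z ^ 2) ?_ ?_ ?_
      · exact (ENNReal.continuous_pow 2).continuousAt
      · exact fun a b hab => pow_le_pow_left' hab 2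
      · simp
    rw [h2]
    refine iSup_le fun R => ?_
    rcases le_total R k0 with hR | hR
    · exact (dif_low hc hG hR x).trans le_add_self
    · obtain ⟨j, -, hj⟩ := dif_high hqc hc hG hR x
      refine (hj.trans ?_).trans le_self_add
      gcongr
      exact ENNReal.le_tsum (f := fun j => V q c G (k0 + j) x) j
  refine (lintegral_mono fun x => hpt x).trans ?_
  rw [lintegral_add_right _ measurable_const, lintegral_const,
    lintegral_const_mul' _ _ (by norm_num)]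
  rw [Measure.restrict_apply_univ]
  have hv : volume (closedBall x₀ ρ) = volume (closedBall (0 : E n) ρ) := by
    exact Measure.addHaar_closedBall_center volume x₀ ρ
  rw [hv]
  push_cast
  rw [ENNReal.coe_toNNReal hfin.ne, ENNReal.coe_toNNReal hfin2.ne, add_mul]
  refine add_le_add ?_ (le_of_eq (by ring))
  rw [mul_assoc]
  gcongr
  exact hV q hq G hG x₀

/-- (a) -/
theorem tendsto_dif (hs : S_strip) (hw : S_window) (n : ℕ) (lam C : ℝ) (h0 : 0 ≤ lam)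
    (h1 : lam < 1) (q : E n → ℝ) (hqC : ∀ ξ, |q ξ| ≤ C) (hq : ∀ ξ η, |q ξ - q η| ≤ lam * ‖ξ - η‖)
    (G : E n → ℂ) (hG : MemLp G 2 volume) :
    ∀ᵐ x : E n, Tendsto (fun R : ℝ => dif q G R x) atTop (𝓝 0) := by
  have hqc : Continuous q := by
    have : LipschitzWith (Real.toNNReal lam) q := by
      refine LipschitzWith.of_dist_le_mul fun ξ η => ?_
      rw [Real.coe_toNNReal _ h0, Real.dist_eq, dist_eq_norm]
      exact hq ξ η
    exact this.continuous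
  have hGfin : ∫⁻ ξ, ‖G ξ‖ₑ ^ 2 < ∞ := by
    have h4 := eLpNorm_nnreal_pow_eq_lintegral (f := G) (μ := (volume : Measure (E n))) (p := 2)
      two_ne_zero
    have h5 : eLpNorm G 2 volume ^ 2 = ∫⁻ ξ, ‖G ξ‖ₑ ^ 2 := by simpa using h4
    rw [← h5]
    exact ENNReal.pow_lt_top hG.2
  -- on every ball
  have hball : ∀ m : ℕ, ∀ᵐ x ∂(volume.restrict (closedBall (0 : E n) m)),
      Tendsto (fun R : ℝ => dif q G R x) atTop (𝓝 0) := by
    intro m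
    obtain ⟨c, k0, K, hC, hV⟩ := sum_V hs hw n lam C m h0 h1
    have hc : ∀ ξ, |q ξ| ≤ c := fun ξ => (hqC ξ).trans hC
    have h2 := hV q hq G hG 0
    have h3 : ∫⁻ x in closedBall (0 : E n) m, ∑' j : ℕ, V q c G (k0 + j) x ≠ ∞ :=
      (h2.trans_lt (ENNReal.mul_lt_top ENNReal.coe_lt_top hGfin)).ne
    have h4 := ae_lt_top (Measurable.tsum fun j => measurable_V hG (k0 + j)) h3
    filter_upwards [h4] with x hx
    have h5 := ENNReal.tendsto_atTop_zero_of_tsum_ne_top hx.ne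
    have h6 : Tendsto (fun R : ℝ => 2 * V q c G (k0 + (⌊R⌋₊ - k0)) x) atTop (𝓝 0) := by
      have h7 : Tendsto (fun R : ℝ => ⌊R⌋₊ - k0) atTop atTop := by
        refine Tendsto.comp (tendsto_sub_atTop_nat k0) tendsto_nat_floor_atTop
      have h8 := ENNReal.Tendsto.const_mul (a := 2) (h5.comp h7) (Or.inr (by norm_num))
      simpa using h8
    have h9 : Tendsto (fun R : ℝ => ‖dif q G R x‖ₑ ^ 2) atTop (𝓝 0) := by
      refine tendsto_of_tendsto_of_tendsto_of_le_of_le' tendsto_const_nhds h6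
        (Eventually.of_forall fun _ => zero_le) ?_
      filter_upwards [eventually_ge_atTop (k0 : ℝ)] with R hR
      obtain ⟨j, hj, h⟩ := dif_high hqc hc hG hR x
      rw [← hj]
      exact h
    have h10 : Tendsto (fun R : ℝ => ‖dif q G R x‖ₑ) atTop (𝓝 0) := by
      have h11 : Tendsto (fun z : ℝ≥0∞ => z ^ (1 / 2 : ℝ)) (𝓝 0) (𝓝 0) := by
        have := (ENNReal.continuous_rpow_const (y := (1 / 2 : ℝ))).tendsto 0
        simpa using this
      refine (h11.comp h9).congr fun R => ?_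
      simp only [Function.comp]
      rw [← ENNReal.rpow_natCast, ← ENNReal.rpow_mul]
      norm_num
    rw [tendsto_zero_iff_norm_tendsto_zero]
    have h12 := (ENNReal.tendsto_toReal (ENNReal.zero_ne_top)).comp h10
    refine (h12.congr fun R => ?_)
    simp
  have hun : (⋃ m : ℕ, closedBall (0 : E n) (m : ℝ)) = univ := iUnion_closedBall_nat 0
  have := (ae_restrict_iUnion_iff (μ := volume) (fun m : ℕ => closedBall (0 : E n) (m : ℝ))
    (fun x => Tendsto (fun R : ℝ => dif q G R x) atTop (𝓝 0))).2 hball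
  rw [hun, Measure.restrict_univ] at this
  exact this

end Pool.Agent.H311.BP
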