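import Pool.Agent.H311.BP.Main1
import Pool.Graph.R_pool_sql_team_seeded_63374d34.Results.MP_ee701d_an.SeparatedRadii

set_option autoImplicit false

open MeasureTheory Metric Set Filter Topology FourierTransform
open scoped ENNReal NNReal Real RealInnerProductSpace SchwartzMap

namespace Pool.Agent.H311.BP

variable {n : ℕ}

theorem plancherel (f : 𝓢(E n, ℂ)) :
    ∫⁻ x, ‖f x‖ₑ ^ 2 = ∫⁻ x, ‖𝓕 (f : E n → ℂ) x‖ₑ ^ 2 := by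
  have h1 := SchwartzMap.norm_fourier_toL2_eq f
  rw [SchwartzMap.norm_toLp, SchwartzMap.norm_toLp,
    ENNReal.toReal_eq_toReal_iff' ((𝓕 f).memLp 2 volume).2.ne (f.memLp 2 volume).2.ne] at h1
  have h2 : ∀ g : E n → ℂ, ∫⁻ x, ‖g x‖ₑ ^ 2 = eLpNorm g 2 volume ^ 2 := by
    intro g
    have := eLpNorm_nnreal_pow_eq_lintegral (f := g) (μ := volume) (p := 2) two_ne_zero
    simpa using this.symm
  rw [h2, h2, ← h1]
  rfl

theorem I_nonpos (hn : 1 ≤ n) {R : ℝ} (hR : R ≤ 0) (G : E n → ℂ) (x : E n) :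
    I (closedBall 0 R) G x = 0 := by
  have : Nonempty (Fin n) := ⟨⟨0, hn⟩⟩
  have h0 : volume (closedBall (0 : E n) R) = 0 := by
    rcases hR.lt_or_eq with h | h
    · rw [closedBall_eq_empty.2 h]
      simp
    · rw [h, closedBall_zero]
      exact measure_singleton _
  unfold I
  exact setIntegral_measure_zero _ h0

theorem measurable_supI {ι : Type*} {A : ι → Set (E n)} {G : E n → ℂ} (hG : MemLp G 2 volume)
    (hA : ∀ i, Bornology.IsBounded (A i)) : Measurable fun x => ⨆ i, ‖I (A i) G x‖ₑ := by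
  refine LowerSemicontinuous.measurable (lowerSemicontinuous_iSup fun i => ?_)
  exact (continuous_I (integrableOn_of_memLp hG (hA i))).enorm.lowerSemicontinuous

theorem bounded_P {q : E n → ℝ} {C : ℝ} (hqC : ∀ ξ, |q ξ| ≤ C) (R : ℝ) :
    Bornology.IsBounded {ξ | ‖ξ‖ + q ξ ≤ R} := by
  refine (isBounded_closedBall (x := (0 : E n)) (r := R + C)).subset ?_
  intro ξ hξ
  have h1 := abs_le.1 (hqC ξ)
  have h2 : ‖ξ‖ + q ξ ≤ R := hξ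
  simp only [mem_closedBall, dist_zero_right]
  linarith

theorem measurable_supdif {q : E n → ℝ} {C : ℝ} (hqC : ∀ ξ, |q ξ| ≤ C) {G : E n → ℂ}
    (hG : MemLp G 2 volume) : Measurable fun x => ⨆ R : ℝ, ‖dif q G R x‖ₑ := by
  refine LowerSemicontinuous.measurable (lowerSemicontinuous_iSup fun R => ?_)
  refine Continuous.lowerSemicontinuous (Continuous.enorm ?_)
  exact (continuous_I (integrableOn_of_memLp hG (bounded_P hqC R))).sub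
    (continuous_I (integrableOn_of_memLp hG isBounded_closedBall))

open Pool.Agent.Results.MP_ee701d_an.SeparatedRadii in
/-- the estimate of Q1 follows from the local estimate for separated radii of the perturbed
balls -/
theorem q1_of_sep (hs : S_strip) (hw : S_window) (hn : 1 ≤ n) (lam C : ℝ) (h0 : 0 ≤ lam)
    (h1 : lam < 1) (q : E n → ℝ) (hqC : ∀ ξ, |q ξ| ≤ C)
    (hq : ∀ ξ η, |q ξ - q η| ≤ lam * ‖ξ - η‖) {h : ℝ} (hh : 0 < h)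
    (hloc : ∃ K : ℝ≥0, ∀ f : 𝓢(E n, ℂ),
      ∫⁻ x in closedBall (0 : E n) 1,
        (⨆ k : ℕ, ‖I {ξ | ‖ξ‖ + q ξ ≤ h * k} (𝓕 (f : E n → ℂ)) x‖ₑ) ^ 2 ≤
        K * ∫⁻ x, ‖f x‖ₑ ^ 2) :
    ∃ K : ℝ≥0, ∀ f : 𝓢(E n, ℂ),
      ∫⁻ x, (⨆ (R : ℝ) (_ : 0 < R), ‖I (closedBall 0 R) (𝓕 (f : E n → ℂ)) x‖ₑ) ^ 2 ≤
        K * ∫⁻ x, ‖f x‖ₑ ^ 2 := by
  obtain ⟨K0, hK0⟩ := sup_dif hs hw n lam C 1 h0 h1
  have hbd := hK0 q hqC hq
  have hL : ∀ f : 𝓢(E n, ℂ), MemLp (𝓕 (f : E n → ℂ)) 2 volume := fun f => (𝓕 f).memLp 2 volume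
  obtain ⟨K, hK⟩ := hloc
  have hres := (result (n := n) hn (h := h) hh).1.2
  refine hres ⟨2 * K0 + 2 * K, fun f => ?_⟩
  set G := 𝓕 (f : E n → ℂ) with hGdef
  have hpt : ∀ x, (⨆ k : ℕ, ‖S G (h * k) x‖ₑ) ^ 2 ≤
      2 * (⨆ R : ℝ, ‖dif q G R x‖ₑ) ^ 2 +
        2 * (⨆ k : ℕ, ‖I {ξ | ‖ξ‖ + q ξ ≤ h * k} G x‖ₑ) ^ 2 := by
    intro x
    rw [← mul_add]
    refine le_trans (pow_le_pow_left' ?_ 2) (add_sq_le' _ _)
    refine iSup_le fun k => ?_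
    have e : S G (h * k) x = I {ξ | ‖ξ‖ + q ξ ≤ h * k} G x - dif q G (h * k) x := by
      have : S G (h * k) x = I (closedBall 0 (h * k)) G x := rfl
      rw [this]
      unfold dif
      ring
    rw [e, add_comm]
    refine (enorm_sub_le).trans (add_le_add ?_ ?_)
    · exact le_iSup (fun k : ℕ => ‖I {ξ | ‖ξ‖ + q ξ ≤ h * k} G x‖ₑ) k
    · exact le_iSup (fun R => ‖dif q G R x‖ₑ) (h * k)
  calc ∫⁻ x in closedBall (0 : E n) 1, (⨆ k : ℕ, ‖S G (h * k) x‖ₑ) ^ 2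
      ≤ ∫⁻ x in closedBall (0 : E n) 1, (2 * (⨆ R : ℝ, ‖dif q G R x‖ₑ) ^ 2 +
        2 * (⨆ k : ℕ, ‖I {ξ | ‖ξ‖ + q ξ ≤ h * k} G x‖ₑ) ^ 2) := lintegral_mono hpt
    _ = 2 * (∫⁻ x in closedBall (0 : E n) 1, (⨆ R : ℝ, ‖dif q G R x‖ₑ) ^ 2) +
        2 * ∫⁻ x in closedBall (0 : E n) 1,
          (⨆ k : ℕ, ‖I {ξ | ‖ξ‖ + q ξ ≤ h * k} G x‖ₑ) ^ 2 := by
        rw [lintegral_add_left, lintegral_const_mul' _ _ (by norm_num),
          lintegral_const_mul' _ _ (by norm_num)]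
        exact ((measurable_supdif hqC (hL f)).pow_const 2).const_mul 2
    _ ≤ 2 * (K0 * ∫⁻ ξ, ‖G ξ‖ₑ ^ 2) + 2 * (K * ∫⁻ x, ‖f x‖ₑ ^ 2) := by
        refine add_le_add ?_ ?_
        · exact mul_le_mul_right (hbd G (hL f) 0) _
        · exact mul_le_mul_right (hK f) _
    _ = ((2 * K0 + 2 * K : ℝ≥0) : ℝ≥0∞) * ∫⁻ x, ‖f x‖ₑ ^ 2 := by
        rw [plancherel f]
        push_cast
        ring

/-- the estimate of Q1 gives the local estimate for the perturbed balls -/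
theorem loc_of_q1 (hs : S_strip) (hw : S_window) (hn : 1 ≤ n) (lam C : ℝ) (h0 : 0 ≤ lam)
    (h1 : lam < 1) (q : E n → ℝ) (hqC : ∀ ξ, |q ξ| ≤ C)
    (hq : ∀ ξ η, |q ξ - q η| ≤ lam * ‖ξ - η‖)
    (hQ1 : ∃ K : ℝ≥0, ∀ f : 𝓢(E n, ℂ),
      ∫⁻ x, (⨆ (R : ℝ) (_ : 0 < R), ‖I (closedBall 0 R) (𝓕 (f : E n → ℂ)) x‖ₑ) ^ 2 ≤
        K * ∫⁻ x, ‖f x‖ₑ ^ 2) :
    ∃ K : ℝ≥0, ∀ f : 𝓢(E n, ℂ),
      ∫⁻ x in closedBall (0 : E n) 1,
        (⨆ R : ℝ, ‖I {ξ | ‖ξ‖ + q ξ ≤ R} (𝓕 (f : E n → ℂ)) x‖ₑ) ^ 2 ≤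
        K * ∫⁻ x, ‖f x‖ₑ ^ 2 := by
  obtain ⟨K0, hK0⟩ := sup_dif hs hw n lam C 1 h0 h1
  have hbd := hK0 q hqC hq
  have hL : ∀ f : 𝓢(E n, ℂ), MemLp (𝓕 (f : E n → ℂ)) 2 volume := fun f => (𝓕 f).memLp 2 volume
  obtain ⟨K, hK⟩ := hQ1
  refine ⟨2 * K0 + 2 * K, fun f => ?_⟩
  set G := 𝓕 (f : E n → ℂ) with hGdef
  have hpt : ∀ x, (⨆ R : ℝ, ‖I {ξ | ‖ξ‖ + q ξ ≤ R} G x‖ₑ) ^ 2 ≤
      2 * (⨆ R : ℝ, ‖dif q G R x‖ₑ) ^ 2 +
        2 * (⨆ (R : ℝ) (_ : 0 < R), ‖I (closedBall 0 R) G x‖ₑ) ^ 2 := by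
    intro x
    rw [← mul_add]
    refine le_trans (pow_le_pow_left' ?_ 2) (add_sq_le' _ _)
    refine iSup_le fun R => ?_
    have e : I {ξ | ‖ξ‖ + q ξ ≤ R} G x = dif q G R x + I (closedBall 0 R) G x := by
      unfold dif
      ring
    rw [e]
    refine (enorm_add_le _ _).trans (add_le_add (le_iSup (fun R => ‖dif q G R x‖ₑ) R) ?_)
    by_cases hR : 0 < R
    · exact le_iSup₂_of_le R hR le_rfl
    · rw [I_nonpos hn (not_lt.1 hR)]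
      simp
  calc ∫⁻ x in closedBall (0 : E n) 1, (⨆ R : ℝ, ‖I {ξ | ‖ξ‖ + q ξ ≤ R} G x‖ₑ) ^ 2
      ≤ ∫⁻ x in closedBall (0 : E n) 1, (2 * (⨆ R : ℝ, ‖dif q G R x‖ₑ) ^ 2 +
        2 * (⨆ (R : ℝ) (_ : 0 < R), ‖I (closedBall 0 R) G x‖ₑ) ^ 2) := lintegral_mono hpt
    _ = 2 * (∫⁻ x in closedBall (0 : E n) 1, (⨆ R : ℝ, ‖dif q G R x‖ₑ) ^ 2) +
        2 * ∫⁻ x in closedBall (0 : E n) 1,
          (⨆ (R : ℝ) (_ : 0 < R), ‖I (closedBall 0 R) G x‖ₑ) ^ 2 := by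
        rw [lintegral_add_left, lintegral_const_mul' _ _ (by norm_num),
          lintegral_const_mul' _ _ (by norm_num)]
        exact ((measurable_supdif hqC (hL f)).pow_const 2).const_mul 2
    _ ≤ 2 * (K0 * ∫⁻ ξ, ‖G ξ‖ₑ ^ 2) + 2 * (K * ∫⁻ x, ‖f x‖ₑ ^ 2) := by
        refine add_le_add ?_ ?_
        · exact mul_le_mul_right (hbd G (hL f) 0) _
        · refine mul_le_mul_right ?_ _
          exact (setLIntegral_le_lintegral _ _).trans (hK f)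
    _ = ((2 * K0 + 2 * K : ℝ≥0) : ℝ≥0∞) * ∫⁻ x, ‖f x‖ₑ ^ 2 := by
        rw [plancherel f]
        push_cast
        ring

end Pool.Agent.H311.BP
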