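import Pool.Agent.H311.BP.Defs

/-!
# (A1) Strips are thin
-/

set_option autoImplicit false

open MeasureTheory Metric Set Filter Topology
open scoped ENNReal NNReal Real RealInnerProductSpace

namespace Pool.Agent.H311.BP

/-- The function `‖ξ‖ + q ξ` increases in the direction `ζ`, near `ζ`. -/
theorem strip_incr {n : ℕ} {lam : ℝ} (h0 : 0 ≤ lam) (h1 : lam < 1) {q : E n → ℝ}
    (hq : ∀ ξ η, |q ξ - q η| ≤ lam * ‖ξ - η‖) {ζ : E n} (hζ : 2 + 1 / (1 - lam) ≤ ‖ζ‖) {η : E n}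
    (hη : η ∈ ball ζ 1) {t : ℝ} (ht : 0 ≤ t) :
    ‖η‖ + q η + (1 - lam) / 2 * t ≤ ‖η + t • (‖ζ‖⁻¹ • ζ)‖ + q (η + t • (‖ζ‖⁻¹ • ζ)) := by
  have hl : 0 < 1 - lam := by linarith
  have hL : 0 < 1 / (1 - lam) := one_div_pos.2 hl
  have hζ0 : 0 < ‖ζ‖ := by linarith
  have hζ1 : 1 ≤ ‖ζ‖ * (1 - lam) := by
    have : 1 / (1 - lam) ≤ ‖ζ‖ := by linarith
    rwa [div_le_iff₀ hl] at this
  have hd : ‖η - ζ‖ < 1 := by
    rw [mem_ball, dist_eq_norm] at hη
    exact hη
  have hη1 : 1 ≤ ‖η‖ := by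
    have h2 := norm_sub_norm_le ζ η
    rw [norm_sub_rev] at h2
    linarith
  have hin : ⟪η, ζ⟫ = (‖η‖ ^ 2 + ‖ζ‖ ^ 2 - ‖η - ζ‖ ^ 2) / 2 := by
    rw [norm_sub_sq_real]; ring
  have hd2 : ‖η - ζ‖ ^ 2 ≤ 1 := by
    have := norm_nonneg (η - ζ)
    nlinarith
  have hin2 : ‖η‖ * ‖ζ‖ - 1 / 2 ≤ ⟪η, ζ⟫ := by
    rw [hin]
    nlinarith [sq_nonneg (‖η‖ - ‖ζ‖)]
  have hin3 : (1 + lam) / 2 * (‖η‖ * ‖ζ‖) ≤ ⟪η, ζ⟫ := by
    have h3 : 1 ≤ ‖η‖ * (‖ζ‖ * (1 - lam)) := by nlinarith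
    nlinarith
  set u : E n := ‖ζ‖⁻¹ • ζ with hu
  have hu1 : ‖u‖ = 1 := by
    rw [hu, norm_smul, norm_inv, norm_norm, inv_mul_cancel₀ hζ0.ne']
  have hin4 : (1 + lam) / 2 * ‖η‖ ≤ ⟪u, η⟫ := by
    rw [hu, real_inner_smul_left, real_inner_comm]
    rw [← div_eq_inv_mul, le_div_iff₀ hζ0]
    linarith
  have hη0 : 0 < ‖η‖ := by linarith
  have h5 : (‖η‖ + t * ((1 + lam) / 2)) * ‖η‖ ≤ ‖η + t • u‖ * ‖η‖ := by
    refine le_trans ?_ (real_inner_le_norm (η + t • u) η)
    rw [inner_add_left, real_inner_self_eq_norm_sq, real_inner_smul_left]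
    have := mul_le_mul_of_nonneg_left hin4 ht
    nlinarith
  have h6 := le_of_mul_le_mul_right h5 hη0
  have h7 := hq (η + t • u) η
  rw [add_sub_cancel_left, norm_smul, hu1, mul_one, Real.norm_eq_abs, abs_of_nonneg ht] at h7
  have h8 := (abs_le.1 h7).1
  nlinarith

theorem strip : S_strip := by
  intro n lam h0 h1
  set c : ℝ := (1 - lam) / 2 with hc
  have hc0 : 0 < c := by rw [hc]; linarith
  have hV : volume (ball (0 : E n) 2) ≠ ⊤ := measure_ball_lt_top.ne
  have hV0 : 0 < volume (ball (0 : E n) 2) := measure_ball_pos _ _ (by norm_num)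
  have hL : 0 < 1 / (1 - lam) := one_div_pos.2 (by linarith)
  refine ⟨2 + 1 / (1 - lam), (volume (ball (0 : E n) 2)).toReal / c, by linarith,
    div_pos (ENNReal.toReal_pos hV0.ne' hV) hc0, ?_⟩
  intro q hq ζ hζ a h hh hh1
  have hζ0 : 0 < ‖ζ‖ := by linarith
  set u : E n := ‖ζ‖⁻¹ • ζ with hu
  have hu1 : ‖u‖ = 1 := by
    rw [hu, norm_smul, norm_inv, norm_norm, inv_mul_cancel₀ hζ0.ne']
  have hqc : Continuous q := by
    have : LipschitzWith ⟨lam, h0⟩ q := by
      refine LipschitzWith.of_dist_le_mul fun x y => ?_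
      rw [Real.dist_eq, dist_eq_norm]
      exact hq x y
    exact this.continuous
  have hpc : Continuous (fun ξ : E n => ‖ξ‖ + q ξ) := continuous_norm.add hqc
  set A : Set (E n) := {ξ | a < ‖ξ‖ + q ξ ∧ ‖ξ‖ + q ξ ≤ a + h} ∩ ball ζ 1 with hA
  have hAm : MeasurableSet A := by
    refine MeasurableSet.inter ?_ measurableSet_ball
    exact (measurableSet_lt measurable_const hpc.measurable).inter
      (measurableSet_le hpc.measurable measurable_const)
  have hAfin : volume A ≠ ⊤ :=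
    ((measure_mono inter_subset_right).trans_lt measure_ball_lt_top).ne
  set t : ℝ := h / c with ht
  have ht0 : 0 < t := div_pos hh hc0
  have hct : c * t = h := by rw [ht]; field_simp
  set M : ℕ := ⌊1 / t⌋₊ with hM
  have hMt : (M : ℝ) * t ≤ 1 := by
    have : (M : ℝ) ≤ 1 / t := Nat.floor_le (by positivity)
    rwa [le_div_iff₀ ht0] at this
  have hMt' : 1 ≤ ((M : ℝ) + 1) * t := by
    have : 1 / t < (M : ℝ) + 1 := Nat.lt_floor_add_one _
    rw [div_lt_iff₀ ht0] at this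
    exact this.le
  set B : ℕ → Set (E n) := fun m => (fun ξ : E n => ξ + (-((m : ℝ) * t)) • u) ⁻¹' A with hB
  have hBm : ∀ m, MeasurableSet (B m) := fun m => (measurable_add_const _) hAm
  have hBv : ∀ m, volume (B m) = volume A := fun m => measure_preimage_add_right _ _ _
  -- the disjointness of the translates
  have hlt : ∀ m m' : ℕ, m' < m → Disjoint (B m) (B m') := by
    intro m m' hmm
    rw [Set.disjoint_left]
    intro ξ h2 h3
    have h2' : ξ + (-((m : ℝ) * t)) • u ∈ A := h2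
    have h3' : ξ + (-((m' : ℝ) * t)) • u ∈ A := h3
    have e : ξ + (-((m' : ℝ) * t)) • u =
        (ξ + (-((m : ℝ) * t)) • u) + (((m : ℝ) - m') * t) • u := by
      rw [add_assoc, ← add_smul]
      congr 2
      ring
    have hm1 : (1 : ℝ) ≤ (m : ℝ) - m' := by
      have : (m' : ℝ) + 1 ≤ m := by exact_mod_cast hmm
      linarith
    have h4 := strip_incr h0 h1 hq hζ h2'.2 (t := ((m : ℝ) - m') * t) (by positivity)
    rw [← hu, ← e, ← hc] at h4
    have h5 := h2'.1.1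
    have h6 := h3'.1.2
    have h7 : h ≤ c * (((m : ℝ) - m') * t) := by
      have : c * (((m : ℝ) - m') * t) = ((m : ℝ) - m') * h := by rw [← hct]; ring
      rw [this]
      nlinarith
    linarith
  have hdisj : (↑(Finset.range (M + 1)) : Set ℕ).PairwiseDisjoint B := by
    intro m _ m' _ hne
    rcases lt_or_gt_of_ne hne with h2 | h2
    · exact (hlt m' m h2).symm
    · exact hlt m m' h2
  have hsub : (⋃ m ∈ Finset.range (M + 1), B m) ⊆ ball ζ 2 := by
    intro ξ hξ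
    simp only [Set.mem_iUnion, Finset.mem_range] at hξ
    obtain ⟨m, hm, h2⟩ := hξ
    have h2' : ξ + (-((m : ℝ) * t)) • u ∈ A := h2
    have h3 := h2'.2
    rw [mem_ball, dist_eq_norm] at h3 ⊢
    have e : ξ - ζ = (ξ + (-((m : ℝ) * t)) • u - ζ) + ((m : ℝ) * t) • u := by
      rw [neg_smul]; abel
    rw [e]
    have hm' : (m : ℝ) ≤ M := by exact_mod_cast Nat.lt_succ_iff.1 hm
    have h4 : ‖((m : ℝ) * t) • u‖ ≤ 1 := by
      rw [norm_smul, hu1, mul_one, Real.norm_eq_abs, abs_of_nonneg (by positivity)]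
      exact (mul_le_mul_of_nonneg_right hm' ht0.le).trans hMt
    calc ‖(ξ + (-((m : ℝ) * t)) • u - ζ) + ((m : ℝ) * t) • u‖
        ≤ ‖ξ + (-((m : ℝ) * t)) • u - ζ‖ + ‖((m : ℝ) * t) • u‖ := norm_add_le _ _
      _ < 1 + 1 := by linarith
      _ = 2 := by norm_num
  have hmeas : ((M : ℝ≥0∞) + 1) * volume A ≤ volume (ball (0 : E n) 2) := by
    have h2 := measure_biUnion_finset (μ := volume) hdisj (fun m _ => hBm m)
    have h3 : ∑ m ∈ Finset.range (M + 1), volume (B m) = ((M : ℝ≥0∞) + 1) * volume A := by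
      rw [Finset.sum_congr rfl fun m _ => hBv m, Finset.sum_const, Finset.card_range, nsmul_eq_mul]
      push_cast
      ring
    rw [← h3, ← h2, ← Measure.addHaar_ball_center volume ζ 2]
    exact measure_mono hsub
  have hreal : ((M : ℝ) + 1) * (volume A).toReal ≤ (volume (ball (0 : E n) 2)).toReal := by
    have h2 := ENNReal.toReal_mono hV hmeas
    rw [ENNReal.toReal_mul] at h2
    have e : ((M : ℝ≥0∞) + 1).toReal = (M : ℝ) + 1 := by
      rw [ENNReal.toReal_add (ENNReal.natCast_ne_top M) ENNReal.one_ne_top]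
      simp
    rwa [e] at h2
  rw [ENNReal.le_ofReal_iff_toReal_le hAfin (by positivity)]
  have hA0 : 0 ≤ (volume A).toReal := ENNReal.toReal_nonneg
  have h9 : (volume A).toReal ≤ (volume (ball (0 : E n) 2)).toReal * t := by
    calc (volume A).toReal = 1 * (volume A).toReal := (one_mul _).symm
      _ ≤ (((M : ℝ) + 1) * t) * (volume A).toReal := mul_le_mul_of_nonneg_right hMt' hA0
      _ = (((M : ℝ) + 1) * (volume A).toReal) * t := by ring
      _ ≤ (volume (ball (0 : E n) 2)).toReal * t := mul_le_mul_of_nonneg_right hreal ht0.le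
  refine h9.trans (le_of_eq ?_)
  rw [ht]
  ring

end Pool.Agent.H311.BP
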