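import Pool.Agent.H311.BP.Chain2

set_option autoImplicit false

open MeasureTheory Metric Set Filter Topology
open scoped ENNReal NNReal Real RealInnerProductSpace

namespace Pool.Agent.H311.BP

variable {n : ℕ}

/-- an increasing family of sets squeezed between balls -/
def Sq (C : ℝ) (Ω : ℝ → Set (E n)) : Prop :=
  Monotone Ω ∧ (∀ R, MeasurableSet (Ω R)) ∧
    ∀ R, 2 ≤ R → closedBall 0 (R - C / Real.log R ^ 2) ⊆ Ω R ∧
      Ω R ⊆ closedBall 0 (R + C / Real.log R ^ 2)

/-- the width -/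
noncomputable def eta (C : ℝ) (k : ℕ) : ℝ := C / Real.log k ^ 2

/-- the number of thin shells -/
noncomputable def NN (C : ℝ) (k : ℕ) : ℕ := ⌈1 / eta C k⌉₊

/-- the thin shells -/
def thin (n : ℕ) (C : ℝ) (k i : ℕ) : Set (E n) :=
  {ξ | k + ((i : ℝ) - 1) * eta C k < ‖ξ‖ ∧ ‖ξ‖ ≤ k + ((i : ℝ) - 1) * eta C k + 3 * eta C k}

/-- the windows of radii -/
def JJ (C : ℝ) (k i : ℕ) : Set ℝ := Icc (k + i * eta C k) (k + (i + 1) * eta C k)

/-- the two maximal functions in a window -/
noncomputable def W (Ω : ℝ → Set (E n)) (C : ℝ) (G : E n → ℂ) (k i : ℕ) (x : E n) : ℝ≥0∞ :=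
  (⨆ t ∈ JJ C k i, ‖I (thin n C k i ∩ Ω t) G x‖ₑ) ^ 2 +
    (⨆ t ∈ JJ C k i, ‖I (thin n C k i ∩ closedBall 0 t) G x‖ₑ) ^ 2

/-- the sum over the windows in a unit interval -/
noncomputable def U (Ω : ℝ → Set (E n)) (C : ℝ) (G : E n → ℂ) (k : ℕ) (x : E n) : ℝ≥0∞ :=
  ∑ i ∈ Finset.range (NN C k), W Ω C G k i x

theorem measurableSet_thin (C : ℝ) (k i : ℕ) : MeasurableSet (thin n C k i) := by
  unfold thin
  exact (measurableSet_lt measurable_const measurable_norm).inter
    (measurableSet_le measurable_norm measurable_const)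

theorem bounded_thin (C : ℝ) (k i : ℕ) : Bornology.IsBounded (thin n C k i) := by
  refine (isBounded_closedBall (x := (0 : E n))
    (r := k + ((i : ℝ) - 1) * eta C k + 3 * eta C k)).subset ?_
  intro ξ hξ
  simpa using hξ.2

theorem measurable_supA {J : Set ℝ} {A : ℝ → Set (E n)} {G : E n → ℂ} {S : Set (E n)}
    (hG : IntegrableOn G S volume) : Measurable fun x => (⨆ t ∈ J, ‖I (S ∩ A t) G x‖ₑ) ^ 2 := by
  refine Measurable.pow_const ?_ 2
  refine LowerSemicontinuous.measurable ?_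
  refine lowerSemicontinuous_iSup fun R => lowerSemicontinuous_iSup fun _ => ?_
  refine Continuous.lowerSemicontinuous ?_
  exact (continuous_I (hG.mono_set inter_subset_left)).enorm

theorem measurable_W {Ω : ℝ → Set (E n)} {C : ℝ} {G : E n → ℂ} (hG : MemLp G 2 volume) (k i : ℕ) :
    Measurable (W Ω C G k i) := by
  have h := integrableOn_of_memLp hG (bounded_thin (n := n) C k i)
  exact (measurable_supA h).add (measurable_supA h)

theorem measurable_U {Ω : ℝ → Set (E n)} {C : ℝ} {G : E n → ℂ} (hG : MemLp G 2 volume) (k : ℕ) :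
    Measurable (U Ω C G k) := by
  unfold U
  exact Finset.measurable_sum _ fun i _ => measurable_W hG k i

/-- the widths tend to zero -/
theorem eta_tendsto (C : ℝ) : Tendsto (eta C) atTop (𝓝 0) := by
  unfold eta
  refine tendsto_const_nhds.div_atTop ?_
  refine (tendsto_pow_atTop two_ne_zero).comp ?_
  exact Real.tendsto_log_atTop.comp tendsto_natCast_atTop_atTop

theorem log_pos' {k : ℕ} (hk : 2 ≤ k) : 0 < Real.log k := by
  refine Real.log_pos ?_
  have : (2 : ℝ) ≤ k := by exact_mod_cast hk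
  linarith

theorem eta_pos {C : ℝ} (hC : 0 < C) {k : ℕ} (hk : 2 ≤ k) : 0 < eta C k := by
  unfold eta
  have := log_pos' hk
  positivity

theorem eta_ge {C : ℝ} (hC : 0 < C) {k : ℕ} (hk : 2 ≤ k) {R : ℝ} (hR : (k : ℝ) ≤ R) :
    C / Real.log R ^ 2 ≤ eta C k := by
  unfold eta
  have h1 := log_pos' hk
  have h2 : Real.log k ≤ Real.log R := by
    refine Real.log_le_log ?_ hR
    have : 0 < k := by omega
    exact_mod_cast this
  gcongr

/-- the logarithmic number of levels -/
def lev (n k : ℕ) : ℕ := n * (Nat.log 2 (k + 2) + 1)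

theorem lev_pow (n k : ℕ) : ((k : ℝ) + 2) ^ n ≤ 2 ^ lev n k := by
  unfold lev
  rw [mul_comm, pow_mul]
  refine pow_le_pow_left₀ (by positivity) ?_ n
  have := (Nat.lt_pow_succ_log_self (b := 2) (by norm_num) (k + 2)).le
  exact_mod_cast this

theorem lev_le {k : ℕ} (hk : 2 ≤ k) : ((lev n k : ℝ) + 2) * Real.log 2 ≤ (3 * n + 2) * Real.log k := by
  have h0 : 0 < Real.log 2 := Real.log_pos (by norm_num)
  have h1 : Real.log 2 ≤ Real.log k := Real.log_le_log (by norm_num) (by exact_mod_cast hk)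
  have h2 : (Nat.log 2 (k + 2) : ℝ) * Real.log 2 ≤ 2 * Real.log k := by
    have h3 : 2 ^ Nat.log 2 (k + 2) ≤ k + 2 := Nat.pow_log_le_self 2 (by omega)
    have h4 : ((2 : ℝ) ^ Nat.log 2 (k + 2)) ≤ k + 2 := by exact_mod_cast h3
    have h5 : Real.log ((2 : ℝ) ^ Nat.log 2 (k + 2)) ≤ Real.log (k ^ 2) := by
      refine Real.log_le_log (by positivity) (h4.trans ?_)
      have h6 : (2 : ℝ) ≤ k := by exact_mod_cast hk
      nlinarith
    rw [Real.log_pow, Real.log_pow] at h5
    push_cast at h5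
    exact h5
  unfold lev
  push_cast
  have hn : (0 : ℝ) ≤ n := Nat.cast_nonneg n
  nlinarith [mul_le_mul_of_nonneg_left h2 hn, mul_le_mul_of_nonneg_left h1 hn]

/-- counting -/
theorem count_thin {C : ℝ} (hC : 0 < C) {k : ℕ} (hk : 2 ≤ k) (hη : eta C k ≤ 1 / 3) (ξ : E n) :
    ∑ i ∈ Finset.range (NN C k), (thin n C k i).indicator (fun _ => (1 : ℝ≥0∞)) ξ ≤
      3 * (shell n 1 k).indicator (fun _ => (1 : ℝ≥0∞)) ξ := by
  classical
  have hp := eta_pos hC hk
  by_cases hsh : ξ ∈ shell n 1 k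
  · rw [indicator_of_mem hsh, mul_one]
    set u : ℝ := (‖ξ‖ - k) / eta C k with hu
    have hue : ‖ξ‖ = k + u * eta C k := by
      rw [hu]
      field_simp
      ring
    set F : Finset ℕ := Finset.Ico ⌈u - 2⌉₊ (⌈u - 2⌉₊ + 3) with hF
    have h1 : ∀ i ∈ Finset.range (NN C k), i ∉ F →
        (thin n C k i).indicator (fun _ => (1 : ℝ≥0∞)) ξ = 0 := by
      intro i _ hi
      refine indicator_of_notMem (fun h => hi ?_) _
      obtain ⟨h2, h3⟩ := h
      rw [hue] at h2 h3
      rw [hF, Finset.mem_Ico]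
      constructor
      · refine Nat.ceil_le.2 ?_
        have h4 : u * eta C k ≤ ((i : ℝ) + 2) * eta C k := by linarith
        have h5 := le_of_mul_le_mul_right h4 hp
        linarith
      · have h4 : ((i : ℝ) - 1) * eta C k < u * eta C k := by linarith
        have h5 := lt_of_mul_lt_mul_right h4 hp.le
        have h6 : u - 2 ≤ ⌈u - 2⌉₊ := Nat.le_ceil _
        have h7 : (i : ℝ) < ((⌈u - 2⌉₊ + 3 : ℕ) : ℝ) := by
          push_cast
          linarith
        exact_mod_cast h7
    calc ∑ i ∈ Finset.range (NN C k), (thin n C k i).indicator (fun _ => (1 : ℝ≥0∞)) ξ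
        ≤ ∑ i ∈ Finset.range (NN C k), if i ∈ F then 1 else 0 := by
          refine Finset.sum_le_sum fun i hi => ?_
          split_ifs with h
          · exact indicator_le_self _ _ _
          · rw [h1 i hi h]
      _ ≤ ∑ i ∈ F, 1 := by
          rw [← Finset.sum_filter]
          exact Finset.sum_le_sum_of_subset fun i hi => (Finset.mem_filter.1 hi).2
      _ = 3 := by
          rw [Finset.sum_const, hF, Nat.card_Ico]
          simp
  · rw [indicator_of_notMem hsh, mul_zero]
    refine le_of_eq (Finset.sum_eq_zero fun i hi => ?_)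
    refine indicator_of_notMem (fun h => hsh ?_) _
    obtain ⟨h2, h3⟩ := h
    have hi' : (i : ℝ) + 1 ≤ NN C k := by exact_mod_cast Finset.mem_range.1 hi
    have hN : (NN C k : ℝ) < 1 / eta C k + 1 := Nat.ceil_lt_add_one (by positivity)
    have h4 : ((i : ℝ)) * eta C k ≤ 1 := by
      have h5 : (i : ℝ) ≤ 1 / eta C k := by linarith
      rwa [le_div_iff₀ hp] at h5
    have h0 : (0 : ℝ) ≤ i := Nat.cast_nonneg i
    constructor
    · push_cast
      nlinarith
    · push_cast
      nlinarith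

end Pool.Agent.H311.BP
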