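import Pool.Agent.H311.BP.Thin

set_option autoImplicit false

open MeasureTheory Metric Set Filter Topology
open scoped ENNReal NNReal Real RealInnerProductSpace

namespace Pool.Agent.H311.BP

variable {n : ℕ}

theorem lev_eta {C : ℝ} (hC : 0 < C) {k : ℕ} (hk : 2 ≤ k) :
    ((lev n k : ℝ) + 2) ^ 2 * eta C k ≤ C * (3 * n + 2) ^ 2 / Real.log 2 ^ 2 := by
  have h0 : 0 < Real.log 2 := Real.log_pos (by norm_num)
  have h1 := log_pos' hk
  have h2 := lev_le (n := n) hk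
  have h3 : (((lev n k : ℝ) + 2) * Real.log 2) ^ 2 ≤ ((3 * n + 2) * Real.log k) ^ 2 :=
    pow_le_pow_left₀ (by positivity) h2 2
  unfold eta
  rw [← mul_div_assoc, div_le_div_iff₀ (by positivity) (by positivity)]
  calc ((lev n k : ℝ) + 2) ^ 2 * C * Real.log 2 ^ 2 = C * (((lev n k : ℝ) + 2) * Real.log 2) ^ 2 := by
        ring
    _ ≤ C * ((3 * n + 2) * Real.log k) ^ 2 := by gcongr
    _ = C * (3 * n + 2) ^ 2 * Real.log k ^ 2 := by ring

/-- the measure of a thin shell against the number of levels -/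
theorem vol_thin {C : ℝ} (hC : 0 < C) {k : ℕ} (hk : 2 ≤ k) (hη : eta C k ≤ 1 / 3) {i : ℕ}
    (hi : i < NN C k) :
    volume (thin n C k i) * (2 ^ lev n k)⁻¹ ≤ volume (ball (0 : E n) 1) := by
  have hp := eta_pos hC hk
  have hsub : thin n C k i ⊆ closedBall (0 : E n) (k + 2) := by
    intro ξ hξ
    have h3 := hξ.2
    have hi' : (i : ℝ) + 1 ≤ NN C k := by exact_mod_cast hi
    have hN : (NN C k : ℝ) < 1 / eta C k + 1 := Nat.ceil_lt_add_one (by positivity)
    have h4 : ((i : ℝ)) * eta C k ≤ 1 := by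
      have h5 : (i : ℝ) ≤ 1 / eta C k := by linarith
      rwa [le_div_iff₀ hp] at h5
    simp only [mem_closedBall, dist_zero_right]
    nlinarith
  refine (mul_le_mul_left (measure_mono hsub) _).trans ?_
  rw [Measure.addHaar_closedBall volume (0 : E n) (by positivity), finrank_euclideanSpace_fin]
  have h1 : ENNReal.ofReal (((k : ℝ) + 2) ^ n) ≤ 2 ^ lev n k := by
    refine (ENNReal.ofReal_le_ofReal (lev_pow n k)).trans (le_of_eq ?_)
    rw [ENNReal.ofReal_pow (by norm_num)]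
    norm_num
  calc ENNReal.ofReal (((k : ℝ) + 2) ^ n) * volume (ball (0 : E n) 1) * (2 ^ lev n k)⁻¹
      ≤ 2 ^ lev n k * volume (ball (0 : E n) 1) * (2 ^ lev n k)⁻¹ := by gcongr
    _ = (2 ^ lev n k * (2 ^ lev n k)⁻¹) * volume (ball (0 : E n) 1) := by ring
    _ = volume (ball (0 : E n) 1) := by
        rw [ENNReal.mul_inv_cancel (by simp) (by finiteness), one_mul]

theorem window_thin (hs : S_strip) (hl : S_local) (n : ℕ) {C : ℝ} (hC : 0 < C) (ρ : ℝ) :
    ∃ (k0 : ℕ) (K : ℝ≥0), 2 ≤ k0 ∧ (∀ k, k0 ≤ k → eta C k ≤ 1 / 3) ∧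
      ∀ Ω : ℝ → Set (E n), Monotone Ω → (∀ R, MeasurableSet (Ω R)) →
      ∀ G : E n → ℂ, MemLp G 2 volume → ∀ (x₀ : E n) (k : ℕ), k0 ≤ k → ∀ i, i < NN C k →
      ∫⁻ x in closedBall x₀ ρ, W Ω C G k i x ≤ K * ∫⁻ ξ in thin n C k i, ‖G ξ‖ₑ ^ 2 := by
  obtain ⟨R0, K1, hR0, hK1, hst⟩ := hs n 0 le_rfl one_pos
  obtain ⟨K2, hK2⟩ := hl n ρ
  have hloc : Loc n ρ K2 := hK2
  have h1 : ∀ᶠ k : ℕ in atTop, eta C k ≤ 1 / 3 :=
    ((eta_tendsto C).eventually (gt_mem_nhds (by norm_num : (0 : ℝ) < 1 / 3))).mono fun _ h => h.le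
  obtain ⟨k1, hk1⟩ := eventually_atTop.1 h1
  have hv : volume (closedBall (0 : E n) ρ) < ∞ := measure_closedBall_lt_top
  have hv1 : volume (ball (0 : E n) 1) < ∞ := measure_ball_lt_top
  set c : ℝ≥0 := 2 * (K2 * (3 * K1 * (C * (3 * n + 2) ^ 2 / Real.log 2 ^ 2)).toNNReal) +
    2 * ((volume (closedBall (0 : E n) ρ)).toNNReal * (volume (ball (0 : E n) 1)).toNNReal) with hc
  refine ⟨max k1 (max 2 ⌈R0 + 2⌉₊), c + c, le_trans (le_max_left _ _) (le_max_right _ _),
    fun k hk => hk1 k (le_trans (le_max_left _ _) hk), ?_⟩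
  intro Ω hΩ hΩm G hG x₀ k hk i hi
  have hk2 : 2 ≤ k := le_trans (le_trans (le_max_left _ _) (le_max_right _ _)) hk
  have hη : eta C k ≤ 1 / 3 := hk1 k (le_trans (le_max_left _ _) hk)
  have hp := eta_pos hC hk2
  have hkR : R0 + 2 ≤ k := by
    have h2 : ⌈R0 + 2⌉₊ ≤ k := le_trans (le_trans (le_max_right _ _) (le_max_right _ _)) hk
    exact (Nat.le_ceil _).trans (by exact_mod_cast h2)
  set M : ℝ≥0∞ := ENNReal.ofReal (K1 * (3 * eta C k)) with hM
  have hS : ∀ ζ, volume (thin n C k i ∩ ball ζ 1) ≤ M := by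
    intro ζ
    by_cases hζ : R0 ≤ ‖ζ‖
    · have := hst (fun _ => 0) (by simp) ζ hζ (k + ((i : ℝ) - 1) * eta C k) (3 * eta C k)
        (by positivity) (by linarith)
      simp only [add_zero] at this
      exact this
    · have : thin n C k i ∩ ball ζ 1 = ∅ := by
        refine eq_empty_of_forall_notMem fun ξ hξ => ?_
        have h2 := hξ.2
        have h3 := hξ.1.1
        rw [mem_ball, dist_eq_norm] at h2
        have h4 : ‖ξ‖ ≤ ‖ξ - ζ‖ + ‖ζ‖ := by simpa using norm_add_le (ξ - ζ) ζ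
        push Not at hζ
        have h0 : (0 : ℝ) ≤ i := Nat.cast_nonneg i
        nlinarith
      rw [this]
      simp
  have hbound : (2 * (((lev n k : ℝ≥0∞) + 2) ^ 2 * (K2 * M)) +
        2 * (volume (closedBall x₀ ρ) * (volume (thin n C k i) * (2 ^ lev n k)⁻¹))) ≤ c := by
    rw [hc]
    push_cast
    rw [ENNReal.coe_toNNReal hv.ne, ENNReal.coe_toNNReal hv1.ne]
    have e1 : ((lev n k : ℝ≥0∞) + 2) ^ 2 * (K2 * M) ≤
        K2 * ENNReal.ofReal (3 * K1 * (C * (3 * n + 2) ^ 2 / Real.log 2 ^ 2)) := by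
      have h5 : ((lev n k : ℝ≥0∞) + 2) ^ 2 = ENNReal.ofReal (((lev n k : ℝ) + 2) ^ 2) := by
        rw [ENNReal.ofReal_pow (by positivity), ENNReal.ofReal_add (by positivity) (by norm_num)]
        norm_num
      rw [h5, hM, mul_left_comm, ← ENNReal.ofReal_mul (by positivity)]
      refine mul_le_mul_right (ENNReal.ofReal_le_ofReal ?_) _
      have h6 := lev_eta (n := n) hC hk2
      calc ((lev n k : ℝ) + 2) ^ 2 * (K1 * (3 * eta C k)) =
            3 * K1 * (((lev n k : ℝ) + 2) ^ 2 * eta C k) := by ring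
        _ ≤ _ := by gcongr
    have e2 : volume (closedBall x₀ ρ) * (volume (thin n C k i) * (2 ^ lev n k)⁻¹) ≤
        volume (closedBall (0 : E n) ρ) * volume (ball (0 : E n) 1) := by
      rw [Measure.addHaar_closedBall_center volume x₀ ρ]
      gcongr
      exact vol_thin hC hk2 hη hi
    have e3 : ((3 * K1 * (C * (3 * n + 2) ^ 2 / Real.log 2 ^ 2)).toNNReal : ℝ≥0∞) =
        ENNReal.ofReal (3 * K1 * (C * (3 * n + 2) ^ 2 / Real.log 2 ^ 2)) := rfl
    rw [e3]
    gcongr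
  have c1 := chain_gen hloc x₀ hG M (lev n k) (JJ C k i) (fun t => thin n C k i ∩ Ω t)
    (thin n C k i) (fun s _ t _ hst => inter_subset_inter_right _ (hΩ hst))
    (fun t _ => (measurableSet_thin C k i).inter (hΩm t)) (fun t _ => inter_subset_left)
    (measurableSet_thin C k i) (bounded_thin C k i) hS
  have c2 := chain_gen hloc x₀ hG M (lev n k) (JJ C k i) (fun t => thin n C k i ∩ closedBall 0 t)
    (thin n C k i) (fun s _ t _ hst => inter_subset_inter_right _ (closedBall_subset_closedBall hst))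
    (fun t _ => (measurableSet_thin C k i).inter measurableSet_closedBall)
    (fun t _ => inter_subset_left)
    (measurableSet_thin C k i) (bounded_thin C k i) hS
  have h := integrableOn_of_memLp hG (bounded_thin (n := n) C k i)
  unfold W
  rw [lintegral_add_left (measurable_supA h)]
  push_cast
  rw [add_mul]
  exact add_le_add (c1.trans (mul_le_mul_left hbound _)) (c2.trans (mul_le_mul_left hbound _))

/-- the sum over the windows -/
theorem sum_U (hs : S_strip) (hl : S_local) (n : ℕ) {C : ℝ} (hC : 0 < C) (ρ : ℝ) :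
    ∃ (k0 : ℕ) (K : ℝ≥0), 2 ≤ k0 ∧ (∀ k, k0 ≤ k → eta C k ≤ 1 / 3) ∧
      ∀ Ω : ℝ → Set (E n), Monotone Ω → (∀ R, MeasurableSet (Ω R)) →
      ∀ G : E n → ℂ, MemLp G 2 volume → ∀ (x₀ : E n),
      ∫⁻ x in closedBall x₀ ρ, ∑' j : ℕ, U Ω C G (k0 + j) x ≤ K * ∫⁻ ξ, ‖G ξ‖ₑ ^ 2 := by
  obtain ⟨k0, K, hk0, hη, hW⟩ := window_thin hs hl n hC ρ
  refine ⟨k0, K * 12, hk0, hη, ?_⟩
  intro Ω hΩ hΩm G hG x₀
  have hU : ∀ k, k0 ≤ k → ∫⁻ x in closedBall x₀ ρ, U Ω C G k x ≤
      K * (3 * ∫⁻ ξ in shell n 1 k, ‖G ξ‖ₑ ^ 2) := by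
    intro k hk
    unfold U
    rw [lintegral_finsetSum _ fun i _ => measurable_W hG k i]
    calc ∑ i ∈ Finset.range (NN C k), ∫⁻ x in closedBall x₀ ρ, W Ω C G k i x
        ≤ ∑ i ∈ Finset.range (NN C k), K * ∫⁻ ξ in thin n C k i, ‖G ξ‖ₑ ^ 2 :=
          Finset.sum_le_sum fun i hi => hW Ω hΩ hΩm G hG x₀ k hk i (Finset.mem_range.1 hi)
      _ = K * ∑ i ∈ Finset.range (NN C k), ∫⁻ ξ,
            (thin n C k i).indicator (fun _ => (1 : ℝ≥0∞)) ξ * ‖G ξ‖ₑ ^ 2 := by
          rw [Finset.mul_sum]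
          refine Finset.sum_congr rfl fun i _ => ?_
          rw [← lintegral_indicator (measurableSet_thin C k i)]
          congr 1
          refine lintegral_congr fun ξ => ?_
          by_cases h : ξ ∈ thin n C k i
          · simp [h]
          · simp [h]
      _ = K * ∫⁻ ξ, ∑ i ∈ Finset.range (NN C k),
            (thin n C k i).indicator (fun _ => (1 : ℝ≥0∞)) ξ * ‖G ξ‖ₑ ^ 2 := by
          rw [lintegral_finsetSum']
          intro i _
          refine AEMeasurable.mul ?_ (hG.1.enorm.pow_const 2)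
          exact (measurable_const.indicator (measurableSet_thin C k i)).aemeasurable
      _ ≤ K * ∫⁻ ξ, 3 * ((shell n 1 k).indicator (fun _ => (1 : ℝ≥0∞)) ξ * ‖G ξ‖ₑ ^ 2) := by
          gcongr with ξ
          rw [← Finset.sum_mul, ← mul_assoc]
          exact mul_le_mul_left (count_thin hC (hk0.trans hk) (hη k hk) ξ) _
      _ = K * (3 * ∫⁻ ξ in shell n 1 k, ‖G ξ‖ₑ ^ 2) := by
          rw [lintegral_const_mul' _ _ (by simp), ← lintegral_indicator (measurableSet_shell 1 k)]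
          congr 2
          refine lintegral_congr fun ξ => ?_
          by_cases h : ξ ∈ shell n 1 k
          · simp [h]
          · simp [h]
  rw [lintegral_tsum fun j => (measurable_U hG (k0 + j)).aemeasurable]
  calc ∑' j : ℕ, ∫⁻ x in closedBall x₀ ρ, U Ω C G (k0 + j) x
      ≤ ∑' j : ℕ, K * (3 * ∫⁻ ξ in shell n 1 (k0 + j), ‖G ξ‖ₑ ^ 2) :=
        ENNReal.tsum_le_tsum fun j => hU (k0 + j) (by omega)
    _ = K * (3 * ∑' j : ℕ, ∫⁻ ξ in shell n 1 (k0 + j), ‖G ξ‖ₑ ^ 2) := by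
        rw [ENNReal.tsum_mul_left, ENNReal.tsum_mul_left]
    _ ≤ K * (3 * ∑' k : ℕ, ∫⁻ ξ in shell n 1 k, ‖G ξ‖ₑ ^ 2) := by
        refine mul_le_mul_right (mul_le_mul_right ?_ _) _
        exact ENNReal.tsum_comp_le_tsum_of_injective (add_right_injective k0)
          (fun k => ∫⁻ ξ in shell n 1 k, ‖G ξ‖ₑ ^ 2)
    _ = K * (3 * ∑' k : ℕ, ∫⁻ ξ, (shell n 1 k).indicator (fun _ => (1 : ℝ≥0∞)) ξ * ‖G ξ‖ₑ ^ 2) := by
        congr 2
        refine tsum_congr fun k => ?_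
        rw [← lintegral_indicator (measurableSet_shell 1 k)]
        refine lintegral_congr fun ξ => ?_
        by_cases h : ξ ∈ shell n 1 k
        · simp [h]
        · simp [h]
    _ = K * (3 * ∫⁻ ξ, ∑' k : ℕ, (shell n 1 k).indicator (fun _ => (1 : ℝ≥0∞)) ξ * ‖G ξ‖ₑ ^ 2) := by
        rw [lintegral_tsum]
        intro k
        refine AEMeasurable.mul ?_ (hG.1.enorm.pow_const 2)
        exact (measurable_const.indicator (measurableSet_shell 1 k)).aemeasurable
    _ ≤ K * (3 * ∫⁻ ξ, (2 * 1 + 2 : ℕ) * ‖G ξ‖ₑ ^ 2) := by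
        gcongr with ξ
        rw [ENNReal.tsum_mul_right]
        gcongr
        exact tsum_shell_le 1 ξ
    _ = (K * 12 : ℝ≥0) * ∫⁻ ξ, ‖G ξ‖ₑ ^ 2 := by
        rw [lintegral_const_mul']
        · push_cast
          ring
        · exact ENNReal.natCast_ne_top _

end Pool.Agent.H311.BP
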