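import Pool.Agent.H311.BP.Thin2
import Pool.Agent.H311.BP.Main2

set_option autoImplicit false

open MeasureTheory Metric Set Filter Topology FourierTransform
open scoped ENNReal NNReal Real RealInnerProductSpace SchwartzMap

namespace Pool.Agent.H311.BP

variable {n : ℕ}

/-- the difference of the two families -/
noncomputable def difO (Ω : ℝ → Set (E n)) (G : E n → ℂ) (R : ℝ) (x : E n) : ℂ :=
  I (Ω R) G x - I (closedBall 0 R) G x

theorem Sq.mono {C C' : ℝ} (h : C ≤ C') {Ω : ℝ → Set (E n)} (hΩ : Sq C Ω) : Sq C' Ω := by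
  refine ⟨hΩ.1, hΩ.2.1, fun R hR => ?_⟩
  have hl : 0 < Real.log R := Real.log_pos (by linarith)
  have h1 : C / Real.log R ^ 2 ≤ C' / Real.log R ^ 2 :=
    div_le_div_of_nonneg_right h (by positivity)
  constructor
  · exact (closedBall_subset_closedBall (by linarith)).trans (hΩ.2.2 R hR).1
  · exact (hΩ.2.2 R hR).2.trans (closedBall_subset_closedBall (by linarith))

theorem difO_high {C : ℝ} (hC : 0 < C) {Ω : ℝ → Set (E n)} (hΩ : Sq C Ω) {G : E n → ℂ}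
    (hG : MemLp G 2 volume) {k0 : ℕ} (hk0 : 2 ≤ k0) {R : ℝ} (hR : (k0 : ℝ) ≤ R) (x : E n) :
    ‖difO Ω G R x‖ₑ ^ 2 ≤ 2 * U Ω C G ⌊R⌋₊ x := by
  have h0 : (0 : ℝ) ≤ R := le_trans (Nat.cast_nonneg _) hR
  have hk : 2 ≤ ⌊R⌋₊ := hk0.trans (Nat.le_floor hR)
  set k := ⌊R⌋₊ with hkdef
  have hkR : (k : ℝ) ≤ R := Nat.floor_le h0
  have hkR1 : R < k + 1 := Nat.lt_floor_add_one R
  have hp := eta_pos hC hk
  set i := ⌊(R - k) / eta C k⌋₊ with hi
  have hq0 : 0 ≤ (R - k) / eta C k := by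
    have : 0 ≤ R - k := by linarith
    positivity
  have hi1 : (i : ℝ) * eta C k ≤ R - k := by
    have := Nat.floor_le hq0
    rwa [le_div_iff₀ hp] at this
  have hi2 : R - k ≤ ((i : ℝ) + 1) * eta C k := by
    have := (Nat.lt_floor_add_one ((R - k) / eta C k)).le
    rwa [div_le_iff₀ hp] at this
  have hiN : i < NN C k := by
    have h1 : (R - k) / eta C k < 1 / eta C k := div_lt_div_of_pos_right (by linarith) hp
    have h2 : (i : ℝ) ≤ (R - k) / eta C k := Nat.floor_le hq0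
    have h3 : 1 / eta C k ≤ NN C k := Nat.le_ceil _
    have h4 : (i : ℝ) < NN C k := by linarith
    exact_mod_cast h4
  have hRJ : R ∈ JJ C k i := ⟨by linarith, by linarith⟩
  have hge := eta_ge hC hk hkR
  have hR2 : 2 ≤ R := by
    have : (2 : ℝ) ≤ k := by exact_mod_cast hk
    linarith
  obtain ⟨hlow, hup⟩ := hΩ.2.2 R hR2
  -- the splitting
  have key : ∀ A : Set (E n), MeasurableSet A → closedBall 0 (k + ((i : ℝ) - 1) * eta C k) ⊆ A →
      A ⊆ closedBall 0 (k + ((i : ℝ) - 1) * eta C k + 3 * eta C k) →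
      I A G x = I (closedBall 0 (k + ((i : ℝ) - 1) * eta C k)) G x + I (thin n C k i ∩ A) G x := by
    intro A hA h1 h2
    rw [← I_union]
    · congr 1
      ext ξ
      simp only [mem_union, mem_inter_iff]
      constructor
      · intro h
        by_cases h3 : ‖ξ‖ ≤ k + ((i : ℝ) - 1) * eta C k
        · left
          simpa using h3
        · right
          refine ⟨⟨not_le.1 h3, ?_⟩, h⟩
          have := h2 h
          simpa using this
      · rintro (h | h)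
        · exact h1 h
        · exact h.2
    · rw [Set.disjoint_left]
      rintro ξ h3 ⟨h4, _⟩
      have h5 : ‖ξ‖ ≤ k + ((i : ℝ) - 1) * eta C k := by simpa using h3
      exact absurd h4.1 (not_lt.2 h5)
    · exact (measurableSet_thin C k i).inter hA
    · exact integrableOn_of_memLp hG isBounded_closedBall
    · exact integrableOn_of_memLp hG ((bounded_thin C k i).subset inter_subset_left)
  have e1 := key (Ω R) (hΩ.2.1 R)
    ((closedBall_subset_closedBall (by linarith)).trans hlow)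
    (hup.trans (closedBall_subset_closedBall (by linarith)))
  have e2 := key (closedBall 0 R) measurableSet_closedBall
    (closedBall_subset_closedBall (by linarith)) (closedBall_subset_closedBall (by linarith))
  have e3 : difO Ω G R x = I (thin n C k i ∩ Ω R) G x - I (thin n C k i ∩ closedBall 0 R) G x := by
    unfold difO
    rw [e1, e2]
    ring
  rw [e3]
  have h1 : ‖I (thin n C k i ∩ Ω R) G x‖ₑ ≤ ⨆ t ∈ JJ C k i, ‖I (thin n C k i ∩ Ω t) G x‖ₑ :=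
    le_iSup₂_of_le R hRJ le_rfl
  have h2 : ‖I (thin n C k i ∩ closedBall 0 R) G x‖ₑ ≤
      ⨆ t ∈ JJ C k i, ‖I (thin n C k i ∩ closedBall 0 t) G x‖ₑ :=
    le_iSup₂_of_le R hRJ le_rfl
  refine (pow_le_pow_left' ((enorm_sub_le).trans (add_le_add h1 h2)) 2).trans
    ((add_sq_le' _ _).trans ?_)
  refine mul_le_mul_right ?_ _
  unfold U
  exact Finset.single_le_sum (f := fun i => W Ω C G k i x) (fun _ _ => zero_le)
    (Finset.mem_range.2 hiN)

theorem difO_low {C : ℝ} {Ω : ℝ → Set (E n)} (hΩ : Sq C Ω) {G : E n → ℂ}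
    (hG : MemLp G 2 volume) {k0 : ℕ} (hk0 : 2 ≤ k0) (hη : eta C k0 ≤ 1 / 3) {R : ℝ} (hR : R ≤ k0)
    (x : E n) :
    ‖difO Ω G R x‖ₑ ^ 2 ≤ 4 * (volume (closedBall (0 : E n) (k0 + 1)) * ∫⁻ ξ, ‖G ξ‖ₑ ^ 2) := by
  have hk02 : (2 : ℝ) ≤ k0 := by exact_mod_cast hk0
  have hsub : Ω R ⊆ closedBall (0 : E n) (k0 + 1) := by
    refine (hΩ.1 hR).trans ((hΩ.2.2 k0 hk02).2.trans (closedBall_subset_closedBall ?_))
    have : C / Real.log k0 ^ 2 = eta C k0 := rfl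
    rw [this]
    linarith
  have h1 : ‖I (Ω R) G x‖ₑ ≤ ∫⁻ ξ in closedBall (0 : E n) (k0 + 1), ‖G ξ‖ₑ := enorm_I_le hsub x
  have h2 : ‖I (closedBall 0 R) G x‖ₑ ≤ ∫⁻ ξ in closedBall (0 : E n) (k0 + 1), ‖G ξ‖ₑ := by
    refine enorm_I_le (closedBall_subset_closedBall ?_) x
    linarith
  have h3 : ‖difO Ω G R x‖ₑ ≤ 2 * ∫⁻ ξ in closedBall (0 : E n) (k0 + 1), ‖G ξ‖ₑ := by
    unfold difO
    refine (enorm_sub_le).trans ?_
    rw [two_mul]
    exact add_le_add h1 h2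
  refine (pow_le_pow_left' h3 2).trans ?_
  rw [mul_pow]
  refine mul_le_mul' (by norm_num) (sq_lintegral_le hG _)

theorem sup_difO (hs : S_strip) (hl : S_local) (n : ℕ) {C : ℝ} (hC : 0 < C) (ρ : ℝ) :
    ∃ K : ℝ≥0, ∀ Ω : ℝ → Set (E n), Sq C Ω →
      ∀ G : E n → ℂ, MemLp G 2 volume → ∀ (x₀ : E n),
      ∫⁻ x in closedBall x₀ ρ, (⨆ R : ℝ, ‖difO Ω G R x‖ₑ) ^ 2 ≤ K * ∫⁻ ξ, ‖G ξ‖ₑ ^ 2 := by
  obtain ⟨k0, K, hk0, hη, hU⟩ := sum_U hs hl n hC ρ
  have hfin : volume (closedBall (0 : E n) (k0 + 1)) < ∞ := measure_closedBall_lt_top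
  have hfin2 : volume (closedBall (0 : E n) ρ) < ∞ := measure_closedBall_lt_top
  refine ⟨2 * K + 4 * (volume (closedBall (0 : E n) (k0 + 1))).toNNReal *
    (volume (closedBall (0 : E n) ρ)).toNNReal, ?_⟩
  intro Ω hΩ G hG x₀
  have hpt : ∀ x, (⨆ R : ℝ, ‖difO Ω G R x‖ₑ) ^ 2 ≤ 2 * (∑' j : ℕ, U Ω C G (k0 + j) x) +
      4 * (volume (closedBall (0 : E n) (k0 + 1)) * ∫⁻ ξ, ‖G ξ‖ₑ ^ 2) := by
    intro x
    have h2 : (⨆ R : ℝ, ‖difO Ω G R x‖ₑ) ^ 2 = ⨆ R : ℝ, ‖difO Ω G R x‖ₑ ^ 2 := by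
      refine Monotone.map_iSup_of_continuousAt (f := fun z : ℝ≥0∞ => z ^ 2) ?_ ?_ ?_
      · exact (ENNReal.continuous_pow 2).continuousAt
      · exact fun a b hab => pow_le_pow_left' hab 2
      · simp
    rw [h2]
    refine iSup_le fun R => ?_
    rcases le_total R k0 with hR | hR
    · exact (difO_low hΩ hG hk0 (hη k0 le_rfl) hR x).trans le_add_self
    · refine ((difO_high hC hΩ hG hk0 hR x).trans ?_).trans le_self_add
      have h1 : k0 ≤ ⌊R⌋₊ := Nat.le_floor hR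
      have h2 : ⌊R⌋₊ = k0 + (⌊R⌋₊ - k0) := by omega
      rw [h2]
      gcongr
      exact ENNReal.le_tsum (f := fun j => U Ω C G (k0 + j) x) (⌊R⌋₊ - k0)
  refine (lintegral_mono fun x => hpt x).trans ?_
  rw [lintegral_add_right _ measurable_const, lintegral_const,
    lintegral_const_mul' _ _ (by norm_num)]
  rw [Measure.restrict_apply_univ]
  have hv : volume (closedBall x₀ ρ) = volume (closedBall (0 : E n) ρ) := by
    exact Measure.addHaar_closedBall_center volume x₀ ρ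
  rw [hv]
  push_cast
  rw [ENNReal.coe_toNNReal hfin.ne, ENNReal.coe_toNNReal hfin2.ne, add_mul]
  refine add_le_add ?_ (le_of_eq (by ring))
  rw [mul_assoc]
  gcongr
  exact hU Ω hΩ.1 hΩ.2.1 G hG x₀

theorem tendsto_difO (hs : S_strip) (hl : S_local) (n : ℕ) {C : ℝ} (hC : 0 < C)
    (Ω : ℝ → Set (E n)) (hΩ : Sq C Ω) (G : E n → ℂ) (hG : MemLp G 2 volume) :
    ∀ᵐ x : E n, Tendsto (fun R : ℝ => difO Ω G R x) atTop (𝓝 0) := by
  have hball : ∀ m : ℕ, ∀ᵐ x ∂(volume.restrict (closedBall (0 : E n) m)),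
      Tendsto (fun R : ℝ => difO Ω G R x) atTop (𝓝 0) := by
    intro m
    obtain ⟨k0, K, hk0, hη, hU⟩ := sum_U hs hl n hC m
    have h2 := hU Ω hΩ.1 hΩ.2.1 G hG 0
    have h3 : ∫⁻ x in closedBall (0 : E n) m, ∑' j : ℕ, U Ω C G (k0 + j) x ≠ ∞ :=
      (h2.trans_lt (ENNReal.mul_lt_top ENNReal.coe_lt_top (energy_lt_top hG))).ne
    have h4 := ae_lt_top (Measurable.tsum fun j => measurable_U hG (k0 + j)) h3
    filter_upwards [h4] with x hx
    have h5 := ENNReal.tendsto_atTop_zero_of_tsum_ne_top hx.ne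
    have h6 : Tendsto (fun R : ℝ => 2 * U Ω C G (k0 + (⌊R⌋₊ - k0)) x) atTop (𝓝 0) := by
      have h7 : Tendsto (fun R : ℝ => ⌊R⌋₊ - k0) atTop atTop := by
        refine Tendsto.comp (tendsto_sub_atTop_nat k0) tendsto_nat_floor_atTop
      have h8 := ENNReal.Tendsto.const_mul (a := 2) (h5.comp h7) (Or.inr (by norm_num))
      simpa using h8
    have h9 : Tendsto (fun R : ℝ => ‖difO Ω G R x‖ₑ ^ 2) atTop (𝓝 0) := by
      refine tendsto_of_tendsto_of_tendsto_of_le_of_le' tendsto_const_nhds h6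
        (Eventually.of_forall fun _ => zero_le) ?_
      filter_upwards [eventually_ge_atTop (k0 : ℝ)] with R hR
      have h1 : k0 ≤ ⌊R⌋₊ := Nat.le_floor hR
      have h2 : k0 + (⌊R⌋₊ - k0) = ⌊R⌋₊ := by omega
      rw [h2]
      exact difO_high hC hΩ hG hk0 hR x
    have h10 : Tendsto (fun R : ℝ => ‖difO Ω G R x‖ₑ) atTop (𝓝 0) := by
      have h11 : Tendsto (fun z : ℝ≥0∞ => z ^ (1 / 2 : ℝ)) (𝓝 0) (𝓝 0) := by
        have := (ENNReal.continuous_rpow_const (y := (1 / 2 : ℝ))).tendsto 0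
        simpa using this
      refine (h11.comp h9).congr fun R => ?_
      simp only [Function.comp]
      rw [← ENNReal.rpow_natCast, ← ENNReal.rpow_mul]
      norm_num
    rw [tendsto_zero_iff_norm_tendsto_zero]
    have h12 := (ENNReal.tendsto_toReal (ENNReal.zero_ne_top)).comp h10
    refine (h12.congr fun R => ?_)
    simp
  have hun : (⋃ m : ℕ, closedBall (0 : E n) (m : ℝ)) = univ := iUnion_closedBall_nat 0
  have := (ae_restrict_iUnion_iff (μ := volume) (fun m : ℕ => closedBall (0 : E n) (m : ℝ))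
    (fun x => Tendsto (fun R : ℝ => difO Ω G R x) atTop (𝓝 0))).2 hball
  rw [hun, Measure.restrict_univ] at this
  exact this

theorem Sq.bounded {C : ℝ} {Ω : ℝ → Set (E n)} (hΩ : Sq C Ω) (R : ℝ) :
    Bornology.IsBounded (Ω R) := by
  refine (isBounded_closedBall (x := (0 : E n))
    (r := max R 2 + C / Real.log (max R 2) ^ 2)).subset ?_
  exact (hΩ.1 (le_max_left R 2)).trans (hΩ.2.2 _ (le_max_right R 2)).2

theorem measurable_supdifO {C : ℝ} {Ω : ℝ → Set (E n)} (hΩ : Sq C Ω) {G : E n → ℂ}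
    (hG : MemLp G 2 volume) : Measurable fun x => ⨆ R : ℝ, ‖difO Ω G R x‖ₑ := by
  refine LowerSemicontinuous.measurable (lowerSemicontinuous_iSup fun R => ?_)
  refine Continuous.lowerSemicontinuous (Continuous.enorm ?_)
  exact (continuous_I (integrableOn_of_memLp hG (hΩ.bounded R))).sub
    (continuous_I (integrableOn_of_memLp hG isBounded_closedBall))

open Pool.Agent.Results.MP_ee701d_an.SeparatedRadii in
/-- the estimate of Q1 follows from the local estimate for separated radii of the family -/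
theorem q1_of_sepO (hs : S_strip) (hl : S_local) (hn : 1 ≤ n) {C : ℝ} (hC : 0 < C)
    (Ω : ℝ → Set (E n)) (hΩ : Sq C Ω) {h : ℝ} (hh : 0 < h)
    (hloc : ∃ K : ℝ≥0, ∀ f : 𝓢(E n, ℂ),
      ∫⁻ x in closedBall (0 : E n) 1,
        (⨆ k : ℕ, ‖I (Ω (h * k)) (𝓕 (f : E n → ℂ)) x‖ₑ) ^ 2 ≤
        K * ∫⁻ x, ‖f x‖ₑ ^ 2) :
    ∃ K : ℝ≥0, ∀ f : 𝓢(E n, ℂ),
      ∫⁻ x, (⨆ (R : ℝ) (_ : 0 < R), ‖I (closedBall 0 R) (𝓕 (f : E n → ℂ)) x‖ₑ) ^ 2 ≤
        K * ∫⁻ x, ‖f x‖ₑ ^ 2 := by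
  obtain ⟨K0, hK0⟩ := sup_difO hs hl n hC 1
  have hbd := hK0 Ω hΩ
  have hL : ∀ f : 𝓢(E n, ℂ), MemLp (𝓕 (f : E n → ℂ)) 2 volume := fun f => (𝓕 f).memLp 2 volume
  obtain ⟨K, hK⟩ := hloc
  have hres := (result (n := n) hn (h := h) hh).1.2
  refine hres ⟨2 * K0 + 2 * K, fun f => ?_⟩
  set G := 𝓕 (f : E n → ℂ) with hGdef
  have hpt : ∀ x, (⨆ k : ℕ, ‖S G (h * k) x‖ₑ) ^ 2 ≤
      2 * (⨆ R : ℝ, ‖difO Ω G R x‖ₑ) ^ 2 +
        2 * (⨆ k : ℕ, ‖I (Ω (h * k)) G x‖ₑ) ^ 2 := by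
    intro x
    rw [← mul_add]
    refine le_trans (pow_le_pow_left' ?_ 2) (add_sq_le' _ _)
    refine iSup_le fun k => ?_
    have e : S G (h * k) x = I (Ω (h * k)) G x - difO Ω G (h * k) x := by
      have : S G (h * k) x = I (closedBall 0 (h * k)) G x := rfl
      rw [this]
      unfold difO
      ring
    rw [e, add_comm]
    refine (enorm_sub_le).trans (add_le_add ?_ ?_)
    · exact le_iSup (fun k : ℕ => ‖I (Ω (h * k)) G x‖ₑ) k
    · exact le_iSup (fun R => ‖difO Ω G R x‖ₑ) (h * k)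
  calc ∫⁻ x in closedBall (0 : E n) 1, (⨆ k : ℕ, ‖S G (h * k) x‖ₑ) ^ 2
      ≤ ∫⁻ x in closedBall (0 : E n) 1, (2 * (⨆ R : ℝ, ‖difO Ω G R x‖ₑ) ^ 2 +
        2 * (⨆ k : ℕ, ‖I (Ω (h * k)) G x‖ₑ) ^ 2) := lintegral_mono hpt
    _ = 2 * (∫⁻ x in closedBall (0 : E n) 1, (⨆ R : ℝ, ‖difO Ω G R x‖ₑ) ^ 2) +
        2 * ∫⁻ x in closedBall (0 : E n) 1,
          (⨆ k : ℕ, ‖I (Ω (h * k)) G x‖ₑ) ^ 2 := by
        rw [lintegral_add_left, lintegral_const_mul' _ _ (by norm_num),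
          lintegral_const_mul' _ _ (by norm_num)]
        exact ((measurable_supdifO hΩ (hL f)).pow_const 2).const_mul 2
    _ ≤ 2 * (K0 * ∫⁻ ξ, ‖G ξ‖ₑ ^ 2) + 2 * (K * ∫⁻ x, ‖f x‖ₑ ^ 2) := by
        refine add_le_add ?_ ?_
        · exact mul_le_mul_right (hbd G (hL f) 0) _
        · exact mul_le_mul_right (hK f) _
    _ = ((2 * K0 + 2 * K : ℝ≥0) : ℝ≥0∞) * ∫⁻ x, ‖f x‖ₑ ^ 2 := by
        rw [plancherel f]
        push_cast
        ring

/-- the estimate of Q1 gives the local estimate for the family -/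
theorem loc_of_q1O (hs : S_strip) (hl : S_local) (hn : 1 ≤ n) {C : ℝ} (hC : 0 < C)
    (Ω : ℝ → Set (E n)) (hΩ : Sq C Ω)
    (hQ1 : ∃ K : ℝ≥0, ∀ f : 𝓢(E n, ℂ),
      ∫⁻ x, (⨆ (R : ℝ) (_ : 0 < R), ‖I (closedBall 0 R) (𝓕 (f : E n → ℂ)) x‖ₑ) ^ 2 ≤
        K * ∫⁻ x, ‖f x‖ₑ ^ 2) :
    ∃ K : ℝ≥0, ∀ f : 𝓢(E n, ℂ),
      ∫⁻ x in closedBall (0 : E n) 1,
        (⨆ R : ℝ, ‖I (Ω R) (𝓕 (f : E n → ℂ)) x‖ₑ) ^ 2 ≤
        K * ∫⁻ x, ‖f x‖ₑ ^ 2 := by
  obtain ⟨K0, hK0⟩ := sup_difO hs hl n hC 1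
  have hbd := hK0 Ω hΩ
  have hL : ∀ f : 𝓢(E n, ℂ), MemLp (𝓕 (f : E n → ℂ)) 2 volume := fun f => (𝓕 f).memLp 2 volume
  obtain ⟨K, hK⟩ := hQ1
  refine ⟨2 * K0 + 2 * K, fun f => ?_⟩
  set G := 𝓕 (f : E n → ℂ) with hGdef
  have hpt : ∀ x, (⨆ R : ℝ, ‖I (Ω R) G x‖ₑ) ^ 2 ≤
      2 * (⨆ R : ℝ, ‖difO Ω G R x‖ₑ) ^ 2 +
        2 * (⨆ (R : ℝ) (_ : 0 < R), ‖I (closedBall 0 R) G x‖ₑ) ^ 2 := by
    intro x
    rw [← mul_add]
    refine le_trans (pow_le_pow_left' ?_ 2) (add_sq_le' _ _)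
    refine iSup_le fun R => ?_
    have e : I (Ω R) G x = difO Ω G R x + I (closedBall 0 R) G x := by
      unfold difO
      ring
    rw [e]
    refine (enorm_add_le _ _).trans (add_le_add (le_iSup (fun R => ‖difO Ω G R x‖ₑ) R) ?_)
    by_cases hR : 0 < R
    · exact le_iSup₂_of_le R hR le_rfl
    · rw [I_nonpos hn (not_lt.1 hR)]
      simp
  calc ∫⁻ x in closedBall (0 : E n) 1, (⨆ R : ℝ, ‖I (Ω R) G x‖ₑ) ^ 2
      ≤ ∫⁻ x in closedBall (0 : E n) 1, (2 * (⨆ R : ℝ, ‖difO Ω G R x‖ₑ) ^ 2 +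
        2 * (⨆ (R : ℝ) (_ : 0 < R), ‖I (closedBall 0 R) G x‖ₑ) ^ 2) := lintegral_mono hpt
    _ = 2 * (∫⁻ x in closedBall (0 : E n) 1, (⨆ R : ℝ, ‖difO Ω G R x‖ₑ) ^ 2) +
        2 * ∫⁻ x in closedBall (0 : E n) 1,
          (⨆ (R : ℝ) (_ : 0 < R), ‖I (closedBall 0 R) G x‖ₑ) ^ 2 := by
        rw [lintegral_add_left, lintegral_const_mul' _ _ (by norm_num),
          lintegral_const_mul' _ _ (by norm_num)]
        exact ((measurable_supdifO hΩ (hL f)).pow_const 2).const_mul 2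
    _ ≤ 2 * (K0 * ∫⁻ ξ, ‖G ξ‖ₑ ^ 2) + 2 * (K * ∫⁻ x, ‖f x‖ₑ ^ 2) := by
        refine add_le_add ?_ ?_
        · exact mul_le_mul_right (hbd G (hL f) 0) _
        · refine mul_le_mul_right ?_ _
          exact (setLIntegral_le_lintegral _ _).trans (hK f)
    _ = ((2 * K0 + 2 * K : ℝ≥0) : ℝ≥0∞) * ∫⁻ x, ‖f x‖ₑ ^ 2 := by
        rw [plancherel f]
        push_cast
        ring

end Pool.Agent.H311.BP
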