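import Pool.Agent.H311.BP.Defs

set_option autoImplicit false

open MeasureTheory Metric Set Filter Topology
open scoped ENNReal NNReal Real RealInnerProductSpace

namespace Pool.Agent.H311.BP

theorem tree (happ : S_approx) : S_tree := by
  classical
  intro N
  induction N with
  | zero =>
    intro D hD A δ hδ
    refine ⟨∅, 0, 0, 0, ∅, by simp, by simp, by simp, MeasurableSet.empty, by simp, ?_, ?_⟩
    · intro t _ _ m
      simp [hδ.le]
    · intro t _ _
      exact ⟨0, le_refl 0, 0, 0, rfl, by simp [hδ.le], by simp [hδ.le]⟩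
  | succ N ih =>
    intro D hD A δ hδ
    set d : ℝ := δ / 4 with hd
    have hd0 : 0 < d := by positivity
    obtain ⟨s, Fq, q, hsm, hs, hFqA, hqn, hqb⟩ := happ D hD A d hd0
    set BQ : Set UnitAddCircle :=
      {t | d < ‖(∑ j ∈ Fq, q j * fourier j t) - D.indicator (fun t => (s t : ℂ)) t‖} with hBQ
    have hBQm : MeasurableSet BQ := by
      refine measurableSet_lt measurable_const ?_
      refine Measurable.norm ?_
      refine Measurable.sub ?_ ?_
      · exact Finset.measurable_sum _ fun j _ => ((fourier j).continuous.measurable).const_mul _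
      · exact (Complex.measurable_ofReal.comp hsm).indicator hD
    have hD0 : MeasurableSet (D ∩ {t | s t = 1}) := hD.inter (hsm (measurableSet_singleton 1))
    have hD1 : MeasurableSet (D ∩ {t | s t = -1}) := hD.inter (hsm (measurableSet_singleton (-1)))
    obtain ⟨F0, c0, τ0, M0, B0, hF0, hτ0, hc0, hB0m, hB0, hoff0, hon0⟩ :=
      ih (D ∩ {t | s t = 1}) hD0 (A ∪ Fq) d hd0
    obtain ⟨F1, c1, τ1, M1, B1, hF1, hτ1, hc1, hB1m, hB1, hoff1, hon1⟩ :=
      ih (D ∩ {t | s t = -1}) hD1 (A ∪ Fq ∪ F0) d hd0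
    have h0A : ∀ j ∈ F0, j ∉ A := fun j hj hA =>
      (Finset.disjoint_left.1 hF0 hj) (Finset.mem_union_left _ hA)
    have h0q : ∀ j ∈ F0, j ∉ Fq := fun j hj hA =>
      (Finset.disjoint_left.1 hF0 hj) (Finset.mem_union_right _ hA)
    have h1A : ∀ j ∈ F1, j ∉ A := fun j hj hA =>
      (Finset.disjoint_left.1 hF1 hj) (Finset.mem_union_left _ (Finset.mem_union_left _ hA))
    have h1q : ∀ j ∈ F1, j ∉ Fq := fun j hj hA =>
      (Finset.disjoint_left.1 hF1 hj) (Finset.mem_union_left _ (Finset.mem_union_right _ hA))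
    have h10 : ∀ j ∈ F1, j ∉ F0 := fun j hj hA =>
      (Finset.disjoint_left.1 hF1 hj) (Finset.mem_union_right _ hA)
    have hqA : ∀ j ∈ Fq, j ∉ A := fun j hj hA => (Finset.disjoint_left.1 hFqA hj) hA
    have dj1 : Disjoint F0 Fq := Finset.disjoint_left.2 h0q
    have dj2 : Disjoint (F0 ∪ Fq) F1 := by
      rw [Finset.disjoint_left]
      intro j hj h1
      rcases Finset.mem_union.1 hj with h | h
      · exact h10 j h1 h
      · exact h1q j h1 h
    set c : ℤ → ℂ := fun j => if j ∈ F0 then c0 j else if j ∈ Fq then q j else c1 j with hc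
    set τ : ℤ → ℕ := fun j => if j ∈ F0 then τ0 j else if j ∈ Fq then M0 else M0 + 1 + τ1 j with hτ
    have c_0 : ∀ j ∈ F0, c j = c0 j := fun j hj => by simp [hc, hj]
    have c_q : ∀ j ∈ Fq, c j = q j := fun j hj => by
      have : j ∉ F0 := fun h => h0q j h hj
      simp [hc, hj, this]
    have c_1 : ∀ j ∈ F1, c j = c1 j := fun j hj => by
      simp [hc, h10 j hj, h1q j hj]
    have t_0 : ∀ j ∈ F0, τ j = τ0 j := fun j hj => by simp [hτ, hj]
    have t_q : ∀ j ∈ Fq, τ j = M0 := fun j hj => by
      have : j ∉ F0 := fun h => h0q j h hj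
      simp [hτ, hj, this]
    have t_1 : ∀ j ∈ F1, τ j = M0 + 1 + τ1 j := fun j hj => by
      simp [hτ, h10 j hj, h1q j hj]
    -- partial sums
    have part : ∀ (t : UnitAddCircle) (m : ℕ),
        ∑ j ∈ (F0 ∪ Fq ∪ F1).filter (fun j => τ j < m), c j * fourier j t =
        (∑ j ∈ F0.filter (fun j => τ0 j < m), c0 j * fourier j t) +
        (if M0 < m then ∑ j ∈ Fq, q j * fourier j t else 0) +
        ∑ j ∈ F1.filter (fun j => τ1 j < m - (M0 + 1)), c1 j * fourier j t := by
      intro t m
      rw [Finset.sum_filter, Finset.sum_union dj2, Finset.sum_union dj1]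
      congr 1
      · congr 1
        · rw [Finset.sum_filter]
          refine Finset.sum_congr rfl fun j hj => ?_
          rw [t_0 j hj, c_0 j hj]
        · by_cases h : M0 < m
          · rw [if_pos h]
            refine Finset.sum_congr rfl fun j hj => ?_
            rw [t_q j hj, c_q j hj, if_pos h]
          · rw [if_neg h]
            refine Finset.sum_eq_zero fun j hj => ?_
            rw [t_q j hj, if_neg h]
      · rw [Finset.sum_filter]
        refine Finset.sum_congr rfl fun j hj => ?_
        rw [t_1 j hj, c_1 j hj]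
        by_cases h : M0 + 1 + τ1 j < m
        · rw [if_pos h, if_pos (by omega)]
        · rw [if_neg h, if_neg (by omega)]
    have full : ∀ t : UnitAddCircle, ∑ j ∈ F0 ∪ Fq ∪ F1, c j * fourier j t =
        (∑ j ∈ F0, c0 j * fourier j t) + (∑ j ∈ Fq, q j * fourier j t) +
          ∑ j ∈ F1, c1 j * fourier j t := by
      intro t
      rw [Finset.sum_union dj2, Finset.sum_union dj1]
      congr 1
      · congr 1
        · exact Finset.sum_congr rfl fun j hj => by rw [c_0 j hj]
        · exact Finset.sum_congr rfl fun j hj => by rw [c_q j hj]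
      · exact Finset.sum_congr rfl fun j hj => by rw [c_1 j hj]
    have all0 : ∀ m : ℕ, M0 ≤ m → F0.filter (fun j => τ0 j < m) = F0 := by
      intro m hm
      exact Finset.filter_true_of_mem fun j hj => lt_of_lt_of_le (hτ0 j hj) hm
    have all1 : ∀ m : ℕ, M1 ≤ m → F1.filter (fun j => τ1 j < m) = F1 := by
      intro m hm
      exact Finset.filter_true_of_mem fun j hj => lt_of_lt_of_le (hτ1 j hj) hm
    -- off the sets
    have T0 : ∀ t, t ∉ D ∩ {t | s t = 1} → t ∉ B0 → ‖∑ j ∈ F0, c0 j * fourier j t‖ ≤ d := by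
      intro t h1 h2
      have := hoff0 t h1 h2 M0
      rwa [all0 M0 le_rfl] at this
    have T1 : ∀ t, t ∉ D ∩ {t | s t = -1} → t ∉ B1 → ‖∑ j ∈ F1, c1 j * fourier j t‖ ≤ d := by
      intro t h1 h2
      have := hoff1 t h1 h2 M1
      rwa [all1 M1 le_rfl] at this
    refine ⟨F0 ∪ Fq ∪ F1, c, τ, M0 + 1 + M1, B0 ∪ BQ ∪ B1, ?_, ?_, ?_, ?_, ?_, ?_, ?_⟩
    · rw [Finset.disjoint_left]
      intro j hj
      rcases Finset.mem_union.1 hj with h | h
      · rcases Finset.mem_union.1 h with h | h
        · exact h0A j h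
        · exact hqA j h
      · exact h1A j h
    · intro j hj
      rcases Finset.mem_union.1 hj with h | h
      · rcases Finset.mem_union.1 h with h | h
        · rw [t_0 j h]; have := hτ0 j h; omega
        · rw [t_q j h]; omega
      · rw [t_1 j h]; have := hτ1 j h; omega
    · rw [Finset.sum_union dj2, Finset.sum_union dj1]
      have e0 : ∑ j ∈ F0, ‖c j‖ ^ 2 = ∑ j ∈ F0, ‖c0 j‖ ^ 2 :=
        Finset.sum_congr rfl fun j hj => by rw [c_0 j hj]
      have eq : ∑ j ∈ Fq, ‖c j‖ ^ 2 = ∑ j ∈ Fq, ‖q j‖ ^ 2 :=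
        Finset.sum_congr rfl fun j hj => by rw [c_q j hj]
      have e1 : ∑ j ∈ F1, ‖c j‖ ^ 2 = ∑ j ∈ F1, ‖c1 j‖ ^ 2 :=
        Finset.sum_congr rfl fun j hj => by rw [c_1 j hj]
      rw [e0, eq, e1]
      have hsum : (volume (D ∩ {t | s t = 1})).toReal + (volume (D ∩ {t | s t = -1})).toReal =
          (volume D).toReal := by
        rw [← ENNReal.toReal_add (measure_ne_top _ _) (measure_ne_top _ _),
          ← measure_union _ hD1]
        · congr 2
          ext t
          constructor
          · rintro (⟨h1, _⟩ | ⟨h1, _⟩) <;> exact h1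
          · intro h1
            rcases hs t with h | h
            · exact Or.inl ⟨h1, h⟩
            · exact Or.inr ⟨h1, h⟩
        · rw [Set.disjoint_left]
          rintro t ⟨_, h1⟩ ⟨_, h2⟩
          have h1' : s t = 1 := h1
          have h2' : s t = -1 := h2
          rw [h1'] at h2'
          norm_num at h2'
      push_cast
      have hD' : 0 ≤ (volume D).toReal := ENNReal.toReal_nonneg
      nlinarith
    · exact (hB0m.union hBQm).union hB1m
    · refine (measure_union_le _ _).trans ?_
      refine (add_le_add (measure_union_le _ _) le_rfl).trans ?_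
      refine (add_le_add (add_le_add hB0 hqb) hB1).trans ?_
      rw [← ENNReal.ofReal_add hd0.le hd0.le, ← ENNReal.ofReal_add (by positivity) hd0.le]
      exact ENNReal.ofReal_le_ofReal (by rw [hd]; linarith)
    · intro t htD htB m
      have htB0 : t ∉ B0 := fun h => htB (Or.inl (Or.inl h))
      have htBQ : t ∉ BQ := fun h => htB (Or.inl (Or.inr h))
      have htB1 : t ∉ B1 := fun h => htB (Or.inr h)
      have hq' : ‖∑ j ∈ Fq, q j * fourier j t‖ ≤ d := by
        have h1 : ¬ (d < ‖(∑ j ∈ Fq, q j * fourier j t) -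
          D.indicator (fun t => (s t : ℂ)) t‖) := htBQ
        rw [indicator_of_notMem htD, sub_zero] at h1
        exact not_lt.1 h1
      rw [part t m]
      have h0 := hoff0 t (fun h => htD h.1) htB0 m
      have h1 := hoff1 t (fun h => htD h.1) htB1 (m - (M0 + 1))
      have h2 : ‖(if M0 < m then ∑ j ∈ Fq, q j * fourier j t else 0)‖ ≤ d := by
        split_ifs
        · exact hq'
        · simp [hd0.le]
      calc _ ≤ ‖(∑ j ∈ F0.filter (fun j => τ0 j < m), c0 j * fourier j t)‖ +
          ‖(if M0 < m then ∑ j ∈ Fq, q j * fourier j t else 0)‖ +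
          ‖∑ j ∈ F1.filter (fun j => τ1 j < m - (M0 + 1)), c1 j * fourier j t‖ := norm_add₃_le
        _ ≤ d + d + d := by gcongr
        _ ≤ δ := by rw [hd]; linarith
    · intro t htD htB
      have htB0 : t ∉ B0 := fun h => htB (Or.inl (Or.inl h))
      have htBQ : t ∉ BQ := fun h => htB (Or.inl (Or.inr h))
      have htB1 : t ∉ B1 := fun h => htB (Or.inr h)
      have hq' : ‖(∑ j ∈ Fq, q j * fourier j t) - (s t : ℂ)‖ ≤ d := by
        have h1 : ¬ (d < ‖(∑ j ∈ Fq, q j * fourier j t) -
          D.indicator (fun t => (s t : ℂ)) t‖) := htBQ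
        rw [indicator_of_mem htD] at h1
        exact not_lt.1 h1
      rcases hs t with hst | hst
      · -- `t` in the left part
        have hin : t ∈ D ∩ {t | s t = 1} := ⟨htD, hst⟩
        have hnot : t ∉ D ∩ {t | s t = -1} := by
          rintro ⟨_, h⟩
          first
            | (have h' : s t = -1 := h
               rw [hst] at h'
               norm_num at h')
            | (have h' : s t = 1 := h
               rw [hst] at h'
               norm_num at h')
        obtain ⟨m, hm, a, b, hab, h1, h2⟩ := hon0 t hin htB0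
        refine ⟨m, by omega, a, b + 1, by omega, ?_, ?_⟩
        · rw [part t m, if_neg (by omega)]
          have : m - (M0 + 1) = 0 := by omega
          rw [this]
          have h3 : F1.filter (fun j => τ1 j < 0) = ∅ := by simp
          rw [h3, Finset.sum_empty, add_zero, add_zero]
          exact h1.trans (by rw [hd]; linarith)
        · rw [full t]
          rw [hst] at hq'
          have h3 := T1 t hnot htB1
          have key : (∑ j ∈ F0, c0 j * fourier j t) + (∑ j ∈ Fq, q j * fourier j t) +
              (∑ j ∈ F1, c1 j * fourier j t) - (((b + 1 : ℕ) : ℂ) - (a : ℂ)) =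
              ((∑ j ∈ F0, c0 j * fourier j t) - ((b : ℂ) - (a : ℂ))) +
              ((∑ j ∈ Fq, q j * fourier j t) - ((1 : ℝ) : ℂ)) +
              ∑ j ∈ F1, c1 j * fourier j t := by push_cast; ring
          rw [key]
          calc _ ≤ ‖(∑ j ∈ F0, c0 j * fourier j t) - ((b : ℂ) - (a : ℂ))‖ +
              ‖(∑ j ∈ Fq, q j * fourier j t) - ((1 : ℝ) : ℂ)‖ +
              ‖∑ j ∈ F1, c1 j * fourier j t‖ := norm_add₃_le
            _ ≤ d + d + d := by gcongr
            _ ≤ δ := by rw [hd]; linarith
      · -- `t` in the right part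
        have hin : t ∈ D ∩ {t | s t = -1} := ⟨htD, hst⟩
        have hnot : t ∉ D ∩ {t | s t = 1} := by
          rintro ⟨_, h⟩
          first
            | (have h' : s t = -1 := h
               rw [hst] at h'
               norm_num at h')
            | (have h' : s t = 1 := h
               rw [hst] at h'
               norm_num at h')
        obtain ⟨m, hm, a, b, hab, h1, h2⟩ := hon1 t hin htB1
        have h3 := T0 t hnot htB0
        rw [hst] at hq'
        refine ⟨M0 + 1 + m, by omega, a + 1, b, by omega, ?_, ?_⟩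
        · rw [part t (M0 + 1 + m), if_pos (by omega), all0 (M0 + 1 + m) (by omega)]
          have : M0 + 1 + m - (M0 + 1) = m := by omega
          rw [this]
          have key : (∑ j ∈ F0, c0 j * fourier j t) + (∑ j ∈ Fq, q j * fourier j t) +
              (∑ j ∈ F1.filter (fun j => τ1 j < m), c1 j * fourier j t) + ((a + 1 : ℕ) : ℂ) =
              (∑ j ∈ F0, c0 j * fourier j t) +
              ((∑ j ∈ Fq, q j * fourier j t) - ((-1 : ℝ) : ℂ)) +
              ((∑ j ∈ F1.filter (fun j => τ1 j < m), c1 j * fourier j t) + (a : ℂ)) := by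
            push_cast; ring
          rw [key]
          calc _ ≤ ‖∑ j ∈ F0, c0 j * fourier j t‖ +
              ‖(∑ j ∈ Fq, q j * fourier j t) - ((-1 : ℝ) : ℂ)‖ +
              ‖(∑ j ∈ F1.filter (fun j => τ1 j < m), c1 j * fourier j t) + (a : ℂ)‖ := norm_add₃_le
            _ ≤ d + d + d := by gcongr
            _ ≤ δ := by rw [hd]; linarith
        · rw [full t]
          have key : (∑ j ∈ F0, c0 j * fourier j t) + (∑ j ∈ Fq, q j * fourier j t) +
              (∑ j ∈ F1, c1 j * fourier j t) - ((b : ℂ) - ((a + 1 : ℕ) : ℂ)) =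
              (∑ j ∈ F0, c0 j * fourier j t) +
              ((∑ j ∈ Fq, q j * fourier j t) - ((-1 : ℝ) : ℂ)) +
              ((∑ j ∈ F1, c1 j * fourier j t) - ((b : ℂ) - (a : ℂ))) := by push_cast; ring
          rw [key]
          calc _ ≤ ‖∑ j ∈ F0, c0 j * fourier j t‖ +
              ‖(∑ j ∈ Fq, q j * fourier j t) - ((-1 : ℝ) : ℂ)‖ +
              ‖(∑ j ∈ F1, c1 j * fourier j t) - ((b : ℂ) - (a : ℂ))‖ := norm_add₃_le
            _ ≤ d + d + d := by gcongr
            _ ≤ δ := by rw [hd]; linarith

theorem rearr (htree : S_tree) : S_rearr := by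
  classical
  intro K ε hε
  obtain ⟨r, hr⟩ := exists_nat_ge (max (3 * (K + 1)) 3)
  have hr1 : 3 * (K + 1) ≤ r := (le_max_left _ _).trans hr
  have hr2 : (3 : ℝ) ≤ r := (le_max_right _ _).trans hr
  have hr0 : (0 : ℝ) < r := by linarith
  obtain ⟨F, c, τ, M, Bad, -, hτ, hc, hBm, hB, -, hon⟩ :=
    htree (r ^ 2) univ MeasurableSet.univ ∅ (min ε 1) (by positivity)
  refine ⟨F, fun j => c j / r, τ, M, Bad, hτ, ?_, hBm,
    hB.trans (ENNReal.ofReal_le_ofReal (min_le_left _ _)), ?_⟩
  · have h1 : ∑ j ∈ F, ‖c j / r‖ ^ 2 = (∑ j ∈ F, ‖c j‖ ^ 2) / r ^ 2 := by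
      rw [Finset.sum_div]
      refine Finset.sum_congr rfl fun j _ => ?_
      rw [norm_div, div_pow]
      simp
    rw [h1, div_le_one (by positivity)]
    have h2 : (volume (univ : Set UnitAddCircle)).toReal = 1 := by
      simp
    rw [h2, mul_one] at hc
    push_cast at hc
    exact hc
  · intro t ht
    have hdiv : ∀ S : Finset ℤ, ∑ j ∈ S, c j / r * fourier j t = (∑ j ∈ S, c j * fourier j t) / r := by
      intro S
      rw [Finset.sum_div]
      exact Finset.sum_congr rfl fun j _ => by ring
    have hlow : ∀ S : Finset ℤ, K * r ≤ ‖∑ j ∈ S, c j * fourier j t‖ →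
        K ≤ ‖∑ j ∈ S, c j / r * fourier j t‖ := by
      intro S hS
      rw [hdiv, norm_div]
      simp only [Complex.norm_natCast]
      rwa [le_div_iff₀ hr0]
    have hKr : K * r ≤ (r : ℝ) ^ 2 / 3 - 1 := by nlinarith
    obtain ⟨m, hm, a, b, hab, h1, h2⟩ := hon t (mem_univ t) ht
    have hmin : min ε 1 ≤ 1 := min_le_right _ _
    have hab' : (a : ℝ) + b = (r : ℝ) ^ 2 := by exact_mod_cast hab
    by_cases ha : (r : ℝ) ^ 2 / 3 ≤ a
    · refine ⟨m, hm, hlow _ ?_⟩
      have h3 : (a : ℝ) ≤ ‖(∑ j ∈ F.filter (fun j => τ j < m), c j * fourier j t) + (a : ℂ)‖ +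
          ‖∑ j ∈ F.filter (fun j => τ j < m), c j * fourier j t‖ := by
        have h4 := norm_sub_le ((∑ j ∈ F.filter (fun j => τ j < m), c j * fourier j t) + (a : ℂ))
          (∑ j ∈ F.filter (fun j => τ j < m), c j * fourier j t)
        rw [add_sub_cancel_left, Complex.norm_natCast] at h4
        exact h4
      linarith
    · refine ⟨M, le_rfl, hlow _ ?_⟩
      rw [Finset.filter_true_of_mem hτ]
      have h3 : |(b : ℝ) - a| ≤ ‖(∑ j ∈ F, c j * fourier j t) - ((b : ℂ) - (a : ℂ))‖ +
          ‖∑ j ∈ F, c j * fourier j t‖ := by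
        have h4 := norm_sub_le (∑ j ∈ F, c j * fourier j t)
          ((∑ j ∈ F, c j * fourier j t) - ((b : ℂ) - (a : ℂ)))
        rw [sub_sub_cancel] at h4
        have h5 : ‖(b : ℂ) - (a : ℂ)‖ = |(b : ℝ) - a| := by
          rw [← Complex.ofReal_natCast, ← Complex.ofReal_natCast, ← Complex.ofReal_sub,
            Complex.norm_real, Real.norm_eq_abs]
        rw [h5] at h4
        linarith
      have h6 := le_abs_self ((b : ℝ) - a)
      push Not at ha
      linarith

end Pool.Agent.H311.BP
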