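import Pool.Agent.H311.BP.Defs

/-!
# Chaining in a unit window
-/

set_option autoImplicit false

open MeasureTheory Metric Set Filter Topology
open scoped ENNReal NNReal Real RealInnerProductSpace

namespace Pool.Agent.H311.BP

/-! ### Dyadic approximation from above -/

/-- the numerator of the dyadic approximation from above -/
noncomputable def cN (y : ℝ) (J : ℕ) : ℕ := ⌈y * 2 ^ J⌉₊

theorem cN_le {y : ℝ} (hy1 : y ≤ 1) (J : ℕ) : cN y J ≤ 2 ^ J := by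
  unfold cN
  rw [Nat.ceil_le]
  push_cast
  have : (0 : ℝ) < 2 ^ J := by positivity
  nlinarith

theorem le_cN (y : ℝ) (J : ℕ) : y ≤ cN y J / 2 ^ J := by
  rw [le_div_iff₀ (by positivity)]
  exact Nat.le_ceil _

theorem cN_lt {y : ℝ} (hy : 0 ≤ y) (J : ℕ) : (cN y J : ℝ) / 2 ^ J < y + 1 / 2 ^ J := by
  have h3 : (cN y J : ℝ) < y * 2 ^ J + 1 := Nat.ceil_lt_add_one (by positivity)
  rw [div_lt_iff₀ (by positivity), add_mul, div_mul_cancel₀ _ (by positivity)]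
  exact h3

theorem cN_succ {y : ℝ} (hy : 0 ≤ y) (J : ℕ) :
    cN y (J + 1) = 2 * cN y J ∨ cN y (J + 1) + 1 = 2 * cN y J := by
  have h1 : cN y (J + 1) ≤ 2 * cN y J := by
    have h0 : y * 2 ^ J ≤ (cN y J : ℝ) := Nat.le_ceil _
    rw [cN, Nat.ceil_le]
    push_cast
    rw [pow_succ]
    linarith
  have h2 : 2 * cN y J < cN y (J + 1) + 2 := by
    have h3 : (cN y J : ℝ) < y * 2 ^ J + 1 := Nat.ceil_lt_add_one (by positivity)
    have h4 : y * 2 ^ (J + 1) ≤ (cN y (J + 1) : ℝ) := Nat.le_ceil _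
    rw [pow_succ] at h4
    have h5 : (2 * cN y J : ℝ) < (cN y (J + 1) : ℝ) + 2 := by linarith
    exact_mod_cast h5
  omega

theorem chain (φ : ℝ → ℂ) (k y : ℝ) (hy0 : 0 ≤ y) (hy1 : y ≤ 1) (t : ℕ → ℝ)
    (ht0 : ∀ j, 0 ≤ t j)
    (ht : ∀ j i : ℕ, i < 2 ^ j → ‖φ (k + (i + 1) / 2 ^ j) - φ (k + i / 2 ^ j)‖ ≤ t j) (J : ℕ) :
    ‖φ (k + cN y J / 2 ^ J)‖ ≤ ‖φ k‖ + ∑ j ∈ Finset.range (J + 1), t j := by
  induction J with
  | zero =>
    have h1 := cN_le hy1 0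
    rw [pow_zero] at h1
    rw [Finset.sum_range_one, pow_zero, div_one]
    rcases Nat.le_one_iff_eq_zero_or_eq_one.mp h1 with h | h
    · rw [h, Nat.cast_zero, add_zero]
      linarith [ht0 0]
    · rw [h, Nat.cast_one]
      have h2 := ht 0 0 (by norm_num)
      rw [Nat.cast_zero, pow_zero, div_one, div_one, zero_add, add_zero] at h2
      have h3 : φ (k + 1) = φ k + (φ (k + 1) - φ k) := by ring
      rw [h3]
      exact (norm_add_le _ _).trans (by linarith)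
  | succ J ih =>
    rw [Finset.sum_range_succ, ← add_assoc]
    rcases cN_succ hy0 J with h | h
    · have h1 : (cN y (J + 1) : ℝ) / 2 ^ (J + 1) = cN y J / 2 ^ J := by
        rw [h]
        push_cast
        rw [pow_succ]
        field_simp
      rw [h1]
      linarith [ht0 (J + 1)]
    · have h1 : ((cN y (J + 1) : ℝ) + 1) / 2 ^ (J + 1) = cN y J / 2 ^ J := by
        have h2 : (cN y (J + 1) : ℝ) + 1 = 2 * cN y J := by exact_mod_cast h
        rw [h2, pow_succ]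
        field_simp
      have h3 : cN y (J + 1) < 2 ^ (J + 1) := by
        have := cN_le hy1 J
        rw [pow_succ]
        omega
      have h4 := ht (J + 1) (cN y (J + 1)) h3
      rw [h1] at h4
      have h5 : φ (k + cN y (J + 1) / 2 ^ (J + 1)) = φ (k + cN y J / 2 ^ J) -
          (φ (k + cN y J / 2 ^ J) - φ (k + cN y (J + 1) / 2 ^ (J + 1))) := by ring
      rw [h5]
      exact (norm_sub_le _ _).trans (by linarith)

theorem geom_le (J : ℕ) : ∑ j ∈ Finset.range J, ((2 : ℝ) / 3) ^ j ≤ 3 := by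
  rw [geom_sum_eq (by norm_num)]
  have : (0 : ℝ) ≤ (2 / 3) ^ J := by positivity
  rw [div_le_iff_of_neg (by norm_num)]
  linarith

theorem cs (a : ℝ) (t : ℕ → ℝ) (J : ℕ) :
    (a + ∑ j ∈ Finset.range J, t j) ^ 2 ≤
      2 * a ^ 2 + 6 * ∑ j ∈ Finset.range J, ((3 : ℝ) / 2) ^ j * t j ^ 2 := by
  have h1 : (∑ j ∈ Finset.range J, t j) ^ 2 ≤
      (∑ j ∈ Finset.range J, ((2 : ℝ) / 3) ^ j) *
        ∑ j ∈ Finset.range J, ((3 : ℝ) / 2) ^ j * t j ^ 2 := by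
    apply Finset.sum_sq_le_sum_mul_sum_of_sq_le_mul
    · intro i _
      positivity
    · intro i _
      positivity
    · intro i _
      have h2 : ((2 : ℝ) / 3) ^ i * (3 / 2) ^ i = 1 := by
        rw [← mul_pow]
        norm_num
      rw [← mul_assoc, h2, one_mul]
  have h0 : 0 ≤ ∑ j ∈ Finset.range J, ((3 : ℝ) / 2) ^ j * t j ^ 2 :=
    Finset.sum_nonneg fun i _ => by positivity
  have h2 := geom_le J
  nlinarith [sq_nonneg (a - ∑ j ∈ Finset.range J, t j)]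

/-! ### The integrals -/

theorem integrable_exp {n : ℕ} {B : Set (E n)} {G : E n → ℂ} (hB : Bornology.IsBounded B)
    (hG : MemLp G 2 volume) (x : E n) :
    IntegrableOn (fun ξ => Complex.exp (2 * Real.pi * Complex.I * ((⟪x, ξ⟫ : ℝ) : ℂ)) * G ξ) B := by
  have hfin : volume B < ⊤ := hB.measure_lt_top
  have : IsFiniteMeasure (volume.restrict B) := ⟨by rwa [Measure.restrict_apply_univ]⟩
  have h1 : Integrable G (volume.restrict B) :=
    (hG.restrict B).integrable (by norm_num)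
  refine h1.bdd_mul (c := 1) ?_ ?_
  · apply Continuous.aestronglyMeasurable
    fun_prop
  · refine Eventually.of_forall fun ξ => ?_
    have h2 : (2 * Real.pi * Complex.I * ((⟪x, ξ⟫ : ℝ) : ℂ)) =
        ((2 * Real.pi * ⟪x, ξ⟫ : ℝ) : ℂ) * Complex.I := by
      push_cast
      ring
    rw [h2, Complex.norm_exp_ofReal_mul_I]

theorem continuous_IW {n : ℕ} {B : Set (E n)} {G : E n → ℂ} (hB : Bornology.IsBounded B)
    (hG : MemLp G 2 volume) : Continuous (I B G) := by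
  have hfin : volume B < ⊤ := hB.measure_lt_top
  have : IsFiniteMeasure (volume.restrict B) := ⟨by rwa [Measure.restrict_apply_univ]⟩
  have h1 : Integrable G (volume.restrict B) :=
    (hG.restrict B).integrable (by norm_num)
  unfold I
  refine continuous_of_dominated (bound := fun ξ => ‖G ξ‖) ?_ ?_ h1.norm ?_
  · intro x
    exact (integrable_exp hB hG x).aestronglyMeasurable
  · intro x
    refine Eventually.of_forall fun ξ => ?_
    have h2 : (2 * Real.pi * Complex.I * ((⟪x, ξ⟫ : ℝ) : ℂ)) =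
        ((2 * Real.pi * ⟪x, ξ⟫ : ℝ) : ℂ) * Complex.I := by
      push_cast
      ring
    rw [norm_mul, h2, Complex.norm_exp_ofReal_mul_I, one_mul]
  · refine Eventually.of_forall fun ξ => ?_
    fun_prop

theorem I_diff {n : ℕ} {A : Set (E n)} {G : E n → ℂ} {P : E n → ℝ} (hP : Measurable P)
    (hA : MeasurableSet A) (hB : Bornology.IsBounded A) (hG : MemLp G 2 volume) (x : E n)
    {a b : ℝ} (hab : a ≤ b) :
    I (A ∩ {ξ | P ξ ≤ b}) G x - I (A ∩ {ξ | P ξ ≤ a}) G x =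
      I (A ∩ {ξ | a < P ξ ∧ P ξ ≤ b}) G x := by
  have h1 : A ∩ {ξ | P ξ ≤ b} = (A ∩ {ξ | P ξ ≤ a}) ∪ (A ∩ {ξ | a < P ξ ∧ P ξ ≤ b}) := by
    ext ξ
    simp only [mem_inter_iff, mem_union, mem_ofPred_eq]
    constructor
    · rintro ⟨h, h'⟩
      rcases le_or_gt (P ξ) a with h2 | h2
      · exact Or.inl ⟨h, h2⟩
      · exact Or.inr ⟨h, h2, h'⟩
    · rintro (⟨h, h'⟩ | ⟨h, -, h'⟩)
      · exact ⟨h, h'.trans hab⟩
      · exact ⟨h, h'⟩
  have h2 : MeasurableSet (A ∩ {ξ | a < P ξ ∧ P ξ ≤ b}) :=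
    hA.inter ((measurableSet_lt measurable_const hP).inter (measurableSet_le hP measurable_const))
  have h3 : I (A ∩ {ξ | P ξ ≤ b}) G x =
      I (A ∩ {ξ | P ξ ≤ a}) G x + I (A ∩ {ξ | a < P ξ ∧ P ξ ≤ b}) G x := by
    unfold I
    rw [h1]
    refine setIntegral_union ?_ h2 ?_ ?_
    · rw [Set.disjoint_left]
      rintro ξ ⟨_, h4⟩ ⟨_, h5, _⟩
      exact absurd h4 (not_le.2 h5)
    · exact integrable_exp (hB.subset inter_subset_left) hG x
    · exact integrable_exp (hB.subset inter_subset_left) hG x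
  rw [h3]
  ring

theorem I_tendsto {n : ℕ} {A : Set (E n)} {G : E n → ℂ} {P : E n → ℝ} (hP : Measurable P)
    (hA : MeasurableSet A) (hB : Bornology.IsBounded A) (hG : MemLp G 2 volume) (x : E n)
    {u : ℕ → ℝ} {R : ℝ} (hu : Antitone u) (hR : ∀ j, R ≤ u j) (hlim : Tendsto u atTop (𝓝 R)) :
    Tendsto (fun j => I (A ∩ {ξ | P ξ ≤ u j}) G x) atTop (𝓝 (I (A ∩ {ξ | P ξ ≤ R}) G x)) := by
  have h1 : A ∩ {ξ | P ξ ≤ R} = ⋂ j, (A ∩ {ξ | P ξ ≤ u j}) := by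
    ext ξ
    simp only [mem_inter_iff, mem_iInter, mem_ofPred_eq]
    constructor
    · rintro ⟨h, h'⟩ j
      exact ⟨h, h'.trans (hR j)⟩
    · intro h
      exact ⟨(h 0).1, ge_of_tendsto' hlim fun j => (h j).2⟩
  unfold I
  rw [h1]
  refine tendsto_setIntegral_of_antitone ?_ ?_ ⟨0, ?_⟩
  · intro j
    exact hA.inter (measurableSet_le hP measurable_const)
  · intro i j hij ξ hξ
    exact ⟨hξ.1, le_trans hξ.2 (hu hij)⟩
  · exact integrable_exp (hB.subset inter_subset_left) hG x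

/-- the dyadic strips -/
noncomputable def Dd {n : ℕ} (P : E n → ℝ) (A : Set (E n)) (k : ℝ) (j i : ℕ) : Set (E n) :=
  A ∩ {ξ | k + i / 2 ^ j < P ξ ∧ P ξ ≤ k + i / 2 ^ j + 1 / 2 ^ j}

/-- the pointwise bound -/
theorem pointwise {n : ℕ} {A : Set (E n)} {G : E n → ℂ} {P : E n → ℝ} (hP : Measurable P)
    (hA : MeasurableSet A) (hB : Bornology.IsBounded A) (hG : MemLp G 2 volume) (k : ℝ) (x : E n)
    (R : ℝ) (hR : R ∈ Icc k (k + 1)) :
    ‖I (A ∩ {ξ | P ξ ≤ R}) G x‖ₑ ^ 2 ≤ 2 * ‖I (A ∩ {ξ | P ξ ≤ k}) G x‖ₑ ^ 2 +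
      6 * ∑' j : ℕ, (((3 / 2 : ℝ≥0) : ℝ≥0∞)) ^ j *
        ∑ i ∈ Finset.range (2 ^ j), ‖I (Dd P A k j i) G x‖ₑ ^ 2 := by
  obtain ⟨hR0, hR1⟩ := hR
  set y := R - k with hy
  have hy0 : 0 ≤ y := by rw [hy]; linarith
  have hy1 : y ≤ 1 := by rw [hy]; linarith
  set φ : ℝ → ℂ := fun r => I (A ∩ {ξ | P ξ ≤ r}) G x with hφ
  set t : ℕ → ℝ := fun j => Real.sqrt (∑ i ∈ Finset.range (2 ^ j), ‖I (Dd P A k j i) G x‖ ^ 2) with ht
  have ht0 : ∀ j, 0 ≤ t j := fun j => Real.sqrt_nonneg _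
  have htsq : ∀ j, t j ^ 2 = ∑ i ∈ Finset.range (2 ^ j), ‖I (Dd P A k j i) G x‖ ^ 2 := by
    intro j
    exact Real.sq_sqrt (Finset.sum_nonneg fun i _ => by positivity)
  have hstep : ∀ j i : ℕ, i < 2 ^ j → ‖φ (k + (i + 1) / 2 ^ j) - φ (k + i / 2 ^ j)‖ ≤ t j := by
    intro j i hi
    have h1 : φ (k + (i + 1) / 2 ^ j) - φ (k + i / 2 ^ j) = I (Dd P A k j i) G x := by
      have h2 : k + ((i : ℝ) + 1) / 2 ^ j = k + i / 2 ^ j + 1 / 2 ^ j := by
        rw [add_div, add_assoc]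
      rw [h2]
      have h3 : (0 : ℝ) ≤ 1 / 2 ^ j := by positivity
      exact I_diff hP hA hB hG x (by linarith)
    rw [h1]
    apply Real.le_sqrt_of_sq_le
    exact Finset.single_le_sum (f := fun i => ‖I (Dd P A k j i) G x‖ ^ 2)
      (fun i _ => by positivity) (Finset.mem_range.2 hi)
  have hJ : ∀ J : ℕ, ‖φ (k + cN y J / 2 ^ J)‖ₑ ^ 2 ≤ 2 * ‖φ k‖ₑ ^ 2 +
      6 * ∑' j : ℕ, (((3 / 2 : ℝ≥0) : ℝ≥0∞)) ^ j *
        ∑ i ∈ Finset.range (2 ^ j), ‖I (Dd P A k j i) G x‖ₑ ^ 2 := by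
    intro J
    have h1 := chain φ k y hy0 hy1 t ht0 hstep J
    have h2 : ‖φ (k + cN y J / 2 ^ J)‖ ^ 2 ≤ 2 * ‖φ k‖ ^ 2 +
        6 * ∑ j ∈ Finset.range (J + 1), ((3 : ℝ) / 2) ^ j *
          ∑ i ∈ Finset.range (2 ^ j), ‖I (Dd P A k j i) G x‖ ^ 2 := by
      have h3 := cs ‖φ k‖ t (J + 1)
      have h4 : ‖φ (k + cN y J / 2 ^ J)‖ ^ 2 ≤
          (‖φ k‖ + ∑ j ∈ Finset.range (J + 1), t j) ^ 2 := by
        gcongr
      refine (h4.trans h3).trans (le_of_eq ?_)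
      congr 2
      refine Finset.sum_congr rfl fun j _ => ?_
      rw [htsq]
    have h5 : ‖φ (k + cN y J / 2 ^ J)‖₊ ^ 2 ≤ 2 * ‖φ k‖₊ ^ 2 +
        6 * ∑ j ∈ Finset.range (J + 1), (3 / 2 : ℝ≥0) ^ j *
          ∑ i ∈ Finset.range (2 ^ j), ‖I (Dd P A k j i) G x‖₊ ^ 2 := by
      rw [← NNReal.coe_le_coe]
      push_cast
      exact h2
    have h6 : ((‖φ (k + cN y J / 2 ^ J)‖₊ ^ 2 : ℝ≥0) : ℝ≥0∞) ≤ ((2 * ‖φ k‖₊ ^ 2 +
        6 * ∑ j ∈ Finset.range (J + 1), (3 / 2 : ℝ≥0) ^ j *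
          ∑ i ∈ Finset.range (2 ^ j), ‖I (Dd P A k j i) G x‖₊ ^ 2 : ℝ≥0) : ℝ≥0∞) :=
      ENNReal.coe_le_coe.2 h5
    simp only [ENNReal.coe_add, ENNReal.coe_mul, ENNReal.coe_pow, ENNReal.ofNNReal_finsetSum,
      ENNReal.coe_ofNat] at h6
    refine le_trans h6 ?_
    refine add_le_add le_rfl (mul_le_mul_right ?_ _)
    exact ENNReal.sum_le_tsum _
  have hant : Antitone (fun J : ℕ => k + (cN y J : ℝ) / 2 ^ J) := by
    refine antitone_nat_of_succ_le fun J => ?_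
    have h1 : (cN y (J + 1) : ℝ) ≤ 2 * cN y J := by
      rcases cN_succ hy0 J with h | h
      · exact_mod_cast h.le
      · exact_mod_cast (by omega : cN y (J + 1) ≤ 2 * cN y J)
    have h2 : (cN y (J + 1) : ℝ) / 2 ^ (J + 1) ≤ cN y J / 2 ^ J := by
      rw [div_le_div_iff₀ (by positivity) (by positivity), pow_succ]
      have h3 : (0 : ℝ) < 2 ^ J := by positivity
      nlinarith
    linarith
  have hge : ∀ J : ℕ, R ≤ k + (cN y J : ℝ) / 2 ^ J := by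
    intro J
    have := le_cN y J
    linarith
  have hlim : Tendsto (fun J : ℕ => k + (cN y J : ℝ) / 2 ^ J) atTop (𝓝 R) := by
    have h1 : Tendsto (fun J : ℕ => R + ((1 : ℝ) / 2) ^ J) atTop (𝓝 (R + 0)) :=
      tendsto_const_nhds.add (tendsto_pow_atTop_nhds_zero_of_lt_one (by norm_num) (by norm_num))
    rw [add_zero] at h1
    refine tendsto_of_tendsto_of_tendsto_of_le_of_le tendsto_const_nhds h1 hge fun J => ?_
    have h2 := cN_lt hy0 J
    have h3 : (1 : ℝ) / 2 ^ J = (1 / 2) ^ J := by rw [one_div_pow]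
    change k + (cN y J : ℝ) / 2 ^ J ≤ R + (1 / 2) ^ J
    rw [← h3]
    linarith
  have hconv := I_tendsto hP hA hB hG x hant hge hlim
  have hconv2 : Tendsto (fun J : ℕ => ‖φ (k + cN y J / 2 ^ J)‖ₑ ^ 2) atTop
      (𝓝 (‖I (A ∩ {ξ | P ξ ≤ R}) G x‖ₑ ^ 2)) := by
    have h1 : Continuous fun z : ℂ => ‖z‖ₑ ^ 2 := by fun_prop
    exact (h1.tendsto _).comp hconv
  exact le_of_tendsto' hconv2 hJ

/-- (A3) -/
theorem window (h : S_local) : S_window := by
  intro n ρ K1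
  obtain ⟨K0, hK0⟩ := h n ρ
  set V : ℝ≥0∞ := volume (ball (0 : E n) 1) with hV
  have hVfin : V ≠ ⊤ := measure_ball_lt_top.ne
  set S : ℝ≥0∞ := ∑' j : ℕ, (((3 / 4 : ℝ≥0) : ℝ≥0∞)) ^ j with hS
  have hSfin : S ≠ ⊤ := by
    rw [hS, ENNReal.tsum_geometric]
    refine ENNReal.inv_ne_top.2 ?_
    refine (tsub_pos_of_lt ?_).ne'
    exact_mod_cast (by norm_num : (3 / 4 : ℝ≥0) < 1)
  set C : ℝ≥0∞ := 2 * (K0 * V) + 6 * (S * (K0 * ENNReal.ofReal K1)) with hC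
  have hCfin : C ≠ ⊤ := by
    refine ENNReal.add_ne_top.2 ⟨?_, ?_⟩
    · exact ENNReal.mul_ne_top (by norm_num) (ENNReal.mul_ne_top ENNReal.coe_ne_top hVfin)
    · exact ENNReal.mul_ne_top (by norm_num) (ENNReal.mul_ne_top hSfin
        (ENNReal.mul_ne_top ENNReal.coe_ne_top ENNReal.ofReal_ne_top))
  refine ⟨C.toNNReal, ?_⟩
  intro x₀ P A G k hP hA hB hG hstrip
  rw [ENNReal.coe_toNNReal hCfin]
  set X : ℝ≥0∞ := ∫⁻ ξ in A, ‖G ξ‖ₑ ^ 2 with hX
  set H : E n → ℝ≥0∞ := fun x => 2 * ‖I (A ∩ {ξ | P ξ ≤ k}) G x‖ₑ ^ 2 +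
      6 * ∑' j : ℕ, (((3 / 2 : ℝ≥0) : ℝ≥0∞)) ^ j *
        ∑ i ∈ Finset.range (2 ^ j), ‖I (Dd P A k j i) G x‖ₑ ^ 2 with hH
  have hsup : ∀ x, (⨆ R ∈ Icc k (k + 1), ‖I (A ∩ {ξ | P ξ ≤ R}) G x‖ₑ) ^ 2 ≤ H x := by
    intro x
    rw [← ENNReal.rpow_two, ← ENNReal.le_rpow_inv_iff (by norm_num : (0 : ℝ) < 2)]
    refine iSup₂_le fun R hR => ?_
    rw [ENNReal.le_rpow_inv_iff (by norm_num : (0 : ℝ) < 2), ENNReal.rpow_two]
    exact pointwise hP hA hB hG k x R hR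
  refine (lintegral_mono hsup).trans ?_
  -- measurability
  have hmeas : ∀ B : Set (E n), B ⊆ A → Measurable fun x => ‖I B G x‖ₑ ^ 2 := fun B hBA =>
    (continuous_IW (hB.subset hBA) hG).measurable.enorm.pow_const 2
  have hDsub : ∀ j i, Dd P A k j i ⊆ A := fun j i => inter_subset_left
  have hDmeas : ∀ j i, MeasurableSet (Dd P A k j i) := fun j i =>
    hA.inter ((measurableSet_lt measurable_const hP).inter (measurableSet_le hP measurable_const))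
  -- the first term
  have hfirst : ∫⁻ x in closedBall x₀ ρ, ‖I (A ∩ {ξ | P ξ ≤ k}) G x‖ₑ ^ 2 ≤ K0 * V * X := by
    refine (hK0 x₀ (A ∩ {ξ | P ξ ≤ k}) G V (hA.inter (measurableSet_le hP measurable_const))
      (hB.subset inter_subset_left) hG ?_).trans ?_
    · intro ζ
      rw [hV, ← Measure.addHaar_ball_center volume ζ 1]
      exact measure_mono inter_subset_right
    · refine mul_le_mul_right (lintegral_mono_set inter_subset_left) _
  -- the strips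
  have hdis : ∀ j : ℕ, ∑ i ∈ Finset.range (2 ^ j), ∫⁻ ξ in Dd P A k j i, ‖G ξ‖ₑ ^ 2 ≤ X := by
    intro j
    rw [← lintegral_biUnion_finset]
    · refine lintegral_mono_set ?_
      intro ξ hξ
      rw [mem_iUnion₂] at hξ
      obtain ⟨i, _, hi⟩ := hξ
      exact hDsub j i hi
    · intro i _ i' _ hii
      rw [Function.onFun, Set.disjoint_left]
      rintro ξ ⟨_, h1, h2⟩ ⟨_, h3, h4⟩
      apply hii
      have hp : (0 : ℝ) < 1 / 2 ^ j := by positivity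
      have e1 : ∀ a : ℕ, (a : ℝ) / 2 ^ j = a * (1 / 2 ^ j) := fun a => by ring
      rw [e1] at h1 h2 h3 h4
      have h5 : (i : ℝ) * (1 / 2 ^ j) < (i' + 1) * (1 / 2 ^ j) := by linarith
      have h6 : (i' : ℝ) * (1 / 2 ^ j) < (i + 1) * (1 / 2 ^ j) := by linarith
      have h7 : (i : ℝ) < i' + 1 := lt_of_mul_lt_mul_right h5 hp.le
      have h8 : (i' : ℝ) < i + 1 := lt_of_mul_lt_mul_right h6 hp.le
      have h9 : i < i' + 1 := by exact_mod_cast h7
      have h10 : i' < i + 1 := by exact_mod_cast h8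
      omega
    · intro i _
      exact hDmeas j i
  have hlev : ∀ j : ℕ, ∑ i ∈ Finset.range (2 ^ j),
      ∫⁻ x in closedBall x₀ ρ, ‖I (Dd P A k j i) G x‖ₑ ^ 2 ≤
        K0 * ENNReal.ofReal (K1 * (1 / 2 ^ j)) * X := by
    intro j
    have h1 : ∀ i ∈ Finset.range (2 ^ j),
        ∫⁻ x in closedBall x₀ ρ, ‖I (Dd P A k j i) G x‖ₑ ^ 2 ≤
          K0 * ENNReal.ofReal (K1 * (1 / 2 ^ j)) * ∫⁻ ξ in Dd P A k j i, ‖G ξ‖ₑ ^ 2 := by
      intro i _
      refine hK0 x₀ (Dd P A k j i) G _ (hDmeas j i) (hB.subset (hDsub j i)) hG fun ζ => ?_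
      have hp : (0 : ℝ) < 1 / 2 ^ j := by positivity
      have hp1 : (1 : ℝ) / 2 ^ j ≤ 1 := by
        rw [div_le_one (by positivity)]
        exact one_le_pow₀ (by norm_num)
      refine le_trans (measure_mono ?_) (hstrip ζ (k + i / 2 ^ j) (1 / 2 ^ j) hp hp1)
      rintro ξ ⟨⟨h1, h2⟩, h3⟩
      exact ⟨⟨h2, h1⟩, h3⟩
    refine (Finset.sum_le_sum h1).trans ?_
    rw [← Finset.mul_sum]
    gcongr
    exact hdis j
  have hterm : ∀ j : ℕ, (((3 / 2 : ℝ≥0) : ℝ≥0∞)) ^ j *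
      (K0 * ENNReal.ofReal (K1 * (1 / 2 ^ j)) * X) =
        (((3 / 4 : ℝ≥0) : ℝ≥0∞)) ^ j * (K0 * ENNReal.ofReal K1 * X) := by
    intro j
    rw [ENNReal.ofReal_mul' (by positivity)]
    have h1 : ENNReal.ofReal (1 / 2 ^ j) = (((1 / 2 : ℝ≥0) : ℝ≥0∞)) ^ j := by
      rw [← ENNReal.coe_pow, ENNReal.ofReal]
      congr 1
      rw [← NNReal.coe_inj, Real.coe_toNNReal _ (by positivity)]
      push_cast
      rw [one_div_pow]
    rw [h1]
    have h2 : (((3 / 2 : ℝ≥0) : ℝ≥0∞)) ^ j * (((1 / 2 : ℝ≥0) : ℝ≥0∞)) ^ j =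
        (((3 / 4 : ℝ≥0) : ℝ≥0∞)) ^ j := by
      rw [← mul_pow, ← ENNReal.coe_mul]
      congr 2
      norm_num
    rw [← h2]
    ring
  calc ∫⁻ x in closedBall x₀ ρ, H x
      = 2 * (∫⁻ x in closedBall x₀ ρ, ‖I (A ∩ {ξ | P ξ ≤ k}) G x‖ₑ ^ 2) +
          6 * ∑' j : ℕ, (((3 / 2 : ℝ≥0) : ℝ≥0∞)) ^ j * ∑ i ∈ Finset.range (2 ^ j),
            ∫⁻ x in closedBall x₀ ρ, ‖I (Dd P A k j i) G x‖ₑ ^ 2 := by
        rw [hH, lintegral_add_left ((hmeas _ inter_subset_left).const_mul 2),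
          lintegral_const_mul 2 (hmeas _ inter_subset_left), lintegral_const_mul]
        · rw [lintegral_tsum]
          · congr 2
            refine tsum_congr fun j => ?_
            rw [lintegral_const_mul]
            · rw [lintegral_finsetSum]
              intro i _
              exact hmeas _ (hDsub j i)
            · exact Finset.measurable_sum _ fun i _ => hmeas _ (hDsub j i)
          · intro j
            exact ((Finset.measurable_sum _ fun i _ => hmeas _ (hDsub j i)).const_mul _).aemeasurable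
        · exact Measurable.tsum fun j =>
            (Finset.measurable_sum _ fun i _ => hmeas _ (hDsub j i)).const_mul _
    _ ≤ 2 * (K0 * V * X) + 6 * ∑' j : ℕ, (((3 / 2 : ℝ≥0) : ℝ≥0∞)) ^ j *
          (K0 * ENNReal.ofReal (K1 * (1 / 2 ^ j)) * X) := by
        refine add_le_add (mul_le_mul_right hfirst _) (mul_le_mul_right ?_ _)
        exact ENNReal.tsum_le_tsum fun j => mul_le_mul_right (hlev j) _
    _ = C * X := by
        rw [tsum_congr hterm, ENNReal.tsum_mul_right, ← hS, hC]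
        ring

end Pool.Agent.H311.BP
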